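import Pool.Agent.Lib.H10BMM.Basic

/-!
# Identities for the Jucys-Murphy elements
-/

namespace Pool.Agent.Lib.H10BMM

open scoped BigOperators

universe u v w

variable {A : Type u} [CommRing A] {N : ℕ} {P : Par A N} {n : ℕ}
  {K : Type v} [Ring K] [Algebra A K] {T' : ℕ → K}

theorem X_zero : X P T' 0 = T' 0 := rfl

theorem X_succ (k : ℕ) :
    X P T' (k + 1) = ((P.b⁻¹ : Aˣ) : A) • (T' (k + 1) * X P T' k * T' (k + 1)) := rfl

theorem b_smul_X_succ (k : ℕ) :
    (P.b : A) • X P T' (k + 1) = T' (k + 1) * X P T' k * T' (k + 1) := by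
  rw [X_succ, smul_smul, Units.mul_inv, one_smul]

/-- `X k` commutes with `T j` for `j ≥ k + 2`. -/
theorem IsHecke.X_T_far (h : IsHecke P n T') {k j : ℕ} (hj : j < n) (hk : k + 2 ≤ j) :
    T' j * X P T' k = X P T' k * T' j := by
  induction k with
  | zero => exact (h.comm 0 j (by omega) hj).symm
  | succ k ih =>
    have h1 := ih (by omega)
    have h2 := h.comm (k + 1) j (by omega) hj
    rw [X_succ, mul_smul_comm, smul_mul_assoc]
    congr 1
    calc T' j * (T' (k + 1) * X P T' k * T' (k + 1))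
        = (T' j * T' (k + 1)) * X P T' k * T' (k + 1) := by noncomm_ring
      _ = T' (k + 1) * (T' j * X P T' k) * T' (k + 1) := by rw [← h2]; noncomm_ring
      _ = T' (k + 1) * X P T' k * (T' j * T' (k + 1)) := by rw [h1]; noncomm_ring
      _ = T' (k + 1) * X P T' k * T' (k + 1) * T' j := by rw [← h2]; noncomm_ring

/-- `X k` commutes with `T j` for `j < k`. -/
theorem IsHecke.X_T_near (h : IsHecke P n T') {k j : ℕ} (hk : k < n) (hj : j < k) :
    T' j * X P T' k = X P T' k * T' j := by
  induction k with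
  | zero => omega
  | succ k ih =>
    rcases Nat.lt_or_ge j k with hjk | hjk
    · have h1 := ih (by omega) hjk
      have h2 := h.comm j (k + 1) (by omega) hk
      rw [X_succ, mul_smul_comm, smul_mul_assoc]
      congr 1
      calc T' j * (T' (k + 1) * X P T' k * T' (k + 1))
          = (T' j * T' (k + 1)) * X P T' k * T' (k + 1) := by noncomm_ring
        _ = T' (k + 1) * (T' j * X P T' k) * T' (k + 1) := by rw [h2]; noncomm_ring
        _ = T' (k + 1) * X P T' k * (T' j * T' (k + 1)) := by rw [h1]; noncomm_ring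
        _ = T' (k + 1) * X P T' k * T' (k + 1) * T' j := by rw [h2]; noncomm_ring
    · obtain rfl : j = k := by omega
      rcases j with _ | j
      · have h4 := h.br4 (by omega)
        rw [X_succ, mul_smul_comm, smul_mul_assoc, X_zero]
        congr 1
        calc T' 0 * (T' (0 + 1) * T' 0 * T' (0 + 1)) = T' 0 * T' 1 * T' 0 * T' 1 := by
              noncomm_ring
          _ = T' 1 * T' 0 * T' 1 * T' 0 := h4
      · have h3 := h.br3 (j + 1) (by omega) hk
        have hf := h.X_T_far (k := j) (j := j + 1 + 1) hk (by omega)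
        rw [X_succ (j + 1), mul_smul_comm, smul_mul_assoc, X_succ j]
        congr 1
        rw [mul_smul_comm, smul_mul_assoc, mul_smul_comm, smul_mul_assoc]
        congr 1
        generalize T' (j + 1 + 1) = t at *
        generalize T' (j + 1) = s at *
        generalize X P T' j = x at *
        calc s * (t * (s * x * s) * t) = (s * t * s) * x * (s * t) := by noncomm_ring
          _ = t * s * (t * x) * (s * t) := by rw [h3]; noncomm_ring
          _ = t * s * x * (t * s * t) := by rw [hf]; noncomm_ring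
          _ = t * (s * x * s) * t * s := by rw [← h3]; noncomm_ring

/-- `X k` commutes with `T j` for `j ≠ k, k + 1`. -/
theorem IsHecke.X_T_comm (h : IsHecke P n T') {k j : ℕ} (hk : k < n) (hj : j < n) (h1 : j ≠ k)
    (h2 : j ≠ k + 1) : T' j * X P T' k = X P T' k * T' j := by
  rcases Nat.lt_or_ge j k with hjk | hjk
  · exact h.X_T_near hk hjk
  · exact h.X_T_far hj (by omega)

/-- The Jucys-Murphy elements commute with each other. -/
theorem IsHecke.X_X_lt (h : IsHecke P n T') {k l : ℕ} (hl : l < n) (hk : k < l) :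
    X P T' k * X P T' l = X P T' l * X P T' k := by
  induction k with
  | zero => exact h.X_T_near hl hk
  | succ k ih =>
    have h1 := ih (by omega)
    have h2 := h.X_T_near hl hk
    rw [X_succ k, smul_mul_assoc, mul_smul_comm]
    congr 1
    generalize X P T' l = y at *
    generalize X P T' k = x at *
    generalize T' (k + 1) = t at *
    calc t * x * t * y = t * x * (t * y) := by noncomm_ring
      _ = t * (x * y) * t := by rw [h2]; noncomm_ring
      _ = (t * y) * x * t := by rw [h1]; noncomm_ring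
      _ = y * (t * x * t) := by rw [h2]; noncomm_ring

theorem IsHecke.X_X_comm (h : IsHecke P n T') {k l : ℕ} (hk : k < n) (hl : l < n) :
    X P T' k * X P T' l = X P T' l * X P T' k := by
  rcases lt_trichotomy k l with hkl | rfl | hkl
  · exact h.X_X_lt hl hkl
  · rfl
  · exact (h.X_X_lt hk hkl).symm

theorem IsHecke.X_mul_T (h : IsHecke P n T') {k : ℕ} (hk : k + 1 < n) :
    X P T' (k + 1) * T' (k + 1) = P.a • X P T' (k + 1) + T' (k + 1) * X P T' k := by
  have hq := h.quad (k + 1) (by omega) hk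
  have : X P T' (k + 1) * T' (k + 1) =
      ((P.b⁻¹ : Aˣ) : A) • (T' (k + 1) * X P T' k * (T' (k + 1) * T' (k + 1))) := by
    rw [X_succ, smul_mul_assoc]; congr 1; noncomm_ring
  rw [this, hq, mul_add, mul_smul_comm, smul_add, smul_comm, ← X_succ, mul_smul_comm, mul_one,
    smul_smul, Units.inv_mul, one_smul]

theorem IsHecke.T_mul_X (h : IsHecke P n T') {k : ℕ} (hk : k + 1 < n) :
    T' (k + 1) * X P T' (k + 1) = P.a • X P T' (k + 1) + X P T' k * T' (k + 1) := by
  have hq := h.quad (k + 1) (by omega) hk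
  have : T' (k + 1) * X P T' (k + 1) =
      ((P.b⁻¹ : Aˣ) : A) • ((T' (k + 1) * T' (k + 1)) * X P T' k * T' (k + 1)) := by
    rw [X_succ, mul_smul_comm]; congr 1; noncomm_ring
  rw [this, hq, add_mul, add_mul, smul_mul_assoc, smul_mul_assoc, smul_add, smul_comm, ← X_succ,
    smul_mul_assoc, one_mul, smul_mul_assoc, smul_smul, Units.inv_mul, one_smul]

/-- `X_{k+1}^m T = a ∑_{j<m} X_k^j X_{k+1}^{m-j} + T X_k^m`, `T = T_{k+1}`. -/
theorem IsHecke.Xpow_mul_T (h : IsHecke P n T') {k : ℕ} (hk : k + 1 < n) (m : ℕ) :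
    X P T' (k + 1) ^ m * T' (k + 1) =
      P.a • ∑ j ∈ Finset.range m, X P T' k ^ j * X P T' (k + 1) ^ (m - j) +
        T' (k + 1) * X P T' k ^ m := by
  induction m with
  | zero => simp
  | succ m ih =>
    have hc : Commute (X P T' k) (X P T' (k + 1)) := h.X_X_comm (by omega) hk
    rw [pow_succ, mul_assoc, h.X_mul_T hk, mul_add, mul_smul_comm, ← pow_succ, ← mul_assoc, ih,
      add_mul, smul_mul_assoc, Finset.sum_mul, Finset.sum_range_succ', pow_succ (X P T' k) m,
      ← mul_assoc, ← add_assoc]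
    congr 1
    rw [smul_add, add_comm]
    congr 1
    · congr 1
      refine Finset.sum_congr rfl fun j hj => ?_
      rw [Finset.mem_range] at hj
      rw [mul_assoc, ← (hc.pow_right (m - j)).eq, ← mul_assoc, ← pow_succ]
      congr 2
      omega
    · simp

/-- `T X_{k+1}^m = a ∑_{j<m} X_k^j X_{k+1}^{m-j} + X_k^m T`, `T = T_{k+1}`. -/
theorem IsHecke.T_mul_Xpow (h : IsHecke P n T') {k : ℕ} (hk : k + 1 < n) (m : ℕ) :
    T' (k + 1) * X P T' (k + 1) ^ m =
      P.a • ∑ j ∈ Finset.range m, X P T' k ^ j * X P T' (k + 1) ^ (m - j) +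
        X P T' k ^ m * T' (k + 1) := by
  induction m with
  | zero => simp
  | succ m ih =>
    have hc : Commute (X P T' k) (X P T' (k + 1)) := h.X_X_comm (by omega) hk
    rw [pow_succ', ← mul_assoc, h.T_mul_X hk, add_mul, smul_mul_assoc, ← pow_succ', mul_assoc, ih,
      mul_add, mul_smul_comm, Finset.mul_sum, Finset.sum_range_succ', pow_succ' (X P T' k) m,
      ← mul_assoc, ← add_assoc]
    congr 1
    rw [smul_add, add_comm]
    congr 1
    · congr 1
      refine Finset.sum_congr rfl fun j hj => ?_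
      rw [Finset.mem_range] at hj
      rw [← mul_assoc, ← pow_succ']
      congr 2
      omega
    · simp

/-- Scalars, `b`, `c 0` are units, so the generators are units. -/
theorem IsHecke.isUnit_T (h : IsHecke P n T') {i : ℕ} (hi : i < n) : IsUnit (T' i) := by
  rcases i with _ | i
  · have hp := h.pol hi
    rw [Fin.sum_univ_succ] at hp
    set S : K := T' 0 ^ N - ∑ k : Fin N, P.c k.succ • T' 0 ^ (k : ℕ) with hS
    have e1 : T' 0 * S = (P.c0 : A) • 1 := by
      rw [hS, mul_sub, ← pow_succ', hp, Finset.mul_sum]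
      simp only [Fin.val_zero, pow_zero, Fin.val_succ, mul_smul_comm, ← pow_succ', P.hc0]
      abel
    have e2 : S * T' 0 = (P.c0 : A) • 1 := by
      rw [hS, sub_mul, ← pow_succ, hp, Finset.sum_mul]
      simp only [Fin.val_zero, pow_zero, Fin.val_succ, smul_mul_assoc, ← pow_succ, P.hc0]
      abel
    refine ⟨⟨T' 0, ((P.c0⁻¹ : Aˣ) : A) • S, ?_, ?_⟩, rfl⟩
    · rw [mul_smul_comm, e1, smul_smul, Units.inv_mul, one_smul]
    · rw [smul_mul_assoc, e2, smul_smul, Units.inv_mul, one_smul]
  · have hq := h.quad (i + 1) (by omega) hi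
    refine ⟨⟨T' (i + 1), ((P.b⁻¹ : Aˣ) : A) • (T' (i + 1) - P.a • 1), ?_, ?_⟩, rfl⟩
    · rw [mul_smul_comm, mul_sub, hq, mul_smul_comm, mul_one, add_sub_cancel_left, smul_smul,
        Units.inv_mul, one_smul]
    · rw [smul_mul_assoc, sub_mul, hq, smul_mul_assoc, one_mul, add_sub_cancel_left, smul_smul,
        Units.inv_mul, one_smul]

theorem IsHecke.isUnit_X (h : IsHecke P n T') {k : ℕ} (hk : k < n) : IsUnit (X P T' k) := by
  induction k with
  | zero => exact h.isUnit_T hk
  | succ k ih =>
    have h1 := ((h.isUnit_T hk).mul (ih (by omega))).mul (h.isUnit_T hk)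
    rw [X_succ]
    have h2 : IsUnit (algebraMap A K ((P.b⁻¹ : Aˣ) : A)) := (P.b⁻¹).isUnit.map (algebraMap A K)
    rw [Algebra.smul_def]
    exact h2.mul h1

end Pool.Agent.Lib.H10BMM
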