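import Mathlib

/-!
# Cyclotomic Hecke algebras of type `G(d,1,n)` : definitions

`A` is a commutative ring, `N + 1 = d`.  `Par A N` packs the parameters
* `c : Fin (N+1) → A`, with `c 0` the unit `c0` : the relation of `T 0` is
  `T 0 ^ (N+1) = ∑ k, c k • T 0 ^ k`;
* `a : A`, `b : Aˣ` : the relation of `T i`, `i ≥ 1`, is `T i * T i = a • T i + b • 1`.

`H P n` is the algebra on `T P n 0, …, T P n (n-1)` with these relations and the braid relations
of type `B_n`.
-/

namespace Pool.Agent.Lib.H10BMM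

open scoped BigOperators

universe u v w

/-- The parameters of a cyclotomic Hecke algebra of type `G(N+1,1,n)` over `A`. -/
structure Par (A : Type u) [CommRing A] (N : ℕ) where
  c : Fin (N + 1) → A
  c0 : Aˣ
  hc0 : c 0 = (c0 : A)
  a : A
  b : Aˣ

/-- `T 0, …, T (n-1)` satisfy the relations of the cyclotomic Hecke algebra `H P n`. -/
structure IsHecke {A : Type u} [CommRing A] {N : ℕ} (P : Par A N) (n : ℕ)
    {K : Type v} [Ring K] [Algebra A K] (T : ℕ → K) : Prop where
  pol : 0 < n → T 0 ^ (N + 1) = ∑ k : Fin (N + 1), P.c k • T 0 ^ (k : ℕ)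
  quad : ∀ i, 0 < i → i < n → T i * T i = P.a • T i + (P.b : A) • (1 : K)
  br4 : 1 < n → T 0 * T 1 * T 0 * T 1 = T 1 * T 0 * T 1 * T 0
  br3 : ∀ i, 0 < i → i + 1 < n → T i * T (i + 1) * T i = T (i + 1) * T i * T (i + 1)
  comm : ∀ i j, i + 1 < j → j < n → T i * T j = T j * T i

section

variable {A : Type u} [CommRing A] {N : ℕ} (P : Par A N) (n : ℕ)

open FreeAlgebra in
/-- The defining relations of `H P n`. -/
inductive Rel : FreeAlgebra A (Fin n) → FreeAlgebra A (Fin n) → Prop
  | pol (h : 0 < n) : Rel (ι A (⟨0, h⟩ : Fin n) ^ (N + 1))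
      (∑ k : Fin (N + 1), P.c k • ι A (⟨0, h⟩ : Fin n) ^ (k : ℕ))
  | quad (i : ℕ) (h0 : 0 < i) (h : i < n) : Rel (ι A (⟨i, h⟩ : Fin n) * ι A ⟨i, h⟩)
      (P.a • ι A (⟨i, h⟩ : Fin n) + (P.b : A) • 1)
  | br4 (h : 1 < n) : Rel
      (ι A (⟨0, by omega⟩ : Fin n) * ι A ⟨1, h⟩ * ι A ⟨0, by omega⟩ * ι A ⟨1, h⟩)
      (ι A (⟨1, h⟩ : Fin n) * ι A ⟨0, by omega⟩ * ι A ⟨1, h⟩ * ι A ⟨0, by omega⟩)
  | br3 (i : ℕ) (h0 : 0 < i) (h : i + 1 < n) : Rel
      (ι A (⟨i, by omega⟩ : Fin n) * ι A ⟨i + 1, h⟩ * ι A ⟨i, by omega⟩)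
      (ι A (⟨i + 1, h⟩ : Fin n) * ι A ⟨i, by omega⟩ * ι A ⟨i + 1, h⟩)
  | comm (i j : ℕ) (h0 : i + 1 < j) (h : j < n) : Rel
      (ι A (⟨i, by omega⟩ : Fin n) * ι A ⟨j, h⟩)
      (ι A (⟨j, h⟩ : Fin n) * ι A ⟨i, by omega⟩)

/-- The cyclotomic Hecke algebra on `n` generators. -/
def H : Type u := RingQuot (Rel P n)

noncomputable instance : Ring (H P n) := inferInstanceAs (Ring (RingQuot (Rel P n)))

noncomputable instance : Algebra A (H P n) := inferInstanceAs (Algebra A (RingQuot (Rel P n)))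

/-- The canonical map from the free algebra. -/
noncomputable def mk : FreeAlgebra A (Fin n) →ₐ[A] H P n := RingQuot.mkAlgHom A (Rel P n)

/-- The generators (`0` for `i ≥ n`). -/
noncomputable def T (i : ℕ) : H P n := if h : i < n then mk P n (FreeAlgebra.ι A ⟨i, h⟩) else 0

variable {P n}

theorem T_of_lt {i : ℕ} (h : i < n) : T P n i = mk P n (FreeAlgebra.ι A ⟨i, h⟩) := dif_pos h

theorem mk_rel {x y : FreeAlgebra A (Fin n)} (h : Rel P n x y) : mk P n x = mk P n y :=
  RingQuot.mkAlgHom_rel A h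

variable (P n)

theorem T_isHecke : IsHecke P n (T P n) := by
  refine ⟨?_, ?_, ?_, ?_, ?_⟩
  · intro h
    have := mk_rel (Rel.pol (P := P) h)
    simpa [T_of_lt h] using this
  · intro i h0 h
    have := mk_rel (Rel.quad (P := P) i h0 h)
    simpa [T_of_lt h] using this
  · intro h
    have := mk_rel (Rel.br4 (P := P) h)
    simpa [T_of_lt h, T_of_lt (show 0 < n by omega)] using this
  · intro i h0 h
    have := mk_rel (Rel.br3 (P := P) i h0 h)
    simpa [T_of_lt h, T_of_lt (show i < n by omega)] using this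
  · intro i j h0 h
    have := mk_rel (Rel.comm (P := P) i j h0 h)
    simpa [T_of_lt h, T_of_lt (show i < n by omega)] using this

variable {n}

section lift

variable {K : Type v} [Ring K] [Algebra A K] {T' : ℕ → K}

/-- The universal property of `H P n`. -/
noncomputable def lift (h : IsHecke P n T') : H P n →ₐ[A] K :=
  RingQuot.liftAlgHom A ⟨FreeAlgebra.lift A (fun i : Fin n => T' i), by
    intro x y hxy
    induction hxy with
    | pol h0 => simpa using h.pol h0
    | quad i h0 h1 => simpa using h.quad i h0 h1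
    | br4 h1 => simpa using h.br4 h1
    | br3 i h0 h1 => simpa using h.br3 i h0 h1
    | comm i j h0 h1 => simpa using h.comm i j h0 h1⟩

@[simp] theorem lift_T (h : IsHecke P n T') {i : ℕ} (hi : i < n) : lift P h (T P n i) = T' i := by
  rw [T_of_lt hi]
  unfold lift mk
  erw [RingQuot.liftAlgHom_mkAlgHom_apply]
  simp

theorem hom_ext {f g : H P n →ₐ[A] K} (h : ∀ i, i < n → f (T P n i) = g (T P n i)) : f = g := by
  refine RingQuot.ringQuot_ext' A f g ?_
  refine FreeAlgebra.hom_ext ?_
  funext i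
  have := h i i.2
  rw [T_of_lt i.2] at this
  exact this

/-- Two algebra maps out of `H P n` that agree on the generators agree everywhere. -/
theorem hom_ext_apply {f g : H P n →ₐ[A] K} (h : ∀ i, i < n → f (T P n i) = g (T P n i))
    (x : H P n) : f x = g x := by rw [hom_ext P h]

end lift

variable {P}

/-- Induction: a predicate closed under `+`, `*` and containing scalars and generators holds
everywhere. -/
theorem H_induction {p : H P n → Prop} (halg : ∀ r : A, p (algebraMap A _ r))
    (hT : ∀ i, i < n → p (T P n i)) (hadd : ∀ x y, p x → p y → p (x + y))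
    (hmul : ∀ x y, p x → p y → p (x * y)) (x : H P n) : p x := by
  obtain ⟨z, rfl⟩ := RingQuot.mkAlgHom_surjective A (Rel P n) x
  change p (mk P n z)
  induction z using FreeAlgebra.induction with
  | grade0 r => simpa using halg r
  | grade1 i =>
    have := hT i i.2
    rwa [T_of_lt i.2] at this
  | mul a b ha hb => simpa using hmul _ _ ha hb
  | add a b ha hb => simpa using hadd _ _ ha hb

/-- A submodule containing `1` and stable under right multiplication by the generators is
everything. -/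
theorem submodule_eq_top_of_mul_T (S : Submodule A (H P n)) (h1 : (1 : H P n) ∈ S)
    (hT : ∀ x ∈ S, ∀ i, i < n → x * T P n i ∈ S) (x : H P n) : x ∈ S := by
  suffices h : ∀ y ∈ S, y * x ∈ S by simpa using h 1 h1
  induction x using H_induction with
  | halg r =>
    intro y hy
    rw [← Algebra.commutes, ← Algebra.smul_def]
    exact S.smul_mem r hy
  | hT i hi => exact fun y hy => hT y hy i hi
  | hadd x y hx hy =>
    intro z hz
    rw [mul_add]
    exact S.add_mem (hx z hz) (hy z hz)
  | hmul x y hx hy =>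
    intro z hz
    rw [← mul_assoc]
    exact hy _ (hx z hz)

variable (P)

theorem IsHecke.mono {K : Type v} [Ring K] [Algebra A K] {T' : ℕ → K} {m : ℕ}
    (h : IsHecke P m T') (hn : n ≤ m) : IsHecke P n T' :=
  ⟨fun h0 => h.pol (by omega), fun i h0 h1 => h.quad i h0 (by omega), fun h1 => h.br4 (by omega),
    fun i h0 h1 => h.br3 i h0 (by omega), fun i j h0 h1 => h.comm i j h0 (by omega)⟩

/-- The image of a system of generators under an algebra homomorphism. -/
theorem IsHecke.map {K : Type v} [Ring K] [Algebra A K] {K' : Type w} [Ring K'] [Algebra A K']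
    {T' : ℕ → K} (h : IsHecke P n T') (f : K →ₐ[A] K') : IsHecke P n (fun i => f (T' i)) := by
  refine ⟨fun h0 => ?_, fun i h0 h1 => ?_, fun h1 => ?_, fun i h0 h1 => ?_, fun i j h0 h1 => ?_⟩
  · simpa using congrArg f (h.pol h0)
  · simpa using congrArg f (h.quad i h0 h1)
  · simpa using congrArg f (h.br4 h1)
  · simpa using congrArg f (h.br3 i h0 h1)
  · simpa using congrArg f (h.comm i j h0 h1)

theorem IsHecke.congr {K : Type v} [Ring K] [Algebra A K] {T' T'' : ℕ → K}
    (h : IsHecke P n T') (e : ∀ i, i < n → T'' i = T' i) : IsHecke P n T'' := by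
  refine ⟨fun h0 => ?_, fun i h0 h1 => ?_, fun h1 => ?_, fun i h0 h1 => ?_, fun i j h0 h1 => ?_⟩
  · rw [e 0 h0]; exact h.pol h0
  · rw [e i h1]; exact h.quad i h0 h1
  · rw [e 0 (by omega), e 1 h1]; exact h.br4 h1
  · rw [e i (by omega), e (i + 1) h1]; exact h.br3 i h0 h1
  · rw [e i (by omega), e j h1]; exact h.comm i j h0 h1

variable (n)

/-- The natural map `H P n → H P (n+1)`. -/
noncomputable def incl : H P n →ₐ[A] H P (n + 1) :=
  lift P ((T_isHecke P (n + 1)).mono P (Nat.le_succ n))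

variable {n}

theorem incl_T {i : ℕ} (hi : i < n) : incl P n (T P n i) = T P (n + 1) i := lift_T P _ hi

/-- The normalised Jucys-Murphy elements: `X 0 = T 0`, `X (k+1) = b⁻¹ T (k+1) X k T (k+1)`. -/
noncomputable def X {K : Type v} [Ring K] [Algebra A K] (T' : ℕ → K) : ℕ → K
  | 0 => T' 0
  | (k + 1) => ((P.b⁻¹ : Aˣ) : A) • (T' (k + 1) * X T' k * T' (k + 1))

theorem map_X {K : Type v} [Ring K] [Algebra A K] {K' : Type w} [Ring K'] [Algebra A K']
    {T' : ℕ → K} {T'' : ℕ → K'} (f : K →ₐ[A] K') (k : ℕ) (h : ∀ i, i ≤ k → f (T' i) = T'' i) :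
    f (X P T' k) = X P T'' k := by
  induction k with
  | zero => simpa [X] using h 0 le_rfl
  | succ k ih =>
    have h1 := ih (fun i hi => h i (by omega))
    simp [X, h1, h (k + 1) le_rfl]

theorem incl_X {k : ℕ} (hk : k < n) : incl P n (X P (T P n) k) = X P (T P (n + 1)) k :=
  map_X P _ k (fun _ hi => incl_T P (by omega))

/-- `xx P n k` is the Jucys-Murphy element `X k` of `H P n` (meaningful for `k < n`). -/
noncomputable abbrev xx (n k : ℕ) : H P n := X P (T P n) k

end

end Pool.Agent.Lib.H10BMM
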