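import Pool.Agent.Lib.H10BMM.Star

/-!
# Type `B` braid relations in a group, and the words of the section
-/

namespace Pool.Agent.Lib.H10BMM

universe u v

/-- The braid relations of type `B_n` for `t 0, …, t (n-1)`. -/
structure IsBraid {G : Type v} [Group G] (n : ℕ) (t : ℕ → G) : Prop where
  br4 : 1 < n → t 0 * t 1 * t 0 * t 1 = t 1 * t 0 * t 1 * t 0
  br3 : ∀ i, 0 < i → i + 1 < n → t i * t (i + 1) * t i = t (i + 1) * t i * t (i + 1)
  comm : ∀ i j, i + 1 < j → j < n → t i * t j = t j * t i

section words

variable {G : Type v} [Group G] (t : ℕ → G)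

/-- `L k = t k ⋯ t 1 t 0 t 1 ⋯ t k`. -/
def L : ℕ → G
  | 0 => t 0
  | (k + 1) => t (k + 1) * L k * t (k + 1)

/-- `w n j k = t n ⋯ t (n-j+1) (L (n-j))^k`. -/
def w (N : ℕ) : (n : ℕ) → Fin (n + 1) → Fin (N + 1) → G
  | 0 => fun _ k => t 0 ^ (k : ℕ)
  | (n + 1) => fun j k => Fin.cases (L t (n + 1) ^ (k : ℕ)) (fun j' => t (n + 1) * w N n j' k) j

/-- The index set of the section words. -/
def Ix (N : ℕ) : ℕ → Type
  | 0 => Unit
  | (n + 1) => Ix N n × (Fin (n + 1) × Fin (N + 1))

/-- The trivial index. -/
def triv (N : ℕ) : (n : ℕ) → Ix N n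
  | 0 => ()
  | (n + 1) => (triv N n, (0, 0))

/-- The section words. -/
def wd (N : ℕ) : (n : ℕ) → Ix N n → G
  | 0 => fun _ => 1
  | (n + 1) => fun i => wd N n i.1 * w t N n i.2.1 i.2.2

/-- `t 0 t 1 ⋯ t (n-1)`. -/
def cox : ℕ → G
  | 0 => 1
  | (n + 1) => cox n * t n

/-- `L 0 L 1 ⋯ L (n-1)`. -/
def Lprod : ℕ → G
  | 0 => 1
  | (n + 1) => Lprod n * L t n

variable {G' : Type u} [Group G'] (f : G →* G') {t' : ℕ → G'}

variable {t}

theorem map_L {k : ℕ} (h : ∀ i, i ≤ k → f (t i) = t' i) : f (L t k) = L t' k := by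
  induction k with
  | zero => exact h 0 le_rfl
  | succ k ih =>
    rw [L, L, map_mul, map_mul, ih (fun i hi => h i (by omega)), h (k + 1) le_rfl]

theorem map_w (N : ℕ) {n : ℕ} (h : ∀ i, i ≤ n → f (t i) = t' i) (j : Fin (n + 1))
    (k : Fin (N + 1)) : f (w t N n j k) = w t' N n j k := by
  induction n with
  | zero => rw [w, w, map_pow, h 0 le_rfl]
  | succ n ih =>
    refine Fin.cases ?_ (fun j => ?_) j
    · change f (L t (n + 1) ^ (k : ℕ)) = L t' (n + 1) ^ (k : ℕ)
      rw [map_pow, map_L f h]
    · change f (t (n + 1) * w t N n j k) = t' (n + 1) * w t' N n j k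
      rw [map_mul, h (n + 1) le_rfl, ih (fun i hi => h i (by omega))]

theorem map_wd (N : ℕ) {n : ℕ} (h : ∀ i, i < n → f (t i) = t' i) (i : Ix N n) :
    f (wd t N n i) = wd t' N n i := by
  induction n with
  | zero => exact map_one f
  | succ n ih =>
    rw [wd, wd, map_mul, ih (fun i hi => h i (by omega)), map_w f N (fun i hi => h i (by omega))]

theorem map_cox {n : ℕ} (h : ∀ i, i < n → f (t i) = t' i) : f (cox t n) = cox t' n := by
  induction n with
  | zero => exact map_one f
  | succ n ih => rw [cox, cox, map_mul, ih (fun i hi => h i (by omega)), h n (by omega)]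

theorem map_Lprod {n : ℕ} (h : ∀ i, i < n → f (t i) = t' i) : f (Lprod t n) = Lprod t' n := by
  induction n with
  | zero => exact map_one f
  | succ n ih =>
    rw [Lprod, Lprod, map_mul, ih (fun i hi => h i (by omega)), map_L f (fun i hi => h i (by omega))]

theorem w_zero_zero (N n : ℕ) : w t N n 0 0 = 1 := by
  cases n with
  | zero =>
    change t 0 ^ ((0 : Fin (N + 1)) : ℕ) = 1
    rw [Fin.val_zero, pow_zero]
  | succ n =>
    change L t (n + 1) ^ ((0 : Fin (N + 1)) : ℕ) = 1
    rw [Fin.val_zero, pow_zero]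

theorem wd_triv (N n : ℕ) : wd t N n (triv N n) = 1 := by
  induction n with
  | zero => rfl
  | succ n ih =>
    change wd t N n (triv N n) * w t N n 0 0 = 1
    rw [ih, w_zero_zero, mul_one]

end words

section braid

variable {G : Type v} [Group G] {t : ℕ → G} {n : ℕ}

theorem IsBraid.mono (h : IsBraid n t) {m : ℕ} (hm : m ≤ n) : IsBraid m t :=
  ⟨fun h1 => h.br4 (by omega), fun i h0 h1 => h.br3 i h0 (by omega),
    fun i j h0 h1 => h.comm i j h0 (by omega)⟩

/-- `L k` commutes with `t j` for `j ≥ k + 2`. -/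
theorem IsBraid.L_t_far (h : IsBraid n t) {k j : ℕ} (hj : j < n) (hk : k + 2 ≤ j) :
    Commute (t j) (L t k) := by
  induction k with
  | zero => exact (h.comm 0 j (by omega) hj).symm
  | succ k ih =>
    have h2 : Commute (t j) (t (k + 1)) := (h.comm (k + 1) j (by omega) hj).symm
    exact (h2.mul_right (ih (by omega))).mul_right h2

/-- `L k` commutes with `t j` for `j < k`. -/
theorem IsBraid.L_t_near (h : IsBraid n t) {k j : ℕ} (hk : k < n) (hj : j < k) :
    Commute (t j) (L t k) := by
  induction k with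
  | zero => omega
  | succ k ih =>
    rcases Nat.lt_or_ge j k with hjk | hjk
    · have h2 : Commute (t j) (t (k + 1)) := h.comm j (k + 1) (by omega) hk
      exact (h2.mul_right (ih (by omega) hjk)).mul_right h2
    · obtain rfl : j = k := by omega
      rcases j with _ | j
      · have h4 := h.br4 (by omega)
        change t 0 * (t 1 * t 0 * t 1) = t 1 * t 0 * t 1 * t 0
        rw [← h4]
        simp only [mul_assoc]
      · have h3 := h.br3 (j + 1) (by omega) hk
        have hf := (h.L_t_far (k := j) (j := j + 1 + 1) hk (by omega)).eq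
        change t (j + 1) * (t (j + 1 + 1) * (t (j + 1) * L t j * t (j + 1)) * t (j + 1 + 1)) =
          t (j + 1 + 1) * (t (j + 1) * L t j * t (j + 1)) * t (j + 1 + 1) * t (j + 1)
        generalize t (j + 1 + 1) = r at *
        generalize t (j + 1) = s at *
        generalize L t j = x at *
        calc s * (r * (s * x * s) * r) = (s * r * s) * x * (s * r) := by
              simp only [mul_assoc]
          _ = r * s * (r * x) * (s * r) := by rw [h3]; simp only [mul_assoc]
          _ = r * s * x * (r * s * r) := by rw [hf]; simp only [mul_assoc]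
          _ = r * (s * x * s) * r * s := by rw [← h3]; simp only [mul_assoc]

theorem IsBraid.L_Lprod (h : IsBraid n t) {k : ℕ} (hk : k < n) (m : ℕ) (hm : m ≤ k) :
    Commute (L t k) (Lprod t m) := by
  have hL : ∀ j, j < k → Commute (L t k) (L t j) := by
    intro j hj
    induction j with
    | zero => exact (h.L_t_near hk hj).symm
    | succ j ih =>
      have h1 := (h.L_t_near hk hj).symm
      exact (h1.mul_right (ih (by omega))).mul_right h1
  induction m with
  | zero => exact Commute.one_right _
  | succ m ih => exact (ih (by omega)).mul_right (hL m (by omega))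

theorem IsBraid.Lprod_pow_succ (h : IsBraid n t) {k : ℕ} (hk : k < n) (m : ℕ) :
    Lprod t (k + 1) ^ m = Lprod t k ^ m * L t k ^ m := by
  rw [Lprod, (h.L_Lprod hk k le_rfl).symm.mul_pow]

/-- `tails n k = t n t (n-1) ⋯ t (n-k+1)`. -/
def tails (t : ℕ → G) (n : ℕ) : ℕ → G
  | 0 => 1
  | (k + 1) => tails t n k * t (n - k)

/-- Conjugation by the Coxeter element shifts the generators. -/
theorem IsBraid.t_cox (h : IsBraid n t) {k i : ℕ} (hk : k ≤ n) (hi : 0 < i) (hik : i + 1 < k) :
    t (i + 1) * cox t k = cox t k * t i := by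
  induction k with
  | zero => omega
  | succ k ih =>
    rcases Nat.lt_or_ge (i + 1) k with h1 | h1
    · have hc : Commute (t i) (t k) := h.comm i k (by omega) (by omega)
      rw [cox, ← mul_assoc, ih (by omega) h1, mul_assoc, hc.eq, ← mul_assoc]
    · obtain rfl : k = i + 1 := by omega
      have hc : ∀ m, m ≤ i → Commute (t (i + 1)) (cox t m) := by
        intro m hm
        induction m with
        | zero => exact Commute.one_right _
        | succ m ihm =>
          exact (ihm (by omega)).mul_right (h.comm m (i + 1) (by omega) (by omega)).symm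
      have h3 := h.br3 i hi (by omega)
      rw [cox, cox]
      calc t (i + 1) * (cox t i * t i * t (i + 1))
          = (t (i + 1) * cox t i) * t i * t (i + 1) := by simp only [mul_assoc]
        _ = cox t i * (t (i + 1) * t i * t (i + 1)) := by rw [(hc i le_rfl).eq]; simp only [mul_assoc]
        _ = cox t i * t i * t (i + 1) * t i := by rw [← h3]; simp only [mul_assoc]

theorem IsBraid.tails_cox (h : IsBraid n t) {m k : ℕ} (hm : m < n) (hk : k < m) :
    tails t m k * cox t (m + 1) = cox t (m + 1) * (tails t (m - 1) k) := by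
  induction k with
  | zero => simp [tails]
  | succ k ih =>
    have h1 := ih (by omega)
    have h2 := h.t_cox (k := m + 1) (i := m - 1 - k) (by omega) (by omega) (by omega)
    rw [show m - 1 - k + 1 = m - k by omega] at h2
    rw [tails, tails, mul_assoc, h2, ← mul_assoc, h1, mul_assoc]

theorem tails_head {m k : ℕ} (hk : k < m) :
    t m * tails t (m - 1) k = tails t m (k + 1) := by
  induction k with
  | zero => simp [tails]
  | succ k ih =>
    rw [tails, ← mul_assoc, ih (by omega), show m - 1 - k = m - (k + 1) by omega]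
    rfl

/-- `(t 0 ⋯ t m)^k = (t 0 ⋯ t (m-1))^k t m ⋯ t (m-k+1)` for `k ≤ m`. -/
theorem IsBraid.cox_succ_pow (h : IsBraid n t) {m k : ℕ} (hm : m < n) (hk : k ≤ m) :
    cox t (m + 1) ^ k = cox t m ^ k * tails t m k := by
  induction k with
  | zero => simp [tails]
  | succ k ih =>
    rw [pow_succ, ih (by omega), mul_assoc, h.tails_cox hm (by omega), cox, ← mul_assoc,
      ← mul_assoc, ← pow_succ, mul_assoc, tails_head (by omega)]

/-- `L m = t m ⋯ t 1 t 0 t 1 ⋯ t m`. -/
theorem L_eq (m : ℕ) : L t m = tails t m m * cox t (m + 1) := by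
  induction m with
  | zero => simp [L, tails, cox]
  | succ m ih =>
    have h := tails_head (t := t) (m := m + 1) (k := m) (by omega)
    rw [Nat.add_sub_cancel] at h
    rw [L, ih, ← h, show cox t (m + 1 + 1) = cox t (m + 1) * t (m + 1) from rfl]
    simp only [mul_assoc]

/-- The full twist is the product of the `L k`. -/
theorem IsBraid.cox_pow (h : IsBraid n t) {m : ℕ} (hm : m ≤ n) : cox t m ^ m = Lprod t m := by
  induction m with
  | zero => simp [Lprod]
  | succ m ih =>
    rw [pow_succ, h.cox_succ_pow (by omega) le_rfl, ih (by omega), mul_assoc, ← L_eq, Lprod]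

end braid

end Pool.Agent.Lib.H10BMM
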