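import Pool.Agent.Lib.H10BMM.Mat

/-!
# The triangular matrix `D(x)` and the companion matrix
-/

namespace Pool.Agent.Lib.H10BMM
open Matrix
open scoped BigOperators
universe u v
variable {A : Type u} [CommRing A] {N : ℕ} {K : Type v} [Ring K] [Algebra A K]

/-- The lower triangular matrix `D(x)`. -/
def Dm (N : ℕ) (x : K) : LM N K :=
  Matrix.of fun i k => if 1 ≤ (k : ℕ) ∧ (k : ℕ) ≤ (i : ℕ) then x ^ ((i : ℕ) - (k : ℕ)) else 0

theorem Dm_apply (x : K) (i k : Fin (N + 1)) :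
    Dm N x i k = if 1 ≤ (k : ℕ) ∧ (k : ℕ) ≤ (i : ℕ) then x ^ ((i : ℕ) - (k : ℕ)) else 0 := rfl

theorem Dm_mul_Dm (x x' : K) (i k : Fin (N + 1)) :
    (Dm N x * Dm N x') i k = if 1 ≤ (k : ℕ) ∧ (k : ℕ) ≤ (i : ℕ) then
      ∑ j ∈ Finset.range ((i : ℕ) - k + 1), x ^ j * x' ^ ((i : ℕ) - k - j) else 0 := by
  rw [Matrix.mul_apply]
  split_ifs with h
  · have e : ∑ m : Fin (N + 1), Dm N x i m * Dm N x' m k =
        ∑ m ∈ Finset.range (N + 1), if (k : ℕ) ≤ m ∧ m ≤ i then
          x ^ ((i : ℕ) - m) * x' ^ (m - (k : ℕ)) else 0 := by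
      rw [← Fin.sum_univ_eq_sum_range (fun m => if (k : ℕ) ≤ m ∧ m ≤ i then
          x ^ ((i : ℕ) - m) * x' ^ (m - (k : ℕ)) else 0)]
      refine Finset.sum_congr rfl fun m _ => ?_
      rw [Dm_apply, Dm_apply]
      by_cases h1 : (k : ℕ) ≤ m ∧ (m : ℕ) ≤ i
      · rw [if_pos h1, if_pos (by omega), if_pos (by omega)]
      · rw [if_neg h1]
        by_cases h2 : 1 ≤ (m : ℕ) ∧ (m : ℕ) ≤ i
        · rw [if_neg (show ¬ (1 ≤ (k : ℕ) ∧ (k : ℕ) ≤ m) by omega), mul_zero]
        · rw [if_neg h2, zero_mul]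
    rw [e, ← Finset.sum_filter]
    refine Finset.sum_nbij' (fun m => (i : ℕ) - m) (fun j => (i : ℕ) - j) ?_ ?_ ?_ ?_ ?_
    · intro m hm
      simp only [Finset.mem_filter, Finset.mem_range] at hm ⊢
      omega
    · intro m hm
      have := i.2
      simp only [Finset.mem_filter, Finset.mem_range] at hm ⊢
      omega
    · intro m hm
      simp only [Finset.mem_filter, Finset.mem_range] at hm ⊢
      omega
    · intro m hm
      simp only [Finset.mem_filter, Finset.mem_range] at hm ⊢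
      omega
    · intro m hm
      simp only [Finset.mem_filter, Finset.mem_range] at hm ⊢
      congr 2
      omega
  · refine Finset.sum_eq_zero fun m _ => ?_
    rw [Dm_apply, Dm_apply]
    by_cases h2 : 1 ≤ (m : ℕ) ∧ (m : ℕ) ≤ i
    · rw [if_neg (show ¬ (1 ≤ (k : ℕ) ∧ (k : ℕ) ≤ m) by omega), mul_zero]
    · rw [if_neg h2, zero_mul]

/-- The relation between `D(X_{k+1})`, `D(X_k)` and `T_{k+1}`. -/
theorem Dm_rel {P : Par A N} {n : ℕ} {T' : ℕ → K} (h : IsHecke P n T') {k : ℕ} (hk : k + 1 < n) :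
    Dm N (X P T' (k + 1)) * Matrix.scalar (Fin (N + 1)) (T' (k + 1)) =
      Matrix.scalar (Fin (N + 1)) (T' (k + 1)) * Dm N (X P T' k) - P.a • Dm N (X P T' k) +
        P.a • (Dm N (X P T' k) * Dm N (X P T' (k + 1))) := by
  ext i j
  rw [Matrix.add_apply, Matrix.sub_apply, Matrix.smul_apply, Matrix.smul_apply, Dm_mul_Dm]
  simp only [Matrix.scalar_apply, Matrix.mul_diagonal, Matrix.diagonal_mul, Dm_apply]
  split_ifs with h1
  · rw [h.Xpow_mul_T hk, Finset.sum_range_succ, smul_add]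
    simp
    abel
  · simp

theorem Dm_comm (x g : K) (h : g * x = x * g) :
    Dm N x * Matrix.scalar (Fin (N + 1)) g = Matrix.scalar (Fin (N + 1)) g * Dm N x := by
  ext i j
  simp only [Matrix.scalar_apply, Matrix.mul_diagonal, Matrix.diagonal_mul, Dm_apply]
  split_ifs with h1
  · exact (Commute.pow_right h _).eq.symm
  · simp

/-- The companion matrix of `T 0`. -/
def comp (P : Par A N) (K : Type v) [Ring K] [Algebra A K] : LM N K :=
  Matrix.of fun i j => if i = Fin.last N then algebraMap A K (P.c j)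
    else if (j : ℕ) = i + 1 then 1 else 0

theorem comp_last (P : Par A N) (j : Fin (N + 1)) :
    comp P K (Fin.last N) j = algebraMap A K (P.c j) := if_pos rfl

theorem comp_castSucc (P : Par A N) (i : Fin N) :
    comp P K i.castSucc = Pi.single i.succ 1 := by
  funext j
  unfold comp
  rw [Matrix.of_apply, if_neg (Fin.castSucc_lt_last i).ne, Pi.single_apply]
  refine if_congr ?_ rfl rfl
  rw [Fin.ext_iff]; simp

/-- Row `k` of `comp ^ k`. -/
theorem comp_pow_row (P : Par A N) (k : Fin (N + 1)) :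
    (Pi.single 0 (1 : K)) ᵥ* (comp P K ^ (k : ℕ)) = Pi.single k 1 := by
  obtain ⟨k, hk⟩ := k
  induction k with
  | zero => simp
  | succ k ih =>
    have h1 := ih (by omega)
    simp only at h1 ⊢
    rw [pow_succ, ← vecMul_vecMul, h1, single_vecMul_eq]
    exact comp_castSucc P ⟨k, by omega⟩

theorem comp_scalar_comm (P : Par A N) (t : K) :
    Matrix.scalar (Fin (N + 1)) t * comp P K = comp P K * Matrix.scalar (Fin (N + 1)) t := by
  ext i j
  simp only [Matrix.scalar_apply, Matrix.mul_diagonal, Matrix.diagonal_mul]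
  unfold comp
  rw [Matrix.of_apply]
  split_ifs
  · exact (Algebra.commutes _ _).symm
  · simp
  · simp

theorem comp_pol (P : Par A N) :
    comp P K ^ (N + 1) = ∑ k : Fin (N + 1), P.c k • comp P K ^ (k : ℕ) := by
  rw [← sub_eq_zero]
  set C := comp P K with hC
  set M := C ^ (N + 1) - ∑ k : Fin (N + 1), P.c k • C ^ (k : ℕ) with hM
  have h0 : (Pi.single 0 (1 : K)) ᵥ* M = 0 := by
    have e1 : (Pi.single 0 (1 : K)) ᵥ* (C ^ (N + 1)) = C (Fin.last N) := by
      rw [pow_succ, ← vecMul_vecMul]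
      have := comp_pow_row (K := K) P (Fin.last N)
      rw [Fin.val_last] at this
      rw [this, single_vecMul_eq]
    rw [hM, vecMul_sub, e1]
    have e2 : (Pi.single 0 (1 : K)) ᵥ* (∑ k : Fin (N + 1), P.c k • C ^ (k : ℕ)) =
        ∑ k : Fin (N + 1), P.c k • (Pi.single k (1 : K) : Fin (N + 1) → K) := by
      rw [vecMul_sum]
      refine Finset.sum_congr rfl fun k _ => ?_
      rw [vecMul_smul, comp_pow_row]
    rw [e2, sub_eq_zero]
    funext j
    rw [hC, comp_last]
    simp [Pi.single_apply, Algebra.smul_def]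
  have hcomm : ∀ k : ℕ, C ^ k * M = M * C ^ k := by
    intro k
    rw [hM, mul_sub, sub_mul, ← pow_add, ← pow_add, add_comm k (N + 1), Finset.mul_sum,
      Finset.sum_mul]
    congr 1
    refine Finset.sum_congr rfl fun i _ => ?_
    rw [mul_smul_comm, smul_mul_assoc, ← pow_add, ← pow_add, add_comm k (i : ℕ)]
  ext i j
  have h1 : (Pi.single i (1 : K)) ᵥ* M = 0 := by
    rw [← comp_pow_row P i, vecMul_vecMul, hcomm, ← vecMul_vecMul, h0, zero_vecMul]
  rw [single_vecMul_eq] at h1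
  rw [h1]
  simp

theorem Dm_row_zero (t : K) : Dm N t 0 = 0 := by
  funext j
  rw [Dm_apply, if_neg]
  · rfl
  · simp only [Fin.val_zero]; omega

theorem Dm_row_succ (t : K) (a : ℕ) (ha : a + 1 < N + 1) :
    Dm N t ⟨a + 1, ha⟩ = t • Dm N t ⟨a, by omega⟩ + Pi.single ⟨a + 1, ha⟩ (1 : K) := by
  funext j
  rw [Pi.add_apply, Pi.smul_apply, Dm_apply, Dm_apply, Pi.single_apply]
  simp only [smul_eq_mul]
  by_cases h1 : (j : ℕ) = a + 1
  · rw [if_pos (by omega), if_neg (by omega), if_pos (by rw [Fin.ext_iff]; exact h1)]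
    rw [h1]; simp
  · rw [if_neg (show ¬ (j = ⟨a + 1, ha⟩) by rw [Fin.ext_iff]; exact h1), add_zero]
    by_cases h2 : 1 ≤ (j : ℕ) ∧ (j : ℕ) ≤ a
    · rw [if_pos (by omega), if_pos h2, ← pow_succ']
      congr 1
      omega
    · rw [if_neg (by omega), if_neg h2, mul_zero]

theorem single_vecMul_scalar (t : K) (v : Fin (N + 1) → K) :
    v ᵥ* Matrix.scalar (Fin (N + 1)) t = fun j => v j * t := by
  funext j
  simp [vecMul, dotProduct, Matrix.scalar_apply, Matrix.diagonal_apply]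

theorem comp_pow_row_scalar (P : Par A N) (t : K) (k : ℕ) :
    ((Pi.single 0 (1 : K)) ᵥ* (comp P K ^ k)) ᵥ* Matrix.scalar (Fin (N + 1)) t =
      t • ((Pi.single 0 (1 : K)) ᵥ* (comp P K ^ k)) := by
  have hc : Commute (Matrix.scalar (Fin (N + 1)) t) (comp P K) := comp_scalar_comm P t
  rw [vecMul_vecMul, ← (hc.pow_right k).eq, ← vecMul_vecMul, single_vecMul_scalar, ← smul_vecMul]
  congr 1
  funext j
  rw [Pi.smul_apply, Pi.single_apply]
  split_ifs <;> simp

theorem comp_Dm_row (P : Par A N) (t : K) (a : ℕ) (ha : a < N + 1) :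
    Dm N t ⟨a, ha⟩ ᵥ* (comp P K - Matrix.scalar (Fin (N + 1)) t) =
      (Pi.single 0 (1 : K)) ᵥ* (comp P K ^ (a + 1)) -
        t ^ a • ((Pi.single 0 (1 : K)) ᵥ* comp P K) := by
  induction a with
  | zero =>
    rw [show (⟨0, ha⟩ : Fin (N + 1)) = 0 from rfl, Dm_row_zero]
    simp
  | succ a ih =>
    have h1 := ih (by omega)
    rw [Dm_row_succ, add_vecMul, smul_vecMul, h1]
    have h2 := comp_pow_row (K := K) P ⟨a + 1, ha⟩
    simp only at h2
    rw [← h2, vecMul_sub, comp_pow_row_scalar, vecMul_vecMul, ← pow_succ, smul_sub, smul_smul,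
      ← pow_succ']
    abel

theorem comp_Q_row (P : Par A N) (t : K) (k : Fin (N + 1)) :
    ((Pi.single 0 (1 : K)) ᵥ* (comp P K ^ (k : ℕ))) ᵥ*
      (comp P K - Dm N t * (comp P K - Matrix.scalar (Fin (N + 1)) t)) =
        t ^ (k : ℕ) • ((Pi.single 0 (1 : K)) ᵥ* comp P K) := by
  have h2 := comp_Dm_row P t k k.2
  rw [Fin.eta] at h2
  rw [vecMul_sub, vecMul_vecMul, ← pow_succ, comp_pow_row, ← vecMul_vecMul,
    single_vecMul_eq (Dm N t) k, h2]
  abel

theorem comp_key (P : Par A N) {t : K} (ht : t ^ (N + 1) = ∑ k : Fin (N + 1), P.c k • t ^ (k : ℕ)) :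
    (comp P K - Matrix.scalar (Fin (N + 1)) t) *
      (comp P K - Dm N t * (comp P K - Matrix.scalar (Fin (N + 1)) t)) = 0 := by
  set Q := comp P K - Dm N t * (comp P K - Matrix.scalar (Fin (N + 1)) t) with hQ
  have hQr : ∀ k : Fin (N + 1), ((Pi.single 0 (1 : K)) ᵥ* (comp P K ^ (k : ℕ))) ᵥ* Q =
      t ^ (k : ℕ) • ((Pi.single 0 (1 : K)) ᵥ* comp P K) := fun k => comp_Q_row P t k
  clear_value Q
  have hrow : ∀ i : Fin (N + 1), (Pi.single i (1 : K)) ᵥ*
      ((comp P K - Matrix.scalar (Fin (N + 1)) t) * Q) = 0 := by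
    intro i
    rw [← vecMul_vecMul, vecMul_sub, ← comp_pow_row P i, comp_pow_row_scalar, vecMul_vecMul,
      ← pow_succ, sub_vecMul, smul_vecMul, hQr, smul_smul, ← pow_succ']
    refine Fin.lastCases ?_ (fun i => ?_) i
    · rw [Fin.val_last, comp_pol, vecMul_sum, sum_vecMul, ht, Finset.sum_smul, sub_eq_zero]
      refine Finset.sum_congr rfl fun k _ => ?_
      rw [vecMul_smul, smul_vecMul, hQr, smul_assoc]
    · have := hQr i.succ
      rw [Fin.val_succ] at this
      rw [Fin.val_castSucc, this, sub_self]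
  ext i j
  have := hrow i
  rw [single_vecMul_eq] at this
  rw [this]
  simp

end Pool.Agent.Lib.H10BMM
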