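import Pool.Agent.Lib.H10BMM.Refl

/-!
# Statement-level definitions: braid group, generic Hecke algebra, BMM trace for `G(de,e,n)`
-/

namespace Pool.Agent.Lib.H10BMM

open scoped BigOperators

/-- The generators of the free group on `Fin n` (`1` for `i ≥ n`). -/
def fr (n i : ℕ) : FreeGroup (Fin n) := if h : i < n then FreeGroup.of ⟨i, h⟩ else 1

/-- The relations of type `B_n`; for `d = 1` also `t_0 ^ e = 1`. -/
inductive BrRel (d e n : ℕ) : FreeGroup (Fin n) → Prop
  | br4 (h : 1 < n) : BrRel d e n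
      (fr n 0 * fr n 1 * fr n 0 * fr n 1 * (fr n 1 * fr n 0 * fr n 1 * fr n 0)⁻¹)
  | br3 (i : ℕ) (h0 : 0 < i) (h : i + 1 < n) : BrRel d e n
      (fr n i * fr n (i + 1) * fr n i * (fr n (i + 1) * fr n i * fr n (i + 1))⁻¹)
  | comm (i j : ℕ) (h0 : i + 1 < j) (h : j < n) : BrRel d e n
      (fr n i * fr n j * (fr n j * fr n i)⁻¹)
  | ord (h : 0 < n) (hd : d = 1) : BrRel d e n (fr n 0 ^ e)

/-- For `d ≥ 2` the braid group of type `B_n`, which is the braid group of `G(m,1,n)`, `m ≥ 2`;
for `d = 1` its quotient by `t_0 ^ e`. -/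
def Gam (d e n : ℕ) : Type := PresentedGroup {r | BrRel d e n r}

instance instGam (d e n : ℕ) : Group (Gam d e n) :=
  instGroupPresentedGroup {r | BrRel d e n r}

/-- The quotient map from the free group. -/
def mkGam (d e n : ℕ) : FreeGroup (Fin n) →* Gam d e n := PresentedGroup.mk {r | BrRel d e n r}

/-- The generators `t_0, …, t_{n-1}`. -/
def tg (d e n i : ℕ) : Gam d e n := mkGam d e n (fr n i)

section group

variable (d e n : ℕ)

theorem tg_rel {x y : FreeGroup (Fin n)} (h : BrRel d e n (x * y⁻¹)) :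
    mkGam d e n x = mkGam d e n y := by
  have h1 : mkGam d e n (x * y⁻¹) = 1 := PresentedGroup.one_of_mem h
  rwa [map_mul, map_inv, mul_inv_eq_one] at h1

theorem tg_isBraid : IsBraid n (tg d e n) := by
  refine ⟨fun h => ?_, fun i h0 h => ?_, fun i j h0 h => ?_⟩
  · have h1 := tg_rel d e n (BrRel.br4 h)
    simp only [map_mul] at h1
    exact h1
  · have h1 := tg_rel d e n (BrRel.br3 i h0 h)
    simp only [map_mul] at h1
    exact h1
  · have h1 := tg_rel d e n (BrRel.comm i j h0 h)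
    simp only [map_mul] at h1
    exact h1

theorem tg_pow (h : 0 < n) (hd : d = 1) : tg d e n 0 ^ e = 1 := by
  have h1 : mkGam d e n (fr n 0 ^ e) = 1 := PresentedGroup.one_of_mem (BrRel.ord h hd)
  rwa [map_pow] at h1

variable {d e n}

theorem lift_fr {G : Type*} [Group G] {t : ℕ → G} {i : ℕ} (h : i < n) :
    FreeGroup.lift (fun i : Fin n => t i) (fr n i) = t i := by
  rw [fr, dif_pos h, FreeGroup.lift_apply_of]

theorem lift_rel {G : Type*} [Group G] {t : ℕ → G} (h : IsBraid n t)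
    (hd : 0 < n → d = 1 → t 0 ^ e = 1) (r : FreeGroup (Fin n)) (hr : BrRel d e n r) :
    FreeGroup.lift (fun i : Fin n => t i) r = 1 := by
  induction hr with
  | br4 h1 =>
    rw [map_mul, map_inv, mul_inv_eq_one]
    simp only [map_mul, lift_fr h1, lift_fr (show 0 < n by omega)]
    exact h.br4 h1
  | br3 i h0 h1 =>
    rw [map_mul, map_inv, mul_inv_eq_one]
    simp only [map_mul, lift_fr h1, lift_fr (show i < n by omega)]
    exact h.br3 i h0 h1
  | comm i j h0 h1 =>
    rw [map_mul, map_inv, mul_inv_eq_one]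
    simp only [map_mul, lift_fr h1, lift_fr (show i < n by omega)]
    exact h.comm i j h0 h1
  | ord h0 h1 =>
    rw [map_pow, lift_fr h0]
    exact hd h0 h1

/-- The universal property. -/
def liftG {G : Type*} [Group G] {t : ℕ → G} (h : IsBraid n t)
    (hd : 0 < n → d = 1 → t 0 ^ e = 1) : Gam d e n →* G :=
  PresentedGroup.toGroup (f := fun i : Fin n => t i) (lift_rel h hd)

theorem liftG_tg {G : Type*} [Group G] {t : ℕ → G} (h : IsBraid n t)
    (hd : 0 < n → d = 1 → t 0 ^ e = 1) {i : ℕ} (hi : i < n) :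
    liftG h hd (tg d e n i) = t i := by
  rw [tg, fr, dif_pos hi]
  exact PresentedGroup.toGroup.of _

/-- Induction over the group. -/
theorem Gam_closure : Subgroup.closure {x | ∃ i, i < n ∧ x = tg d e n i} = ⊤ := by
  have h0 : Subgroup.closure (Set.range (PresentedGroup.of : Fin n → Gam d e n)) = ⊤ :=
    PresentedGroup.closure_range_of {r | BrRel d e n r}
  refine eq_top_iff.mpr (h0.ge.trans ((Subgroup.closure_le _).mpr ?_))
  rintro _ ⟨i, rfl⟩
  refine Subgroup.subset_closure ⟨i, i.2, ?_⟩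
  rw [tg, fr, dif_pos i.2]
  rfl

/-- Homomorphisms out of the group are determined on the generators. -/
theorem Gam_ext {G : Type*} [Group G] {f g : Gam d e n →* G}
    (h : ∀ i, i < n → f (tg d e n i) = g (tg d e n i)) : f = g := by
  refine MonoidHom.eq_of_eqOn_dense Gam_closure ?_
  rintro _ ⟨i, hi, rfl⟩
  exact h i hi

end group

section statement

/-- `ζ_m = exp (2 π i / m)` for `m = d e`. -/
noncomputable def zt (d e : ℕ) : ℂˣ :=
  Units.mk0 (Complex.exp (2 * Real.pi * Complex.I / ((d * e : ℕ) : ℂ))) (Complex.exp_ne_zero _)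

theorem zt_prim {d e : ℕ} (hde : 0 < d * e) : IsPrimitiveRoot (zt d e : ℂ) (d * e) :=
  Complex.isPrimitiveRoot_exp _ (by omega)

theorem zt_pow (d e : ℕ) : (zt d e : ℂ) ^ (d * e) = 1 := by
  rcases Nat.eq_zero_or_pos (d * e) with h | h
  · rw [h, pow_zero]
  · exact (zt_prim h).pow_eq_one

theorem dg_pow (n : ℕ) (ζ : ℂˣ) (k : ℕ) (j : Fin n) :
    (dg n ζ ^ k) (ev j) = (if (j : ℕ) = 0 then (ζ : ℂ) else 1) ^ k • ev j := by
  induction k with
  | zero => simp
  | succ k ih => rw [pow_succ', LinearEquiv.mul_apply, ih, map_smul, dg_ev, smul_smul, ← pow_succ]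

theorem sr_pow_e (d e n : ℕ) (hn : 0 < n) (h1 : d = 1) : sr n (zt d e) 0 ^ e = 1 := by
  rw [sr_zero _ hn]
  apply GLn_ext
  intro j
  have h2 := zt_pow d e
  rw [h1, one_mul] at h2
  rw [dg_pow]
  split_ifs
  · rw [h1, h2, one_smul]; rfl
  · rw [one_pow, one_smul]; rfl

/-- The natural projection to `GL_n(ℂ)`: `t_0 ↦ diag(ζ_{de},1,…,1)`, `t_i ↦` the permutation matrix
of the transposition `(i-1 i)`. Its image is `G(de,1,n)`. -/
noncomputable def proj (d e n : ℕ) : Gam d e n →* GLn n :=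
  liftG (sr_isBraid n (zt d e)) (sr_pow_e d e n)

theorem proj_tg {d e n i : ℕ} (hi : i < n) : proj d e n (tg d e n i) = sr n (zt d e) i :=
  liftG_tg _ _ hi

/-- The braid group of `W = G(de,e,n)`: the preimage of `W` in `Gam d e n`. -/
noncomputable def BW (d e n : ℕ) : Subgroup (Gam d e n) := (Gg d e n).comap (proj d e n)

theorem mem_BW {d e n : ℕ} {x : Gam d e n} : x ∈ BW d e n ↔ proj d e n x ∈ Gg d e n := Iff.rfl

theorem Lprod_ev {n : ℕ} (ζ : ℂˣ) {m : ℕ} (hm : m ≤ n) (j : Fin n) :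
    Lprod (sr n ζ) m (ev j) = (if (j : ℕ) < m then (ζ : ℂ) else 1) • ev j := by
  induction m with
  | zero => simp [Lprod]
  | succ m ih =>
    rw [Lprod, LinearEquiv.mul_apply, L_ev ζ (by omega), map_smul, ih (by omega), smul_smul]
    congr 1
    rcases lt_trichotomy (j : ℕ) m with h | h | h
    · rw [if_neg (by omega), if_pos h, if_pos (by omega), one_mul]
    · rw [if_pos h, if_neg (by omega), if_pos (by omega), mul_one]
    · rw [if_neg (by omega), if_neg (by omega), if_neg (by omega), mul_one]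

theorem proj_pi (d e n : ℕ) :
    proj d e n (cox (tg d e n) n ^ (n * (d * e))) = 1 := by
  rw [pow_mul, (tg_isBraid d e n).cox_pow le_rfl, map_pow,
    map_Lprod (proj d e n) (fun i hi => proj_tg hi)]
  have h : ∀ (k : ℕ) (j : Fin n), (Lprod (sr n (zt d e)) n ^ k) (ev j) =
      (zt d e : ℂ) ^ k • ev j := by
    intro k j
    induction k with
    | zero => simp
    | succ k ih =>
      rw [pow_succ', LinearEquiv.mul_apply, ih, map_smul, Lprod_ev _ le_rfl, if_pos j.2,
        smul_smul, ← pow_succ]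
  apply GLn_ext
  intro j
  rw [h, zt_pow, one_smul]
  rfl

theorem pi_mem (d e n : ℕ) : cox (tg d e n) n ^ (n * (d * e)) ∈ BW d e n := by
  rw [mem_BW, proj_pi]; exact Subgroup.one_mem _

/-- The full twist `π = (t_0 t_1 ⋯ t_{n-1}) ^ (n d e)`. -/
noncomputable def piB (d e n : ℕ) : BW d e n := ⟨cox (tg d e n) n ^ (n * (d * e)), pi_mem d e n⟩

variable {A : Type*} [CommRing A]

open Polynomial in
/-- The relations of the Hecke algebra of `G(de,e,n)`: for every conjugate `x` of `t_0 ^ e`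
(if `d ≠ 1`), `∏_j (x - u_j) = 0`, and for every conjugate `x` of `t_i`, `0 < i < n`,
`(x - v_0) (x - v_1) = 0`. -/
inductive HRel (d e n : ℕ) (u : Fin d → Aˣ) (v : Fin 2 → Aˣ) :
    MonoidAlgebra A (BW d e n) → MonoidAlgebra A (BW d e n) → Prop
  | c0 (x : BW d e n) (g : Gam d e n) (hx : (x : Gam d e n) = g * tg d e n 0 ^ e * g⁻¹)
      (hn : 0 < n) (hd : d ≠ 1) : HRel d e n u v
      (aeval (MonoidAlgebra.of A (BW d e n) x) (∏ j : Fin d, (Polynomial.X - C ((u j : Aˣ) : A)))) 0
  | c1 (x : BW d e n) (g : Gam d e n) (i : ℕ) (h0 : 0 < i) (hi : i < n)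
      (hx : (x : Gam d e n) = g * tg d e n i * g⁻¹) : HRel d e n u v
      (aeval (MonoidAlgebra.of A (BW d e n) x)
        ((Polynomial.X - C ((v 0 : Aˣ) : A)) * (Polynomial.X - C ((v 1 : Aˣ) : A)))) 0

/-- The Hecke algebra of `G(de,e,n)` over `A`. -/
def HW (d e n : ℕ) (u : Fin d → Aˣ) (v : Fin 2 → Aˣ) : Type _ := RingQuot (HRel d e n u v)

section HW

variable (d e n : ℕ) (u : Fin d → Aˣ) (v : Fin 2 → Aˣ)

noncomputable instance : Ring (HW d e n u v) := inferInstanceAs (Ring (RingQuot (HRel d e n u v)))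

noncomputable instance : Algebra A (HW d e n u v) :=
  inferInstanceAs (Algebra A (RingQuot (HRel d e n u v)))

/-- The quotient map. -/
noncomputable def mkW : MonoidAlgebra A (BW d e n) →ₐ[A] HW d e n u v :=
  RingQuot.mkAlgHom A (HRel d e n u v)

/-- The natural map `β ↦ T_β`. -/
noncomputable def TT : BW d e n →* HW d e n u v :=
  (mkW d e n u v : MonoidAlgebra A (BW d e n) →* HW d e n u v).comp (MonoidAlgebra.of A (BW d e n))

end HW

end statement

end Pool.Agent.Lib.H10BMM
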