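import Pool.Agent.Lib.H10BMM.Rep

/-!
# The conditional expectations `E : H P (n+1) → H P n`
-/

namespace Pool.Agent.Lib.H10BMM

open Matrix
open scoped BigOperators

universe u v

section
variable {L : Type v} [Ring L] {m : ℕ}
variable {A : Type u} [CommRing A] [Algebra A L] (a b : A) (D s : L)
theorem tbt_00 (x : L) (Ξ : Matrix (Fin (m+1)) (Fin (m+1)) L) :
    (tM (m := m) a b D s * bd x Ξ * tM (m := m) a b D s : Matrix (Fin (m + 2)) (Fin (m + 2)) L) 0 0 =
      (a * a) • (D * x * D) + Ξ 0 0 * (b • 1 + (a * a) • (D - D * D)) := by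
  rw [mul_assoc]
  simp [Matrix.mul_apply, Fin.sum_univ_succ, -Fin.succ_zero_eq_one,
        -Fin.succ_zero_eq_one', -Fin.succ_one_eq_two, -Fin.succ_one_eq_two', smul_smul, mul_assoc]
theorem tbt_01 (x : L) (Ξ : Matrix (Fin (m+1)) (Fin (m+1)) L) :
    (tM (m := m) a b D s * bd x Ξ * tM (m := m) a b D s : Matrix (Fin (m + 2)) (Fin (m + 2)) L) 0 (Fin.succ 0) =
      a • (D * x) + Ξ 0 0 * (a • (1 - D)) := by
  rw [mul_assoc]
  simp [Matrix.mul_apply, Fin.sum_univ_succ, -Fin.succ_zero_eq_one,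
        -Fin.succ_zero_eq_one', -Fin.succ_one_eq_two, -Fin.succ_one_eq_two', smul_smul, mul_assoc]
theorem tbt_0ss (x : L) (Ξ : Matrix (Fin (m+1)) (Fin (m+1)) L) (j : Fin m) :
    (tM (m := m) a b D s * bd x Ξ * tM (m := m) a b D s : Matrix (Fin (m + 2)) (Fin (m + 2)) L) 0 j.succ.succ = Ξ 0 j.succ * s := by
  rw [mul_assoc]
  simp [Matrix.mul_apply, Fin.sum_univ_succ, -Fin.succ_zero_eq_one,
        -Fin.succ_zero_eq_one', -Fin.succ_one_eq_two, -Fin.succ_one_eq_two', smul_smul, mul_assoc]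
end

variable {A : Type u} [CommRing A] {N : ℕ} {K : Type v} [Ring K] [Algebra A K]

theorem Dm_scalar_row (x : K) (k : Fin N) :
    (Dm N x * Matrix.scalar (Fin (N+1)) x) k.castSucc = Dm N x k.succ - Pi.single k.succ 1 := by
  have h := Dm_row_succ (N := N) x k (by have := k.2; omega)
  rw [show (⟨(k : ℕ) + 1, _⟩ : Fin (N + 1)) = k.succ from rfl] at h
  rw [h, Dm_comm x x rfl, add_sub_cancel_right, Matrix.mul_apply_eq_vecMul]
  funext j
  simp [vecMul, dotProduct, Matrix.scalar_apply, Matrix.diagonal_apply]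
  rfl

theorem xrow_calc (a b : A) (x : K) (Ξ : LM N K) (k : Fin N)
    (h : Ξ k.castSucc = Pi.single k.succ 1) :
    ((a * a) • (Dm N x * Matrix.scalar (Fin (N+1)) x * Dm N x) + 
      Ξ * (b • 1 + (a * a) • (Dm N x - Dm N x * Dm N x))) k.castSucc = 
        b • (Pi.single k.succ 1 : Fin (N+1) → K) := by
  have e1 : (Dm N x * Matrix.scalar (Fin (N+1)) x * Dm N x) k.castSucc =
    (Dm N x * Dm N x) k.succ - Dm N x k.succ := by
    rw [Matrix.mul_apply_eq_vecMul, Dm_scalar_row, sub_vecMul, single_vecMul_eq]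
    rfl
  have e2 : (Ξ * (b • 1 + (a * a) • (Dm N x - Dm N x * Dm N x))) k.castSucc =
    b • (Pi.single k.succ 1 : Fin (N+1) → K) + (a * a) • (Dm N x k.succ - (Dm N x * Dm N x) k.succ) := by
    rw [Matrix.mul_apply_eq_vecMul, h, single_vecMul_eq]
    funext j
    simp [Matrix.one_apply, Pi.single_apply, eq_comm]
  funext j
  have e1' := congrFun e1 j
  have e2' := congrFun e2 j
  rw [Matrix.add_apply, Matrix.smul_apply, e1', e2']
  simp only [Pi.sub_apply, Pi.add_apply, Pi.smul_apply]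
  module

theorem xrow_calc2 (a : A) (x : K) (Ξ : LM N K) (k : Fin N)
    (h : Ξ k.castSucc = Pi.single k.succ 1) :
    (a • (Dm N x * Matrix.scalar (Fin (N+1)) x) + Ξ * (a • (1 - Dm N x))) k.castSucc = 0 := by
  have e2 : (Ξ * (a • (1 - Dm N x))) k.castSucc =
    a • ((Pi.single k.succ 1 : Fin (N+1) → K) - Dm N x k.succ) := by
    rw [Matrix.mul_apply_eq_vecMul, h, single_vecMul_eq]
    funext j
    simp [Matrix.one_apply, Pi.single_apply, eq_comm]
  funext j
  have e1' := congrFun (Dm_scalar_row x k) j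
  have e2' := congrFun e2 j
  rw [Matrix.add_apply, Matrix.smul_apply, e1', e2']
  simp only [Pi.sub_apply, Pi.smul_apply, Pi.zero_apply]
  module

variable (P : Par A N)

/-- The conditional expectation: the coefficient of `1`. -/
noncomputable def E (n : ℕ) : H P (n + 1) →ₗ[A] H P n where
  toFun h := Phi P n h 0 0 0 0
  map_add' x y := by simp
  map_smul' r x := by simp

theorem E_apply (n : ℕ) (h : H P (n + 1)) : E P n h = Phi P n h 0 0 0 0 := rfl

theorem Phi_incl_mul_zero (n : ℕ) (g : H P n) (h : H P (n + 1)) (j : Fin (n + 1)) :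
    Phi P n (incl P n g * h) 0 j = sc P n g * Phi P n h 0 j := by
  rw [map_mul, Matrix.mul_apply, Fin.sum_univ_succ, Phi_incl_zero_zero]
  simp [Phi_incl_zero_succ]

theorem Phi_mul_incl_zero (n : ℕ) (g : H P n) (h : H P (n + 1)) (j : Fin (n + 1)) :
    Phi P n (h * incl P n g) j 0 = Phi P n h j 0 * sc P n g := by
  rw [map_mul, Matrix.mul_apply, Fin.sum_univ_succ, Phi_incl_zero_zero]
  simp [Phi_incl_succ_zero]

theorem E_left (n : ℕ) (g : H P n) (h : H P (n + 1)) :
    E P n (incl P n g * h) = g * E P n h := by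
  rw [E_apply, Phi_incl_mul_zero]
  simp [E_apply]

theorem E_right (n : ℕ) (g : H P n) (h : H P (n + 1)) :
    E P n (h * incl P n g) = E P n h * g := by
  rw [E_apply, Phi_mul_incl_zero]
  simp [E_apply]

@[simp] theorem E_one (n : ℕ) : E P n 1 = 1 := by
  simp [E_apply]

theorem E_incl (n : ℕ) (g : H P n) : E P n (incl P n g) = g := by
  have := E_left P n g 1
  rwa [mul_one, E_one, mul_one] at this

theorem incl_injective (n : ℕ) : Function.Injective (incl P n) :=
  Function.LeftInverse.injective (E_incl P n)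

/-- Row `k < N`, level `0`, of the matrix of the top Jucys-Murphy element. -/
theorem Phi_X_row (n : ℕ) (k : Fin N) :
    Phi P n (xx P (n + 1) n) 0 0 k.castSucc = Pi.single k.succ 1 ∧
      ∀ j : Fin n, Phi P n (xx P (n + 1) n) 0 j.succ k.castSucc = 0 := by
  induction n with
  | zero =>
    refine ⟨?_, fun j => j.elim0⟩
    rw [show xx P (0 + 1) 0 = T P 1 0 from rfl, Phi_T P 0 (by omega), G_zero]
    exact comp_castSucc P k
  | succ n ih =>
    obtain ⟨ih0, ih1⟩ := ih
    set x := xx P (n + 1) n with hx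
    set D := Dm N x with hD
    set s := sc P (n + 1) (T P (n + 1) n) with hs
    have hX : xx P (n + 1 + 1) (n + 1) = ((P.b⁻¹ : Aˣ) : A) •
        (T P (n + 2) (n + 1) * incl P (n + 1) x * T P (n + 2) (n + 1)) := by
      rw [hx, show incl P (n + 1) (xx P (n + 1) n) = xx P (n + 2) n from incl_X P (by omega)]
      rfl
    have hPhi : Phi P (n + 1) (xx P (n + 1 + 1) (n + 1)) = ((P.b⁻¹ : Aˣ) : A) •
        (tM P.a (P.b : A) D s * bd (sc P (n + 1) x) (up P n (n + 1) (Phi P n x)) *
          tM P.a (P.b : A) D s) := by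
      rw [hX, map_smul, map_mul, map_mul, Phi_incl_succ, Phi_T P (n + 1) (by omega), G_top]
    have hxx : (sc P (n + 1) x : LM N (H P (n + 1))) = Matrix.scalar (Fin (N + 1)) x := rfl
    have hrow : (up P n (n + 1) (Phi P n x)) 0 0 k.castSucc = Pi.single k.succ 1 := by
      funext j
      have := congrFun ih0 j
      simp only [up, AlgHom.mapMatrix_apply, Matrix.map_apply, this]
      rw [Pi.single_apply, Pi.single_apply, apply_ite (incl P n), map_one, map_zero]
    have hrow' : ∀ j : Fin n, (up P n (n + 1) (Phi P n x)) 0 j.succ k.castSucc = 0 := by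
      intro j
      funext j'
      have := congrFun (ih1 j) j'
      simp only [up, AlgHom.mapMatrix_apply, Matrix.map_apply, this]
      simp
    refine ⟨?_, ?_⟩
    · rw [hPhi, Matrix.smul_apply, tbt_00, hxx]
      have := xrow_calc P.a (P.b : A) x ((up P n (n + 1) (Phi P n x)) 0 0) k hrow
      funext j
      have h2 := congrFun this j
      rw [Matrix.smul_apply, h2, Pi.smul_apply, smul_smul, Units.inv_mul, one_smul]
    · intro j
      refine Fin.cases ?_ (fun j => ?_) j
      · rw [hPhi, Matrix.smul_apply, tbt_01, hxx]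
        have := xrow_calc2 P.a x ((up P n (n + 1) (Phi P n x)) 0 0) k hrow
        funext j
        have h2 := congrFun this j
        rw [Matrix.smul_apply, h2]
        simp
      · rw [hPhi, Matrix.smul_apply, tbt_0ss]
        funext j'
        rw [Matrix.smul_apply, Matrix.mul_apply_eq_vecMul, hrow' j]
        simp

/-- Coordinates of `h` in the basis `yy`. -/
noncomputable def coord (n : ℕ) (h : H P (n + 1)) (j : Fin (n + 1)) (k : Fin (N + 1)) : H P n :=
  Phi P n h 0 j 0 k

theorem coord_apply (n : ℕ) (h : H P (n + 1)) (j : Fin (n + 1)) (k : Fin (N + 1)) :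
    coord P n h j k = Phi P n h 0 j 0 k := rfl

theorem coord_zero_zero (n : ℕ) (h : H P (n + 1)) : coord P n h 0 0 = E P n h := rfl

theorem coord_mul (n : ℕ) (h h' : H P (n + 1)) (j : Fin (n + 1)) (k : Fin (N + 1)) :
    coord P n (h * h') j k =
      ∑ j' : Fin (n + 1), ∑ k' : Fin (N + 1), coord P n h j' k' * Phi P n h' j' j k' k := by
  rw [coord_apply, map_mul, Matrix.mul_apply, Matrix.sum_apply]
  refine Finset.sum_congr rfl fun j' _ => ?_
  rw [Matrix.mul_apply]
  rfl

/-- The left `H P n`-basis of `H P (n+1)`. -/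
noncomputable def yy : (n : ℕ) → Fin (n + 1) → Fin (N + 1) → H P (n + 1)
  | 0 => fun _ k => T P 1 0 ^ (k : ℕ)
  | (n + 1) => fun j k => Fin.cases (xx P (n + 2) (n + 1) ^ (k : ℕ))
      (fun j' => T P (n + 2) (n + 1) * incl P (n + 1) (yy n j' k)) j

theorem yy_zero (n : ℕ) (k : Fin (N + 1)) : yy P n 0 k = xx P (n + 1) n ^ (k : ℕ) := by
  cases n <;> rfl

theorem yy_succ (n : ℕ) (j : Fin (n + 1)) (k : Fin (N + 1)) :
    yy P (n + 1) j.succ k = T P (n + 2) (n + 1) * incl P (n + 1) (yy P n j k) := rfl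

theorem coord_one (n : ℕ) (j : Fin (n + 1)) (k : Fin (N + 1)) :
    coord P n 1 j k = if j = 0 ∧ k = 0 then 1 else 0 := by
  rw [coord_apply, map_one, Matrix.one_apply]
  by_cases h : j = 0
  · rw [if_pos h.symm, Matrix.one_apply]
    simp [h, eq_comm]
  · rw [if_neg (Ne.symm h), if_neg (by tauto)]
    rfl

theorem coord_mul_of (n : ℕ) (h h' : H P (n + 1)) (j0 : Fin (n + 1)) (k0 : Fin (N + 1))
    (hc : ∀ j k, coord P n h j k = if j = j0 ∧ k = k0 then 1 else 0)
    (j : Fin (n + 1)) (k : Fin (N + 1)) :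
    coord P n (h * h') j k = Phi P n h' j0 j k0 k := by
  rw [coord_mul, Finset.sum_eq_single j0, Finset.sum_eq_single k0]
  · rw [hc, if_pos ⟨rfl, rfl⟩, one_mul]
  · intro b _ hb
    rw [hc, if_neg (fun h => hb h.2), zero_mul]
  · intro h; exact absurd (Finset.mem_univ _) h
  · intro b _ hb
    refine Finset.sum_eq_zero fun c _ => ?_
    rw [hc, if_neg (fun h => hb h.1), zero_mul]
  · intro h; exact absurd (Finset.mem_univ _) h

theorem coord_X_pow_aux (n k : ℕ) (hk : k < N + 1) (j : Fin (n + 1)) (k' : Fin (N + 1)) :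
    coord P n (xx P (n + 1) n ^ k) j k' = if j = 0 ∧ k' = ⟨k, hk⟩ then 1 else 0 := by
  induction k generalizing j k' with
  | zero => rw [pow_zero]; exact coord_one P n j k'
  | succ k ih =>
    rw [pow_succ, coord_mul_of P n _ _ 0 ⟨k, by omega⟩ (ih (by omega))]
    obtain ⟨r0, r1⟩ := Phi_X_row P n ⟨k, by omega⟩
    refine Fin.cases ?_ (fun j => ?_) j
    · have := congrFun r0 k'
      rw [show (⟨k, _⟩ : Fin N).castSucc = (⟨k, by omega⟩ : Fin (N + 1)) from rfl] at this
      rw [this, Pi.single_apply]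
      simp [Fin.succ]
    · have := congrFun (r1 j) k'
      rw [show (⟨k, _⟩ : Fin N).castSucc = (⟨k, by omega⟩ : Fin (N + 1)) from rfl] at this
      rw [this, if_neg (fun h => Fin.succ_ne_zero _ h.1)]
      rfl

theorem coord_X_pow (n : ℕ) (k : Fin (N + 1)) (j : Fin (n + 1)) (k' : Fin (N + 1)) :
    coord P n (xx P (n + 1) n ^ (k : ℕ)) j k' = if j = 0 ∧ k' = k then 1 else 0 :=
  coord_X_pow_aux P n k k.2 j k'

theorem coord_T (n : ℕ) (j : Fin (n + 2)) (k : Fin (N + 1)) :
    coord P (n + 1) (T P (n + 2) (n + 1)) j k = if j = Fin.succ 0 ∧ k = 0 then 1 else 0 := by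
  rw [coord_apply, Phi_T P (n + 1) (by omega), G_top]
  refine Fin.cases ?_ (fun j => Fin.cases ?_ (fun j => ?_) j) j
  · rw [tM_00, Matrix.smul_apply, Dm_row_zero, if_neg (fun h => Fin.succ_ne_zero _ h.1.symm)]
    simp
  · rw [tM_01', Matrix.one_apply]
    simp [eq_comm]
  · rw [tM_0j, if_neg (fun h => Fin.succ_ne_zero _ (Fin.succ_injective _ h.1))]
    rfl

/-- The coordinates of the basis elements. -/
theorem coord_yy (n : ℕ) (j : Fin (n + 1)) (k : Fin (N + 1)) (j' : Fin (n + 1))
    (k' : Fin (N + 1)) :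
    coord P n (yy P n j k) j' k' = if j' = j ∧ k' = k then 1 else 0 := by
  induction n with
  | zero =>
    obtain rfl : j = 0 := Fin.fin_one_eq_zero j
    rw [yy_zero]
    exact coord_X_pow P 0 k j' k'
  | succ n ih =>
    refine Fin.cases ?_ (fun j => ?_) j
    · rw [yy_zero]
      exact coord_X_pow P (n + 1) k j' k'
    · rw [yy_succ, coord_mul_of P (n + 1) _ _ _ _ (coord_T P n), Phi_incl_succ]
      refine Fin.cases ?_ (fun j' => ?_) j'
      · rw [bd_succ_zero, if_neg (fun h => Fin.succ_ne_zero _ h.1.symm)]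
        rfl
      · rw [bd_succ_succ]
        have := ih j j'
        simp only [up, AlgHom.mapMatrix_apply, Matrix.map_apply]
        rw [← coord_apply, this, apply_ite (incl P n), map_one, map_zero]
        simp

theorem E_mul (n : ℕ) (h h' : H P (n + 1)) : E P n (h * h') =
    ∑ j' : Fin (n + 1), ∑ k' : Fin (N + 1), coord P n h j' k' * Phi P n h' j' 0 k' 0 := by
  rw [← coord_zero_zero, coord_mul]

theorem E_yy (n : ℕ) (j : Fin (n + 1)) (k : Fin (N + 1)) :
    E P n (yy P n j k) = if j = 0 ∧ k = 0 then 1 else 0 := by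
  rw [← coord_zero_zero, coord_yy]
  simp [eq_comm]

theorem E_X_pow (n k : ℕ) (hk : k < N + 1) :
    E P n (xx P (n + 1) n ^ k) = if k = 0 then 1 else 0 := by
  rw [← coord_zero_zero, coord_X_pow_aux P n k hk]
  refine if_congr ?_ rfl rfl
  rw [Fin.ext_iff]
  simp [eq_comm]

theorem E_T (n : ℕ) : E P (n + 1) (T P (n + 2) (n + 1)) = 0 := by
  rw [← coord_zero_zero, coord_T, if_neg (fun h => Fin.succ_ne_zero _ h.1.symm)]

theorem Dm_col_zero {K : Type v} [Ring K] [Algebra A K] (t : K) (i : Fin (N + 1)) :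
    Dm N t i 0 = 0 := by
  rw [Dm_apply, if_neg]
  simp only [Fin.val_zero]; omega

theorem B_col_zero {K : Type v} [Ring K] [Algebra A K] (a b : A) (t : K) (M : LM N K)
    (i : Fin (N + 1)) :
    (M * (b • 1 + (a * a) • (Dm N t - Dm N t * Dm N t))) i 0 = b • M i 0 := by
  rw [Matrix.mul_apply, Finset.sum_eq_single 0]
  · rw [Matrix.add_apply, Matrix.smul_apply, Matrix.smul_apply, Matrix.sub_apply,
      Matrix.mul_apply, Dm_col_zero (A := A), Matrix.one_apply, if_pos rfl]
    simp [Dm_col_zero (A := A)]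
  · intro k _ hk
    rw [Matrix.add_apply, Matrix.smul_apply, Matrix.smul_apply, Matrix.sub_apply,
      Matrix.mul_apply, Dm_col_zero (A := A), Matrix.one_apply, if_neg hk]
    simp [Dm_col_zero (A := A)]
  · intro h; exact absurd (Finset.mem_univ _) h

/-- `E (T g T) = b E(g)`. -/
theorem E_TgT (n : ℕ) (g : H P (n + 1)) :
    E P (n + 1) (T P (n + 2) (n + 1) * incl P (n + 1) g * T P (n + 2) (n + 1)) =
      (P.b : A) • incl P n (E P n g) := by
  rw [mul_assoc, ← coord_zero_zero, coord_mul_of P (n + 1) _ _ _ _ (coord_T P n), map_mul,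
    Phi_incl_succ, Phi_T P (n + 1) (by omega), G_top, Matrix.mul_apply, Fin.sum_univ_succ,
    Fin.sum_univ_succ]
  simp only [bd_succ_zero, bd_succ_succ, zero_mul, tM_i0, mul_zero, Finset.sum_const_zero,
    add_zero, zero_add, tM_10']
  rw [B_col_zero]
  rfl

theorem E_T_Xpow (n m : ℕ) (hm : m < N + 1) :
    E P (n + 1) (T P (n + 2) (n + 1) * xx P (n + 2) (n + 1) ^ m) = 0 := by
  have h := (T_isHecke P (n + 2)).T_mul_Xpow (k := n) (by omega) m
  rw [h, map_add, map_smul, map_sum,
    show X P (T P (n + 2)) n = incl P (n + 1) (xx P (n + 1) n) from (incl_X P (by omega)).symm,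
    ← map_pow, E_left, E_T, mul_zero, add_zero, Finset.sum_eq_zero, smul_zero]
  intro j hj
  rw [Finset.mem_range] at hj
  rw [← map_pow, E_left, E_X_pow P (n + 1) (m - j) (by omega), if_neg (by omega), mul_zero]

theorem E_Xpow_T (n m : ℕ) (hm : m < N + 1) :
    E P (n + 1) (xx P (n + 2) (n + 1) ^ m * T P (n + 2) (n + 1)) = 0 := by
  have h := (T_isHecke P (n + 2)).Xpow_mul_T (k := n) (by omega) m
  rw [h, map_add, map_smul, map_sum,
    show X P (T P (n + 2)) n = incl P (n + 1) (xx P (n + 1) n) from (incl_X P (by omega)).symm,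
    ← map_pow, E_right, E_T, zero_mul, add_zero, Finset.sum_eq_zero, smul_zero]
  intro j hj
  rw [Finset.mem_range] at hj
  rw [← map_pow, E_left, E_X_pow P (n + 1) (m - j) (by omega), if_neg (by omega), mul_zero]

/-- `E (X ^ (N+1)) = c 0`. -/
theorem E_X_top (n : ℕ) : E P n (xx P (n + 1) n ^ (N + 1)) = (P.c0 : A) • 1 := by
  induction n with
  | zero =>
    have h := (T_isHecke P 1).pol (by omega)
    rw [show xx P (0 + 1) 0 = T P 1 0 from rfl, h, map_sum, Finset.sum_eq_single 0]
    · rw [map_smul, Fin.val_zero, pow_zero, E_one, P.hc0]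
    · intro k _ hk
      rw [map_smul, show T P 1 0 = xx P (0 + 1) 0 from rfl, E_X_pow P 0 k k.2, if_neg, smul_zero]
      intro h
      exact hk (Fin.ext h)
    · intro h; exact absurd (Finset.mem_univ _) h
  | succ n ih =>
    have h := (T_isHecke P (n + 2)).T_mul_Xpow (k := n) (by omega) N
    have hx : X P (T P (n + 2)) n = incl P (n + 1) (xx P (n + 1) n) := (incl_X P (by omega)).symm
    have hc : ∀ j m : ℕ, xx P (n + 2) n ^ j * xx P (n + 2) (n + 1) ^ m =
        xx P (n + 2) (n + 1) ^ m * xx P (n + 2) n ^ j := fun j m =>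
      ((show Commute (xx P (n + 2) n) (xx P (n + 2) (n + 1)) from
        (T_isHecke P (n + 2)).X_X_comm (by omega) (by omega)).pow_pow j m).eq
    have e : xx P (n + 2) (n + 1) ^ (N + 1) = ((P.b⁻¹ : Aˣ) : A) •
        (P.a • ∑ j ∈ Finset.range N, T P (n + 2) (n + 1) * xx P (n + 2) (n + 1) ^ (N - j) *
            xx P (n + 2) n ^ (j + 1) +
          T P (n + 2) (n + 1) * incl P (n + 1) (xx P (n + 1) n ^ (N + 1)) *
            T P (n + 2) (n + 1)) := by
      rw [pow_succ', show xx P (n + 2) (n + 1) = ((P.b⁻¹ : Aˣ) : A) •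
        (T P (n + 2) (n + 1) * xx P (n + 2) n * T P (n + 2) (n + 1)) from rfl, smul_mul_assoc]
      congr 1
      rw [← show xx P (n + 2) (n + 1) = ((P.b⁻¹ : Aˣ) : A) •
        (T P (n + 2) (n + 1) * xx P (n + 2) n * T P (n + 2) (n + 1)) from rfl, mul_assoc, h,
        mul_add, mul_smul_comm, Finset.mul_sum]
      congr 1
      · congr 1
        refine Finset.sum_congr rfl fun j _ => ?_
        rw [mul_assoc, mul_assoc, ← hc, ← mul_assoc (xx P (n + 2) n), pow_succ']
      · rw [map_pow, ← hx, pow_succ']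
        simp only [mul_assoc]
    rw [e, map_smul, map_add, map_smul, map_sum, Finset.sum_eq_zero, smul_zero, zero_add, E_TgT, ih,
      map_smul, map_one, smul_smul, Units.inv_mul, one_smul]
    intro j hj
    rw [show xx P (n + 2) n = incl P (n + 1) (xx P (n + 1) n) from hx, ← map_pow, E_right,
      E_T_Xpow P n (N - j) (by omega), zero_mul]

end Pool.Agent.Lib.H10BMM
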