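import Pool.Agent.Lib.H10BMM.Ind2

/-!
# The BMM trace and the section for `G(de,e,n)`
-/

namespace Pool.Agent.Lib.H10BMM

open scoped BigOperators
open Polynomial

universe u'

variable {A : Type u'} [CommRing A]

open Classical in
/-- `τ` is the BMM trace of the Hecke algebra of `G(de,e,n)` over `A` with parameters `u`, `v`,
where `st` is the involution `x ↦ x^*` and `sp` the specialisation to `ℂ`. -/
structure IsBMM (d e n : ℕ) (u : Fin d → Aˣ) (v : Fin 2 → Aˣ) (st : A →+* A) (sp : A →+* ℂ)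
    (τ : HW d e n u v →ₗ[A] A) : Prop where
  trace : ∀ x y, τ (x * y) = τ (y * x)
  symm : Function.Bijective
    (fun x => (τ ∘ₗ LinearMap.mulLeft A x : HW d e n u v →ₗ[A] A))
  spec : ∀ β : BW d e n, sp (τ (TT d e n u v β)) = if proj d e n β = 1 then 1 else 0
  unit : IsUnit (τ (TT d e n u v (piB d e n)))
  star : ∀ β : BW d e n, st (τ (TT d e n u v β⁻¹)) * τ (TT d e n u v (piB d e n)) =
    τ (TT d e n u v (β * piB d e n))

section main

variable {d e n : ℕ} (hd : 0 < d) (he : 0 < e) (hn : 0 < n)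
  (u : Fin d → Aˣ) (v : Fin 2 → Aˣ) (hu1 : d = 1 → ∀ j, u j = 1)

/-- The trace. -/
noncomputable def tauW : HW d e n u v →ₗ[A] A :=
  tau (parOf he u v) n ∘ₗ (phi hd he u v hu1).toLinearMap

theorem tauW_apply (x : HW d e n u v) :
    tauW hd he u v hu1 x = tau (parOf he u v) n (phi hd he u v hu1 x) := rfl

theorem tauW_comm (x y : HW d e n u v) :
    tauW hd he u v hu1 (x * y) = tauW hd he u v hu1 (y * x) := by
  rw [tauW_apply, tauW_apply, map_mul (phi hd he u v hu1), map_mul (phi hd he u v hu1), tau_comm]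

include hn in
theorem tauW_bijective : Function.Bijective
    (fun x => (tauW hd he u v hu1 ∘ₗ LinearMap.mulLeft A x : HW d e n u v →ₗ[A] A)) := by
  constructor
  · intro x y hxy
    have key : ∀ z : HW d e n u v, (∀ y, tauW hd he u v hu1 (z * y) = 0) → z = 0 := by
      intro z hz
      have h1 : phi hd he u v hu1 z = 0 := by
        apply (tauDual_bijective (parOf he u v) n).1
        rw [map_zero]
        refine LinearMap.ext fun h => ?_
        rw [tauDual_apply, ← tau_chW hd he hn u v hu1, chW_phi_mul]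
        exact hz _
      rw [← chW_phi hd he hn u v hu1 z, h1, map_zero]
    rw [← sub_eq_zero]
    refine key _ fun w => ?_
    have h2 := LinearMap.congr_fun hxy w
    simp only [LinearMap.comp_apply, LinearMap.mulLeft_apply] at h2
    rw [sub_mul, map_sub, h2, sub_self]
  · intro l
    obtain ⟨z, hz⟩ := tau_surj (parOf he u v) n (l ∘ₗ chW hd he hn u v hu1)
    refine ⟨chW hd he hn u v hu1 z, LinearMap.ext fun x => ?_⟩
    change tauW hd he u v hu1 (chW hd he hn u v hu1 z * x) = l x
    rw [tauW_apply, ← chW_mul_phi hd he hn u v hu1, tau_chW hd he hn u v hu1, hz,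
      LinearMap.comp_apply, chW_phi]

open Classical in
/-- The wanted form of the trace on group elements. -/
theorem tauW_TT (x : BW d e n) : tauW hd he u v hu1 (TT d e n u v x) =
    tau (parOf he u v) n
      ((rho he hd u v hu1 n (x : Gam d e n) : (H (parOf he u v) n)ˣ) : H (parOf he u v) n) := by
  rw [tauW_apply, phi_TT]

theorem zt_pow_eq_one (hd : 0 < d) (he : 0 < e) {k : ℕ} (hk : k < d * e - 1 + 1)
    (h : (zt d e : ℂ) ^ k = 1) : k = 0 := by
  have hde : d * e - 1 + 1 = d * e := Nat.sub_add_cancel (Nat.mul_pos hd he)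
  rw [hde] at hk
  have h1 := (zt_prim (Nat.mul_pos hd he)).dvd_of_pow_eq_one k h
  exact Nat.eq_zero_of_dvd_of_lt h1 hk

theorem proj_wd (i : Ix (d * e - 1) n) :
    proj d e n (wd (tg d e n) (d * e - 1) n i) = wd (sr n (zt d e)) (d * e - 1) n i :=
  map_wd _ _ (fun _ hi => proj_tg hi) i

include hd he in
theorem wd_proj_one (i : Ix (d * e - 1) n)
    (h : proj d e n (wd (tg d e n) (d * e - 1) n i) = 1) : i = triv _ n := by
  rw [proj_wd] at h
  exact wd_eq_one _ (fun k hk h => zt_pow_eq_one hd he hk h) le_rfl i h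

theorem sr_zero_pow (hn : 0 < n) : sr n (zt d e) 0 ^ (d * e) = 1 := by
  rw [sr_zero _ hn]
  apply GLn_ext
  intro j
  rw [dg_pow]
  split_ifs
  · rw [zt_pow, one_smul]; rfl
  · rw [one_pow, one_smul]; rfl

theorem sr_sq {i : ℕ} (h0 : 0 < i) (hi : i < n) : sr n (zt d e) i * sr n (zt d e) i = 1 := by
  obtain ⟨i, rfl⟩ : ∃ k, i = k + 1 := ⟨i - 1, by omega⟩
  rw [sr_succ _ hi, ← map_mul, Equiv.swap_mul_self, map_one]

open Classical in
/-- Condition (1). -/
theorem tauW_spec {θ : A →+* ℂ} {z : ℂ} (hz : IsPrimitiveRoot z d)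
    (hu : ∀ j : Fin d, θ (u j) = z ^ (j : ℕ)) (hv : ∀ j : Fin 2, θ (v j) = (-1) ^ (j : ℕ))
    (β : BW d e n) :
    θ (tauW hd he u v hu1 (TT d e n u v β)) = if proj d e n β = 1 then 1 else 0 := by
  have ht := sr_isBraid n (zt d e)
  have ht0 : 0 < n → sr n (zt d e) 0 ^ (d * e) = 1 := fun hn => sr_zero_pow hn
  have hti : ∀ i, 0 < i → i < n → sr n (zt d e) i * sr n (zt d e) i = 1 :=
    fun i h0 hi => sr_sq h0 hi
  rw [tauW_TT, tau_Sp he hd u v n hz hu hv ht ht0 hti (fun i hi =>
    wd_eq_one _ (fun k hk h => zt_pow_eq_one hd he hk h) le_rfl i hi)]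
  have h : (Units.map (Sp he hd u v n hz hu hv ht ht0 hti : H (parOf he u v) n →*
      Re θ (MonoidAlgebra ℂ (GLn n)))).comp (rho he hd u v hu1 n) =
      (ofU θ (GLn n)).comp (proj d e n) := by
    refine Gam_ext fun i hi => ?_
    apply Units.ext
    rw [MonoidHom.comp_apply, MonoidHom.comp_apply, rho_tg he hd u v hu1 n hi, proj_tg hi]
    exact Sp_un he hd u v n hz hu hv ht ht0 hti hi
  have h2 := congrArg (fun f : Gam d e n →* (Re θ (MonoidAlgebra ℂ (GLn n)))ˣ =>
    ((f β : (Re θ (MonoidAlgebra ℂ (GLn n)))ˣ) : Re θ (MonoidAlgebra ℂ (GLn n)))) h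
  have h3 : Sp he hd u v n hz hu hv ht ht0 hti
      ((rho he hd u v hu1 n (β : Gam d e n) : (H (parOf he u v) n)ˣ) : H (parOf he u v) n) =
      toRe θ (MonoidAlgebra ℂ (GLn n)) (MonoidAlgebra.of ℂ (GLn n) (proj d e n β)) := h2
  rw [h3, cf1_of]

/-- The full twist in the Hecke algebra. -/
theorem rho_pi : ∃ κ : Aˣ,
    ((rho he hd u v hu1 n (piB d e n : Gam d e n) : (H (parOf he u v) n)ˣ) :
      H (parOf he u v) n) = (κ : A) • Pi (parOf he u v) n := by
  obtain ⟨κ, hκ⟩ := twist_val (parOf he u v) n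
  refine ⟨κ, ?_⟩
  have hde : d * e - 1 + 1 = d * e := Nat.sub_add_cancel (Nat.mul_pos hd he)
  rw [← hκ, hde]
  congr 1
  change rho he hd u v hu1 n (cox (tg d e n) n ^ (n * (d * e))) = _
  rw [pow_mul, (tg_isBraid d e n).cox_pow le_rfl, map_pow,
    map_Lprod (rho he hd u v hu1 n) (fun i hi => rho_tg he hd u v hu1 n hi)]

section star

variable {σ : A →+* A} (hσ : IsStar (parOf he u v) σ)

include hσ in
theorem tauW_pi : IsUnit (tauW hd he u v hu1 (TT d e n u v (piB d e n))) := by
  obtain ⟨κ, hκ⟩ := rho_pi hd he (n := n) u v hu1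
  rw [tauW_TT, hκ, map_smul, tau_Pi hσ, smul_eq_mul]
  exact (κ.isUnit).mul ((parOf he u v).c0.isUnit.pow n)

include hσ in
/-- Condition (2). -/
theorem tauW_star (β : BW d e n) :
    σ (tauW hd he u v hu1 (TT d e n u v β⁻¹)) *
      tauW hd he u v hu1 (TT d e n u v (piB d e n)) =
      tauW hd he u v hu1 (TT d e n u v (β * piB d e n)) := by
  obtain ⟨κ, hκ⟩ := rho_pi hd he (n := n) u v hu1
  have h1 := tau_star hσ n
    ((rho he hd u v hu1 n (β : Gam d e n) : (H (parOf he u v) n)ˣ) : H (parOf he u v) n)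
  rw [al_rho] at h1
  rw [tauW_TT, tauW_TT, tauW_TT, hκ, Subgroup.coe_mul, map_mul, Units.val_mul, hκ, mul_smul_comm,
    map_smul, map_smul, tau_Pi hσ, h1, Subgroup.coe_inv, smul_eq_mul, smul_eq_mul]
  ring

end star

end main

section section'

variable {d e n : ℕ} (hd : 0 < d) (he : 0 < e)

include hd he in
theorem exists_word (g : Gg d e n) :
    ∃ i : Ix (d * e - 1) n, proj d e n (wd (tg d e n) (d * e - 1) n i) = g := by
  have hde : d * e - 1 + 1 = d * e := Nat.sub_add_cancel (Nat.mul_pos hd he)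
  obtain ⟨i, hi⟩ := exists_wd (zt d e) (N := d * e - 1) (by rw [hde]; exact zt_pow d e)
    (by
      intro z hz
      rw [hde] at hz ⊢
      have : NeZero (d * e) := ⟨(Nat.mul_pos hd he).ne'⟩
      exact (zt_prim (Nat.mul_pos hd he)).eq_pow_of_pow_eq_one hz)
    (le_refl n) (g : GLn n) (by rw [hde]; exact Gg_le d e n g.2) (fun i hi => by
      have := i.2; omega)
  exact ⟨i, by rw [proj_wd, hi]⟩

open Classical in
/-- The index of the section word of an element of `G(de,e,n)`. -/
noncomputable def ixOf (g : Gg d e n) : Ix (d * e - 1) n :=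
  if g = 1 then triv _ n else Classical.choose (exists_word hd he g)

theorem proj_ixOf (g : Gg d e n) :
    proj d e n (wd (tg d e n) (d * e - 1) n (ixOf hd he g)) = g := by
  unfold ixOf
  split_ifs with h
  · rw [wd_triv, map_one, h]; rfl
  · exact Classical.choose_spec (exists_word hd he g)

/-- The section. -/
noncomputable def sec (g : Gg d e n) : BW d e n :=
  ⟨wd (tg d e n) (d * e - 1) n (ixOf hd he g), by
    rw [mem_BW, proj_ixOf]; exact g.2⟩

theorem proj_sec (g : Gg d e n) : proj d e n (sec hd he g) = g := proj_ixOf hd he g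

theorem sec_one : sec hd he (1 : Gg d e n) = 1 := by
  apply Subtype.ext
  change wd (tg d e n) (d * e - 1) n (ixOf hd he 1) = 1
  rw [ixOf, if_pos rfl, wd_triv]

open Classical in
theorem tauW_sec (u : Fin d → Aˣ) (v : Fin 2 → Aˣ) (hu1 : d = 1 → ∀ j, u j = 1)
    (g : Gg d e n) :
    tauW hd he u v hu1 (TT d e n u v (sec hd he g)) = if g = 1 then 1 else 0 := by
  rw [tauW_TT]
  change tau (parOf he u v) n ((rho he hd u v hu1 n
    (wd (tg d e n) (d * e - 1) n (ixOf hd he g)) : (H (parOf he u v) n)ˣ) :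
      H (parOf he u v) n) = _
  rw [rho_wd, tau_wd]
  refine if_congr ?_ rfl rfl
  constructor
  · intro h
    have h1 := proj_ixOf hd he g
    rw [h, wd_triv, map_one] at h1
    exact Subtype.ext h1.symm
  · intro h
    rw [ixOf, if_pos h]

include hd he in
theorem ixOf_proj (i : Ix (d * e - 1) n) (g : Gg d e n)
    (h : proj d e n (wd (tg d e n) (d * e - 1) n i) = g) : ixOf hd he g = i := by
  have h1 := proj_ixOf hd he g
  rw [← h, proj_wd, proj_wd] at h1
  have hde : d * e - 1 + 1 = d * e := Nat.sub_add_cancel (Nat.mul_pos hd he)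
  refine wd_inj (zt d e) (fun k k' hk hk' hkk => ?_) le_rfl _ _ h1
  rw [hde] at hk hk'
  exact (zt_prim (Nat.mul_pos hd he)).pow_inj hk hk' hkk

theorem ixOf_injective : Function.Injective (ixOf hd he : Gg d e n → Ix (d * e - 1) n) := by
  intro g g' h
  have h1 := proj_ixOf hd he g
  rw [h, proj_ixOf] at h1
  exact Subtype.ext h1.symm

variable (hn : 0 < n) (u : Fin d → Aˣ) (v : Fin 2 → Aˣ) (hu1 : d = 1 → ∀ j, u j = 1)

include hn hu1 in
theorem sec_linearIndependent :
    LinearIndependent A (fun g : Gg d e n => TT d e n u v (sec hd he g)) := by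
  have h1 := (wd_linearIndependent (parOf he u v) n).comp _ (ixOf_injective hd he (n := n))
  refine LinearIndependent.of_comp (phi hd he u v hu1).toLinearMap ?_
  have h2 : (phi hd he u v hu1).toLinearMap ∘ (fun g : Gg d e n => TT d e n u v (sec hd he g)) =
      (fun i : Ix (d * e - 1) n => ((wd (un (parOf he u v) n) (d * e - 1) n i :
        (H (parOf he u v) n)ˣ) : H (parOf he u v) n)) ∘ ixOf hd he := by
    funext g
    change phi hd he u v hu1 (TT d e n u v (sec hd he g)) =
      ((wd (un (parOf he u v) n) (d * e - 1) n (ixOf hd he g) :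
        (H (parOf he u v) n)ˣ) : H (parOf he u v) n)
    rw [phi_TT, ← rho_wd he hd u v hu1]
    rfl
  rw [h2]
  exact h1

include hn hu1 in
theorem sec_span : ⊤ ≤ Submodule.span A (Set.range
    (fun g : Gg d e n => TT d e n u v (sec hd he g))) := by
  intro y _
  rw [← chW_phi hd he hn u v hu1 y]
  generalize phi hd he u v hu1 y = h
  have hspan := wd_span (parOf he u v) n h
  induction hspan using Submodule.span_induction with
  | mem x hx =>
    obtain ⟨i, rfl⟩ := hx
    simp only
    rw [← rho_wd he hd u v hu1 n i]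
    by_cases h1 : wd (tg d e n) (d * e - 1) n i ∈ BW d e n
    · rw [chW_rho_mem hd he hn u v hu1 ⟨_, h1⟩]
      refine Submodule.subset_span ⟨⟨proj d e n (wd (tg d e n) (d * e - 1) n i), h1⟩, ?_⟩
      simp only
      congr 1
      apply Subtype.ext
      change wd (tg d e n) (d * e - 1) n (ixOf hd he _) = _
      rw [ixOf_proj hd he i _ rfl]
    · rw [chW_rho_not_mem hd he hn u v hu1 h1]
      exact Submodule.zero_mem _
  | zero => rw [map_zero]; exact Submodule.zero_mem _
  | add x y _ _ hx hy => rw [map_add]; exact Submodule.add_mem _ hx hy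
  | smul r x _ hx => rw [map_smul]; exact Submodule.smul_mem _ _ hx

end section'

open Classical in
/-- The main theorem over a general ring. -/
theorem main_general {d e n : ℕ} (hd : 0 < d) (he : 0 < e) (hn : 0 < n) (u : Fin d → Aˣ)
    (v : Fin 2 → Aˣ) (hu1 : d = 1 → ∀ j, u j = 1) {st : A →+* A} {sp : A →+* ℂ} {z : ℂ}
    (hst : ∀ x, st (st x) = x) (hstu : ∀ j, st (u j) = (((u j)⁻¹ : Aˣ) : A))
    (hstv : ∀ j, st (v j) = (((v j)⁻¹ : Aˣ) : A)) (hz : IsPrimitiveRoot z d)
    (hspu : ∀ j : Fin d, sp (u j) = z ^ (j : ℕ)) (hspv : ∀ j : Fin 2, sp (v j) = (-1) ^ (j : ℕ)) :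
    ∃ τ : HW d e n u v →ₗ[A] A, IsBMM d e n u v st sp τ ∧
      ∃ s : Gg d e n → BW d e n, (∀ g, proj d e n (s g) = g) ∧ s 1 = 1 ∧
        (∀ g, τ (TT d e n u v (s g)) = if g = 1 then 1 else 0) ∧
        ∃ b : Module.Basis (Gg d e n) A (HW d e n u v), ∀ g, b g = TT d e n u v (s g) := by
  have hσ : IsStar (parOf he u v) st := parOf_isStar he u v hst hstu hstv
  refine ⟨tauW hd he u v hu1, ⟨tauW_comm hd he u v hu1, tauW_bijective hd he hn u v hu1,
    tauW_spec hd he u v hu1 hz hspu hspv, tauW_pi hd he u v hu1 hσ, tauW_star hd he u v hu1 hσ⟩,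
    sec hd he, proj_sec hd he, sec_one hd he, tauW_sec hd he u v hu1,
    Module.Basis.mk (sec_linearIndependent hd he hn u v hu1) (sec_span hd he hn u v hu1),
    fun g => by rw [Module.Basis.mk_apply]⟩

end Pool.Agent.Lib.H10BMM
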