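import Pool.Agent.Lib.H10BMM.Spec

/-!
# The Hecke algebra of `G(de,e,n)` inside `H P n`
-/

namespace Pool.Agent.Lib.H10BMM

open scoped BigOperators
open Polynomial

universe u'

section character

variable (d e n : ℕ)

/-- The character of the group with `t_0 ↦ ζ_{de}^d`, `t_i ↦ 1`. -/
noncomputable def chi : Gam d e n →* ℂˣ :=
  liftG (t := fun i => if i = 0 then zt d e ^ d else 1)
    ⟨fun _ => by simp, fun i h0 _ => by rw [if_neg (by omega), if_neg (by omega)],
      fun i j hij _ => by rw [if_neg (show ¬ (j = 0) by omega)]; simp⟩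
    (fun _ h1 => by
      rw [if_pos rfl, ← pow_mul]
      apply Units.ext
      rw [Units.val_pow_eq_pow_val, zt_pow, Units.val_one])

theorem chi_zero (hn : 0 < n) : chi d e n (tg d e n 0) = zt d e ^ d := by
  rw [chi, liftG_tg _ _ hn, if_pos rfl]

theorem chi_succ {i : ℕ} (h0 : 0 < i) (hi : i < n) : chi d e n (tg d e n i) = 1 := by
  rw [chi, liftG_tg _ _ hi, if_neg (by omega)]

/-- The monomial form of the image of a group element. -/
theorem proj_form (x : Gam d e n) : ∃ (σ : Equiv.Perm (Fin n)) (θ : Fin n → ℂ),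
    (∀ j, θ j ^ (d * e) = 1) ∧ (∏ j, θ j) ^ d = (chi d e n x : ℂ) ∧
      ∀ j, proj d e n x (Pi.single j 1) = Pi.single (σ j) (θ j) := by
  have hx : x ∈ Subgroup.closure {x | ∃ i, i < n ∧ x = tg d e n i} := by
    rw [Gam_closure]; exact Subgroup.mem_top _
  induction hx using Subgroup.closure_induction with
  | mem y hy =>
    obtain ⟨i, hi, rfl⟩ := hy
    rw [proj_tg hi]
    rcases Nat.eq_zero_or_pos i with rfl | h0
    · refine ⟨1, fun j => if (j : ℕ) = 0 then (zt d e : ℂ) else 1, fun j => ?_, ?_, fun j => ?_⟩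
      · change (if (j : ℕ) = 0 then (zt d e : ℂ) else 1) ^ (d * e) = 1
        split_ifs
        · exact zt_pow d e
        · exact one_pow _
      · rw [chi_zero d e n hi, Units.val_pow_eq_pow_val, Finset.prod_eq_single (⟨0, hi⟩ : Fin n)]
        · simp
        · intro j _ hj
          rw [if_neg]
          intro h
          exact hj (Fin.ext h)
        · intro h; exact absurd (Finset.mem_univ _) h
      · rw [sr_zero _ hi]
        exact (dg_ev n _ j).trans (single_eq_smul_ev _ _).symm
    · obtain ⟨i, rfl⟩ : ∃ k, i = k + 1 := ⟨i - 1, by omega⟩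
      refine ⟨Equiv.swap ⟨i, by omega⟩ ⟨i + 1, hi⟩, fun _ => 1, fun _ => one_pow _, ?_,
        fun j => ?_⟩
      · rw [chi_succ d e n h0 hi]; simp
      · rw [sr_succ _ hi]
        exact permHom_ev _ j
  | one => exact ⟨1, fun _ => 1, fun _ => one_pow _, by simp, fun j => by rw [map_one]; rfl⟩
  | mul x y _ _ hx hy =>
    obtain ⟨σ, θ, h1, h2, h3⟩ := hx
    obtain ⟨σ', θ', h1', h2', h3'⟩ := hy
    refine ⟨σ * σ', fun j => θ' j * θ (σ' j), fun j => ?_, ?_, fun j => ?_⟩
    · rw [mul_pow, h1', h1, one_mul]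
    · rw [Finset.prod_mul_distrib, Equiv.prod_comp σ' θ, mul_pow, h2, h2', map_mul, Units.val_mul,
        mul_comm]
    · rw [map_mul, LinearEquiv.mul_apply, h3', single_eq_smul_ev, map_smul, h3,
        ← Pi.single_smul']
      rfl
  | inv x _ hx =>
    obtain ⟨σ, θ, h1, h2, h3⟩ := hx
    have hne := Gg_ne_zero h3
    refine ⟨σ⁻¹, fun j => (θ (σ⁻¹ j))⁻¹, fun j => ?_, ?_, fun j => ?_⟩
    · rw [inv_pow, h1, inv_one]
    · rw [Finset.prod_inv_distrib, Equiv.prod_comp σ⁻¹ θ, inv_pow, h2, map_inv,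
        Units.val_inv_eq_inv_val]
    · have h4 := h3 (σ⁻¹ j)
      rw [show σ (σ⁻¹ j) = j from Equiv.apply_symm_apply σ j] at h4
      have h5 : proj d e n x (Pi.single (σ⁻¹ j) (θ (σ⁻¹ j))⁻¹) = Pi.single j 1 := by
        rw [single_eq_smul_ev, map_smul, h4, ← Pi.single_smul', smul_eq_mul,
          inv_mul_cancel₀ (hne _)]
      rw [map_inv]
      change (proj d e n x).symm (Pi.single j 1) = _
      rw [LinearEquiv.symm_apply_eq, h5]

theorem mem_BW_iff (x : Gam d e n) : x ∈ BW d e n ↔ chi d e n x = 1 := by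
  obtain ⟨σ, θ, h1, h2, h3⟩ := proj_form d e n x
  constructor
  · rintro ⟨σ', θ', h1', h2', h3'⟩
    have hθ : θ = θ' := by
      funext j
      have h4 : (Pi.single (σ j) (θ j) : Fin n → ℂ) = Pi.single (σ' j) (θ' j) := by
        rw [← h3, ← h3']
      by_cases hσ : σ j = σ' j
      · rw [hσ] at h4
        exact Pi.single_injective _ h4
      · have h5 := congrFun h4 (σ j)
        rw [Pi.single_eq_same, Pi.single_eq_of_ne hσ] at h5
        exact absurd h5 (Gg_ne_zero h3 j)
    apply Units.ext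
    rw [← h2, hθ, h2', Units.val_one]
  · intro h
    refine ⟨σ, θ, h1, ?_, h3⟩
    rw [h2, h, Units.val_one]

end character

end Pool.Agent.Lib.H10BMM
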