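import Pool.Agent.Lib.H10BMM.Ind

/-!
# The Hecke algebra of `G(de,e,n)` inside `H P n`, continued
-/

namespace Pool.Agent.Lib.H10BMM

open scoped BigOperators
open Polynomial

universe u'

section degree

variable {d e n : ℕ} (hd : 0 < d) (he : 0 < e)

include hd he in
theorem zd_prim : IsPrimitiveRoot ((zt d e : ℂ) ^ d) e :=
  (zt_prim (Nat.mul_pos hd he)).pow (Nat.mul_pos hd he) rfl

include hd he in
theorem zd_prim' : IsPrimitiveRoot (zt d e ^ d) e := by
  rw [← IsPrimitiveRoot.coe_units_iff, Units.val_pow_eq_pow_val]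
  exact zd_prim hd he

include hd he in
/-- Every value of the character is a power of `chi (t 0)`. -/
theorem chi_values (x : Gam d e n) : ∃ k, k < e ∧ chi d e n x = (zt d e ^ d) ^ k := by
  have : NeZero e := ⟨by omega⟩
  obtain ⟨σ, θ, h1, h2, h3⟩ := proj_form d e n x
  have h4 : (chi d e n x : ℂ) ^ e = 1 := by
    rw [← h2, ← pow_mul, ← Finset.prod_pow]
    exact Finset.prod_eq_one fun j _ => h1 j
  obtain ⟨k, hk, hk'⟩ := (zd_prim hd he).eq_pow_of_pow_eq_one h4
  refine ⟨k, hk, ?_⟩
  apply Units.ext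
  rw [Units.val_pow_eq_pow_val, Units.val_pow_eq_pow_val, hk']

/-- The element `t_0^k x t_0^{-k'}`. -/
def tw (x : Gam d e n) (k k' : Fin e) : Gam d e n :=
  tg d e n 0 ^ (k : ℕ) * x * (tg d e n 0 ^ (k' : ℕ))⁻¹

theorem chi_tw (hn : 0 < n) (x : Gam d e n) (k k' : Fin e) : chi d e n (tw x k k') =
    (zt d e ^ d) ^ (k : ℕ) * chi d e n x * ((zt d e ^ d) ^ (k' : ℕ))⁻¹ := by
  rw [tw, map_mul, map_mul, map_inv, map_pow, map_pow, chi_zero d e n hn]

theorem tw_mul (x y : Gam d e n) (k k' k'' : Fin e) :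
    tw x k k' * tw y k' k'' = tw (x * y) k k'' := by
  unfold tw
  group

theorem tw_self (k : Fin e) : tw (1 : Gam d e n) k k = 1 := by
  unfold tw
  group

include hd he in
theorem tw_exists (hn : 0 < n) (x : Gam d e n) (k : Fin e) : ∃ k' : Fin e, tw x k k' ∈ BW d e n := by
  have : NeZero e := ⟨by omega⟩
  obtain ⟨m, hm, hx⟩ := chi_values hd he x
  refine ⟨⟨(k + m) % e, Nat.mod_lt _ he⟩, ?_⟩
  rw [mem_BW_iff, chi_tw hn, hx, ← pow_add]
  have h1 : (zt d e ^ d) ^ (((k : ℕ) + m) % e) = (zt d e ^ d) ^ ((k : ℕ) + m) := by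
    conv_rhs => rw [← Nat.mod_add_div ((k : ℕ) + m) e, pow_add, pow_mul _ e,
      (zd_prim' hd he).pow_eq_one, one_pow, mul_one]
  change (zt d e ^ d) ^ ((k : ℕ) + m) * ((zt d e ^ d) ^ (((k : ℕ) + m) % e))⁻¹ = 1
  rw [h1, mul_inv_cancel]

include hd he in
theorem tw_unique (hn : 0 < n) {x : Gam d e n} {k k' k'' : Fin e} (h' : tw x k k' ∈ BW d e n)
    (h'' : tw x k k'' ∈ BW d e n) : k' = k'' := by
  rw [mem_BW_iff, chi_tw hn, mul_inv_eq_one] at h' h''
  have h1 : (zt d e ^ d) ^ (k' : ℕ) = (zt d e ^ d) ^ (k'' : ℕ) := by rw [← h', ← h'']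
  exact Fin.ext ((zd_prim' hd he).pow_inj k'.2 k''.2 h1)

include hd he in
theorem tw_one_iff (hn : 0 < n) {k k' : Fin e} : tw (1 : Gam d e n) k k' ∈ BW d e n ↔ k = k' := by
  constructor
  · intro h
    refine tw_unique hd he hn (x := 1) (k := k) ?_ h
    rw [tw_self]
    exact Subgroup.one_mem _
  · rintro rfl
    rw [tw_self]
    exact Subgroup.one_mem _

end degree

section psi

variable {A : Type u'} [CommRing A] {d e n : ℕ} (hd : 0 < d) (he : 0 < e) (hn : 0 < n)
  (u : Fin d → Aˣ) (v : Fin 2 → Aˣ)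

open Classical in
/-- The induced representation of the group. -/
noncomputable def psi : Gam d e n →* Matrix (Fin e) (Fin e) (HW d e n u v) where
  toFun x := Matrix.of fun k k' => if h : tw x k k' ∈ BW d e n then TT d e n u v ⟨_, h⟩ else 0
  map_one' := by
    ext k k'
    rw [Matrix.of_apply, Matrix.one_apply]
    by_cases h : k = k'
    · subst h
      rw [if_pos rfl, dif_pos ((tw_one_iff hd he hn).mpr rfl)]
      have h1 : (⟨tw (1 : Gam d e n) k k, (tw_one_iff hd he hn).mpr rfl⟩ : BW d e n) = 1 :=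
        Subtype.ext (tw_self k)
      rw [h1, map_one]
    · rw [if_neg h, dif_neg (fun h' => h ((tw_one_iff hd he hn).mp h'))]
  map_mul' x y := by
    ext k k''
    rw [Matrix.mul_apply, Matrix.of_apply]
    obtain ⟨k', hk'⟩ := tw_exists hd he hn x k
    rw [Finset.sum_eq_single k']
    · rw [Matrix.of_apply, Matrix.of_apply, dif_pos hk']
      by_cases h : tw (x * y) k k'' ∈ BW d e n
      · have h' : tw y k' k'' ∈ BW d e n := by
          have h2 : tw y k' k'' = (tw x k k')⁻¹ * tw (x * y) k k'' := by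
            rw [← tw_mul x y k k' k'', inv_mul_cancel_left]
          rw [h2]
          exact Subgroup.mul_mem _ (Subgroup.inv_mem _ hk') h
        rw [dif_pos h, dif_pos h', ← map_mul]
        congr 1
        exact Subtype.ext (tw_mul x y k k' k'').symm
      · have h' : tw y k' k'' ∉ BW d e n := by
          intro h'
          apply h
          rw [← tw_mul x y k k' k'']
          exact Subgroup.mul_mem _ hk' h'
        rw [dif_neg h, dif_neg h', mul_zero]
    · intro b _ hb
      rw [Matrix.of_apply, dif_neg (fun h => hb (tw_unique hd he hn h hk')), zero_mul]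
    · intro h; exact absurd (Finset.mem_univ _) h

open Classical in
theorem psi_apply (x : Gam d e n) (k k' : Fin e) : psi hd he hn u v x k k' =
    if h : tw x k k' ∈ BW d e n then TT d e n u v ⟨_, h⟩ else 0 := rfl

theorem psi_of_mem {x : Gam d e n} {k k' : Fin e} (h : tw x k k' ∈ BW d e n) :
    psi hd he hn u v x k k' = TT d e n u v ⟨_, h⟩ := by
  rw [psi_apply, dif_pos h]

theorem psi_of_not_mem {x : Gam d e n} {k k' : Fin e} (h : tw x k k' ∉ BW d e n) :
    psi hd he hn u v x k k' = 0 := by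
  rw [psi_apply, dif_neg h]

/-- The matrix of an element of the subgroup is diagonal. -/
theorem psi_diag {x : Gam d e n} (hx : chi d e n x = 1) : psi hd he hn u v x =
    Matrix.diagonal (fun k => TT d e n u v ⟨tw x k k, by
      rw [mem_BW_iff, chi_tw hn, hx, mul_one, mul_inv_cancel]⟩) := by
  have hk : ∀ k : Fin e, tw x k k ∈ BW d e n := fun k => by
    rw [mem_BW_iff, chi_tw hn, hx, mul_one, mul_inv_cancel]
  ext k k'
  rw [Matrix.diagonal_apply]
  by_cases h : k = k'
  · subst h
    rw [if_pos rfl, psi_of_mem hd he hn u v (hk k)]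
  · rw [if_neg h, psi_of_not_mem]
    intro h'
    exact h (tw_unique hd he hn (hk k) h')

theorem TT_c0 {x : BW d e n} (g : Gam d e n) (hx : (x : Gam d e n) = g * tg d e n 0 ^ e * g⁻¹)
    (hn : 0 < n) (hd1 : d ≠ 1) :
    aeval (TT d e n u v x) (∏ j : Fin d, (Polynomial.X - C ((u j : Aˣ) : A))) = 0 := by
  have h := RingQuot.mkAlgHom_rel A (HRel.c0 (u := u) (v := v) x g hx hn hd1)
  rw [map_zero] at h
  exact (Polynomial.aeval_algHom_apply (mkW d e n u v) (MonoidAlgebra.of A (BW d e n) x) _).trans h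

theorem TT_c1 {x : BW d e n} (g : Gam d e n) (i : ℕ) (h0 : 0 < i) (hi : i < n)
    (hx : (x : Gam d e n) = g * tg d e n i * g⁻¹) :
    aeval (TT d e n u v x)
      ((Polynomial.X - C ((v 0 : Aˣ) : A)) * (Polynomial.X - C ((v 1 : Aˣ) : A))) = 0 := by
  have h := RingQuot.mkAlgHom_rel A (HRel.c1 (u := u) (v := v) x g i h0 hi hx)
  rw [map_zero] at h
  exact (Polynomial.aeval_algHom_apply (mkW d e n u v) (MonoidAlgebra.of A (BW d e n) x) _).trans h

theorem pol_comp : pol e u =
    (∏ j : Fin d, (Polynomial.X - C ((u j : Aˣ) : A))).comp (Polynomial.X ^ e) := by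
  rw [prod_comp]
  unfold pol
  refine Finset.prod_congr rfl fun j _ => ?_
  rw [sub_comp, X_comp, C_comp]

theorem psi_isHecke (hu1 : d = 1 → ∀ j, u j = 1) :
    IsHecke (parOf he u v) n (fun i => psi hd he hn u v (tg d e n i)) := by
  refine ⟨fun _ => ?_, fun i h0 hi => ?_, fun h1 => ?_, fun i h0 hi => ?_, fun i j hij hj => ?_⟩
  · have hx : chi d e n (tg d e n 0 ^ e) = 1 := by
      rw [map_pow, chi_zero d e n hn, (zd_prim' hd he).pow_eq_one]
    have hmem : tg d e n 0 ^ e ∈ BW d e n := by rw [mem_BW_iff, hx]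
    set y : HW d e n u v := TT d e n u v ⟨tg d e n 0 ^ e, hmem⟩ with hy
    have h1 : psi hd he hn u v (tg d e n 0) ^ e = Matrix.scalarAlgHom (Fin e) A y := by
      rw [← map_pow, psi_diag hd he hn u v hx]
      ext k k'
      simp only [Matrix.scalarAlgHom_apply, Matrix.scalar_apply]
      rw [Matrix.diagonal_apply, Matrix.diagonal_apply]
      by_cases h : k = k'
      · rw [if_pos h, if_pos h, hy]
        congr 1
        apply Subtype.ext
        change tw (tg d e n 0 ^ e) k k = tg d e n 0 ^ e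
        unfold tw
        rw [← pow_add, add_comm, pow_add, mul_inv_cancel_right]
      · rw [if_neg h, if_neg h]
    rw [parOf_pol_iff he hd u v, pol_comp, aeval_comp, map_pow, aeval_X, h1,
      aeval_algHom_apply]
    have h2 : aeval y (∏ j : Fin d, (Polynomial.X - C ((u j : Aˣ) : A))) = 0 := by
      by_cases hd1 : d = 1
      · subst hd1
        have h3 : y = 1 := by
          rw [hy, ← map_one (TT 1 e n u v)]
          congr 1
          exact Subtype.ext (tg_pow 1 e n hn rfl)
        rw [Fin.prod_univ_one, hu1 rfl, h3, map_sub, aeval_X, aeval_C, Units.val_one, map_one,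
          sub_self]
      · exact TT_c0 u v 1 (by simp) hn hd1
    rw [h2, map_zero]
  · rw [psi_diag hd he hn u v (chi_succ d e n h0 hi), Matrix.diagonal_mul_diagonal]
    ext k k'
    rw [Matrix.add_apply, Matrix.smul_apply, Matrix.smul_apply, Matrix.diagonal_apply,
      Matrix.diagonal_apply, Matrix.one_apply]
    by_cases h : k = k'
    · rw [if_pos h, if_pos h, if_pos h, quad_iff he u v]
      exact TT_c1 u v (tg d e n 0 ^ (k : ℕ)) i h0 hi rfl
    · rw [if_neg h, if_neg h, if_neg h, smul_zero, smul_zero, add_zero]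
  · rw [← map_mul, ← map_mul, ← map_mul, ← map_mul, ← map_mul, ← map_mul,
      (tg_isBraid d e n).br4 h1]
  · rw [← map_mul, ← map_mul, ← map_mul, ← map_mul, (tg_isBraid d e n).br3 i h0 hi]
  · rw [← map_mul, ← map_mul, (tg_isBraid d e n).comm i j hij hj]

/-- The extension of the induced representation to the Hecke algebra. -/
noncomputable def Psi2 (hu1 : d = 1 → ∀ j, u j = 1) :
    H (parOf he u v) n →ₐ[A] Matrix (Fin e) (Fin e) (HW d e n u v) :=
  lift (parOf he u v) (psi_isHecke hd he hn u v hu1)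

theorem Psi2_rho (hu1 : d = 1 → ∀ j, u j = 1) (x : Gam d e n) :
    Psi2 hd he hn u v hu1
      ((rho he hd u v hu1 n x : (H (parOf he u v) n)ˣ) : H (parOf he u v) n) =
      psi hd he hn u v x := by
  have h : (Units.map (Psi2 hd he hn u v hu1 : H (parOf he u v) n →*
      Matrix (Fin e) (Fin e) (HW d e n u v))).comp (rho he hd u v hu1 n) =
      (psi hd he hn u v).toHomUnits := by
    refine Gam_ext fun i hi => ?_
    apply Units.ext
    rw [MonoidHom.comp_apply, rho_tg he hd u v hu1 n hi]
    change Psi2 hd he hn u v hu1 ((un (parOf he u v) n i : (H (parOf he u v) n)ˣ) :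
      H (parOf he u v) n) = psi hd he hn u v (tg d e n i)
    rw [un_val _ hi]
    exact lift_T _ _ hi
  exact congrArg (fun f : Gam d e n →* (Matrix (Fin e) (Fin e) (HW d e n u v))ˣ =>
    ((f x : (Matrix (Fin e) (Fin e) (HW d e n u v))ˣ) :
      Matrix (Fin e) (Fin e) (HW d e n u v))) h

end psi

section phi

variable {A : Type u'} [CommRing A] {d e n : ℕ} (hd : 0 < d) (he : 0 < e) (hn : 0 < n)
  (u : Fin d → Aˣ) (v : Fin 2 → Aˣ) (hu1 : d = 1 → ∀ j, u j = 1)

theorem aeval_conj {K : Type*} [Ring K] [Algebra A K] (g : Kˣ) (y : K) (p : A[X])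
    (h : aeval y p = 0) : aeval ((g : K) * y * ((g⁻¹ : Kˣ) : K)) p = 0 := by
  have key : ∀ q : A[X], aeval ((g : K) * y * ((g⁻¹ : Kˣ) : K)) q =
      (g : K) * aeval y q * ((g⁻¹ : Kˣ) : K) := by
    intro q
    induction q using Polynomial.induction_on' with
    | add p q hp hq => rw [map_add, map_add, hp, hq, mul_add, add_mul]
    | monomial k r =>
      rw [aeval_monomial, aeval_monomial]
      have h1 : ((g : K) * y * ((g⁻¹ : Kˣ) : K)) ^ k = (g : K) * y ^ k * ((g⁻¹ : Kˣ) : K) := by
        induction k with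
        | zero => rw [pow_zero, pow_zero, mul_one, Units.mul_inv]
        | succ k ih =>
          rw [pow_succ, ih, pow_succ]
          calc (g : K) * y ^ k * ((g⁻¹ : Kˣ) : K) * ((g : K) * y * ((g⁻¹ : Kˣ) : K))
              = (g : K) * y ^ k * (((g⁻¹ : Kˣ) : K) * (g : K)) * y * ((g⁻¹ : Kˣ) : K) := by
                noncomm_ring
            _ = _ := by rw [Units.inv_mul]; noncomm_ring
      rw [h1, ← mul_assoc, ← mul_assoc, ← mul_assoc, Algebra.commutes]
  rw [key, h, mul_zero, zero_mul]

/-- The map from the group to the Hecke algebra, restricted to the subgroup. -/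
noncomputable def rhoW : BW d e n →* H (parOf he u v) n :=
  (Units.coeHom (H (parOf he u v) n)).comp ((rho he hd u v hu1 n).comp (BW d e n).subtype)

theorem rhoW_apply (x : BW d e n) : rhoW hd he u v hu1 x =
    ((rho he hd u v hu1 n (x : Gam d e n) : (H (parOf he u v) n)ˣ) : H (parOf he u v) n) := rfl

theorem phi_rel {x y : MonoidAlgebra A (BW d e n)} (h : HRel d e n u v x y) :
    MonoidAlgebra.lift A (H (parOf he u v) n) (BW d e n) (rhoW hd he u v hu1) x =
    MonoidAlgebra.lift A (H (parOf he u v) n) (BW d e n) (rhoW hd he u v hu1) y := by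
  induction h with
  | c0 x g hx hn hd1 =>
    have h1 : MonoidAlgebra.lift A (H (parOf he u v) n) (BW d e n) (rhoW hd he u v hu1)
        (MonoidAlgebra.of A (BW d e n) x) =
        ((rho he hd u v hu1 n g : (H (parOf he u v) n)ˣ) : H (parOf he u v) n) *
          T (parOf he u v) n 0 ^ e *
          (((rho he hd u v hu1 n g)⁻¹ : (H (parOf he u v) n)ˣ) : H (parOf he u v) n) := by
      rw [MonoidAlgebra.lift_of, rhoW_apply, hx, map_mul, map_mul, map_inv, map_pow,
        rho_tg he hd u v hu1 n hn, Units.val_mul, Units.val_mul, Units.val_pow_eq_pow_val,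
        un_val _ hn]
    rw [map_zero, ← aeval_algHom_apply, h1]
    refine aeval_conj _ _ _ ?_
    have h2 := (parOf_pol_iff he hd u v (T (parOf he u v) n 0)).mp
      ((T_isHecke (parOf he u v) n).pol hn)
    rwa [pol_comp, aeval_comp, map_pow, aeval_X] at h2
  | c1 x g i h0 hi hx =>
    have h1 : MonoidAlgebra.lift A (H (parOf he u v) n) (BW d e n) (rhoW hd he u v hu1)
        (MonoidAlgebra.of A (BW d e n) x) =
        ((rho he hd u v hu1 n g : (H (parOf he u v) n)ˣ) : H (parOf he u v) n) *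
          T (parOf he u v) n i *
          (((rho he hd u v hu1 n g)⁻¹ : (H (parOf he u v) n)ˣ) : H (parOf he u v) n) := by
      rw [MonoidAlgebra.lift_of, rhoW_apply, hx, map_mul, map_mul, map_inv,
        rho_tg he hd u v hu1 n hi, Units.val_mul, Units.val_mul, un_val _ hi]
    rw [map_zero, ← aeval_algHom_apply, h1]
    refine aeval_conj _ _ _ ?_
    exact (quad_iff he u v _).mp ((T_isHecke (parOf he u v) n).quad i h0 hi)

/-- The natural map `HW → H P n`. -/
noncomputable def phi : HW d e n u v →ₐ[A] H (parOf he u v) n :=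
  RingQuot.liftAlgHom A ⟨MonoidAlgebra.lift A (H (parOf he u v) n) (BW d e n)
    (rhoW hd he u v hu1), fun _ _ h => phi_rel hd he u v hu1 h⟩

theorem phi_TT (x : BW d e n) : phi hd he u v hu1 (TT d e n u v x) =
    ((rho he hd u v hu1 n (x : Gam d e n) : (H (parOf he u v) n)ˣ) : H (parOf he u v) n) := by
  have h1 : phi hd he u v hu1 (TT d e n u v x) =
      MonoidAlgebra.lift A (H (parOf he u v) n) (BW d e n) (rhoW hd he u v hu1)
        (MonoidAlgebra.of A (BW d e n) x) :=
    RingQuot.liftAlgHom_mkAlgHom_apply A _ _ _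
  rw [h1, MonoidAlgebra.lift_of, rhoW_apply]

/-- Induction in `HW`. -/
theorem HW_induction {p : HW d e n u v → Prop} (hadd : ∀ x y, p x → p y → p (x + y))
    (hsmul : ∀ (r : A) x, p x → p (r • x)) (hT : ∀ x, p (TT d e n u v x)) (h : HW d e n u v) :
    p h := by
  obtain ⟨z, rfl⟩ := RingQuot.mkAlgHom_surjective A (HRel d e n u v) h
  change p (mkW d e n u v z)
  induction z using MonoidAlgebra.induction_on with
  | of g => exact hT g
  | add a b ha hb => rw [map_add]; exact hadd _ _ ha hb
  | smul r a ha => rw [map_smul]; exact hsmul _ _ ha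

/-- The projection `H P n → HW`. -/
noncomputable def chW : H (parOf he u v) n →ₗ[A] HW d e n u v where
  toFun h := Psi2 hd he hn u v hu1 h ⟨0, he⟩ ⟨0, he⟩
  map_add' x y := by rw [map_add, Matrix.add_apply]
  map_smul' r x := by rw [map_smul, Matrix.smul_apply]; rfl

theorem chW_apply (h : H (parOf he u v) n) :
    chW hd he hn u v hu1 h = Psi2 hd he hn u v hu1 h ⟨0, he⟩ ⟨0, he⟩ := rfl

theorem tw_zero_zero (he : 0 < e) (x : Gam d e n) : tw x (⟨0, he⟩ : Fin e) ⟨0, he⟩ = x := by
  unfold tw; simp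

theorem chW_rho_mem (x : BW d e n) : chW hd he hn u v hu1
    ((rho he hd u v hu1 n (x : Gam d e n) : (H (parOf he u v) n)ˣ) : H (parOf he u v) n) =
      TT d e n u v x := by
  rw [chW_apply, Psi2_rho hd he hn u v hu1, psi_of_mem hd he hn u v (by
    rw [tw_zero_zero]; exact x.2)]
  congr 1
  exact Subtype.ext (tw_zero_zero he _)

theorem chW_rho_not_mem {x : Gam d e n} (hx : x ∉ BW d e n) : chW hd he hn u v hu1
    ((rho he hd u v hu1 n x : (H (parOf he u v) n)ˣ) : H (parOf he u v) n) = 0 := by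
  rw [chW_apply, Psi2_rho hd he hn u v hu1, psi_of_not_mem hd he hn u v (by
    rw [tw_zero_zero]; exact hx)]

theorem chW_phi (y : HW d e n u v) : chW hd he hn u v hu1 (phi hd he u v hu1 y) = y := by
  induction y using HW_induction with
  | hadd x y hx hy => rw [map_add, map_add, hx, hy]
  | hsmul r x hx => rw [map_smul, map_smul, hx]
  | hT x => rw [phi_TT, chW_rho_mem]

/-- The matrix of an element of `HW` is diagonal in the first row and column. -/
theorem Psi2_phi_row (y : HW d e n u v) (k : Fin e) (hk : k ≠ ⟨0, he⟩) :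
    Psi2 hd he hn u v hu1 (phi hd he u v hu1 y) ⟨0, he⟩ k = 0 ∧
      Psi2 hd he hn u v hu1 (phi hd he u v hu1 y) k ⟨0, he⟩ = 0 := by
  induction y using HW_induction with
  | hadd x y hx hy =>
    rw [map_add, map_add, Matrix.add_apply, Matrix.add_apply, hx.1, hx.2, hy.1, hy.2, add_zero]
    exact ⟨rfl, rfl⟩
  | hsmul r x hx =>
    rw [map_smul, map_smul, Matrix.smul_apply, Matrix.smul_apply, hx.1, hx.2, smul_zero]
    exact ⟨rfl, rfl⟩
  | hT x =>
    rw [phi_TT, Psi2_rho hd he hn u v hu1, psi_diag hd he hn u v ((mem_BW_iff d e n _).mp x.2),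
      Matrix.diagonal_apply_ne _ (Ne.symm hk), Matrix.diagonal_apply_ne _ hk]
    exact ⟨rfl, rfl⟩

theorem chW_mul_phi (h : H (parOf he u v) n) (y : HW d e n u v) :
    chW hd he hn u v hu1 (h * phi hd he u v hu1 y) = chW hd he hn u v hu1 h * y := by
  rw [chW_apply, map_mul, Matrix.mul_apply, Finset.sum_eq_single ⟨0, he⟩, ← chW_apply,
    ← chW_apply, chW_phi]
  · intro k _ hk
    rw [(Psi2_phi_row hd he hn u v hu1 y k hk).2, mul_zero]
  · intro h; exact absurd (Finset.mem_univ _) h

theorem chW_phi_mul (h : H (parOf he u v) n) (y : HW d e n u v) :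
    chW hd he hn u v hu1 (phi hd he u v hu1 y * h) = y * chW hd he hn u v hu1 h := by
  rw [chW_apply, map_mul, Matrix.mul_apply, Finset.sum_eq_single ⟨0, he⟩, ← chW_apply,
    ← chW_apply, chW_phi]
  · intro k _ hk
    rw [(Psi2_phi_row hd he hn u v hu1 y k hk).1, zero_mul]
  · intro h; exact absurd (Finset.mem_univ _) h

include hn in
/-- `tau` only depends on the projection. -/
theorem tau_chW (h : H (parOf he u v) n) :
    tau (parOf he u v) n (phi hd he u v hu1 (chW hd he hn u v hu1 h)) =
      tau (parOf he u v) n h := by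
  have hspan := wd_span (parOf he u v) n h
  induction hspan using Submodule.span_induction with
  | mem x hx =>
    obtain ⟨i, rfl⟩ := hx
    simp only
    rw [← rho_wd he hd u v hu1 n i]
    by_cases h1 : wd (tg d e n) (d * e - 1) n i ∈ BW d e n
    · rw [chW_rho_mem hd he hn u v hu1 ⟨_, h1⟩, phi_TT]
    · rw [chW_rho_not_mem hd he hn u v hu1 h1, map_zero, map_zero, rho_wd, tau_wd, if_neg]
      intro h2
      apply h1
      rw [h2, wd_triv]
      exact Subgroup.one_mem _
  | zero => simp only [map_zero]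
  | add x y _ _ hx hy => simp only [map_add, hx, hy]
  | smul r x _ hx => simp only [map_smul, hx]

end phi

end Pool.Agent.Lib.H10BMM
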