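import Mathlib

/-!
# The ring of Laurent polynomials in the parameters
-/

namespace Pool.Agent.Lib.H10BMM

open scoped BigOperators

/-- The set of indeterminates of the generic Hecke algebra of `G(de,e,n)` : `u_0, …, u_{d-1}` if
`d ≠ 1` (none if `d = 1`), and `v_0, v_1`. -/
abbrev Vars (d : ℕ) : Type := {_j : Fin d // d ≠ 1} ⊕ Fin 2

/-- The exponents of Laurent monomials. -/
abbrev Ex (d : ℕ) : Type := Vars d → ℤ

/-- `R = ℤ[u^{±1}, v^{±1}]`, the group ring of `ℤ^(Vars d)`. -/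
def Rd (d : ℕ) : Type := AddMonoidAlgebra ℤ (Ex d)

noncomputable instance instRd (d : ℕ) : CommRing (Rd d) :=
  (AddMonoidAlgebra.commRing : CommRing (AddMonoidAlgebra ℤ (Ex d)))

/-- The Laurent monomial with exponent `a`. -/
noncomputable def mono (d : ℕ) (a : Ex d) : Rd d := AddMonoidAlgebra.single a 1

theorem mono_mul (d : ℕ) (a b : Ex d) : mono d a * mono d b = mono d (a + b) := by
  have h : (AddMonoidAlgebra.single a 1 * AddMonoidAlgebra.single b 1 :
      AddMonoidAlgebra ℤ (Ex d)) = AddMonoidAlgebra.single (a + b) 1 := by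
    rw [AddMonoidAlgebra.single_mul_single, mul_one]
  exact h

theorem mono_zero (d : ℕ) : mono d 0 = 1 := rfl

theorem mono_mul_neg (d : ℕ) (a : Ex d) : mono d a * mono d (-a) = 1 := by
  rw [mono_mul, add_neg_cancel, mono_zero]

theorem mono_neg_mul (d : ℕ) (a : Ex d) : mono d (-a) * mono d a = 1 := by
  rw [mono_mul, neg_add_cancel, mono_zero]

/-- The Laurent monomial with exponent `a`, as a unit. -/
noncomputable def mon (d : ℕ) (a : Ex d) : (Rd d)ˣ :=
  ⟨mono d a, mono d (-a), mono_mul_neg d a, mono_neg_mul d a⟩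

/-- `u_j` (for `d = 1` it is not an indeterminate and is set to `1`). -/
noncomputable def uR (d : ℕ) (j : Fin d) : (Rd d)ˣ :=
  if h : d ≠ 1 then mon d (Pi.single (Sum.inl ⟨j, h⟩) 1) else 1

/-- `v_j`. -/
noncomputable def vR (d : ℕ) (j : Fin 2) : (Rd d)ˣ := mon d (Pi.single (Sum.inr j) 1)

/-- Negation of exponents. -/
def negEx (d : ℕ) : Ex d →+ Ex d := negAddMonoidHom

/-- The ring automorphism `x ↦ x^*` with `u ↦ u⁻¹`, `v ↦ v⁻¹`. -/
noncomputable def starR (d : ℕ) : Rd d →+* Rd d := AddMonoidAlgebra.mapDomainRingHom ℤ (negEx d)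

/-- `ζ_d = exp (2 π i / d)`. -/
noncomputable def zd (d : ℕ) : ℂˣ :=
  Units.mk0 (Complex.exp (2 * Real.pi * Complex.I / (d : ℂ))) (Complex.exp_ne_zero _)

/-- The values of the indeterminates in the group algebra: `u_j ↦ ζ_d^j`, `v_j ↦ (-1)^j`. -/
noncomputable def valR (d : ℕ) : Vars d → ℂˣ :=
  Sum.elim (fun j => zd d ^ (j.1 : ℕ)) (fun j => (-1) ^ (j : ℕ))

/-- The value of a Laurent monomial. -/
noncomputable def monVal (d : ℕ) (a : Ex d) : ℂ := ((∏ x, valR d x ^ a x : ℂˣ) : ℂ)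

theorem monVal_zero (d : ℕ) : monVal d 0 = 1 := by simp [monVal]

theorem monVal_add (d : ℕ) (a b : Ex d) : monVal d (a + b) = monVal d a * monVal d b := by
  simp only [monVal, Pi.add_apply, zpow_add, Finset.prod_mul_distrib, Units.val_mul]

/-- The value of a Laurent monomial, as a homomorphism. -/
noncomputable def monHom (d : ℕ) : Multiplicative (Ex d) →* ℂ where
  toFun := monVal d
  map_one' := monVal_zero d
  map_mul' := monVal_add d

/-- The specialisation `R → ℂ`, `u_j ↦ ζ_d^j`, `v_j ↦ (-1)^j`. -/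
noncomputable def specR (d : ℕ) : Rd d →+* ℂ :=
  (AddMonoidAlgebra.lift ℤ ℂ (Ex d) (monHom d)).toRingHom

theorem starR_mon (d : ℕ) (a : Ex d) :
    starR d (mon d a : Rd d) = (((mon d a)⁻¹ : (Rd d)ˣ) : Rd d) := by
  have h : AddMonoidAlgebra.mapDomainRingHom ℤ (negEx d)
      (AddMonoidAlgebra.single a 1 : AddMonoidAlgebra ℤ (Ex d)) =
      AddMonoidAlgebra.single (-a) 1 := by
    simp [negEx]
  exact h

theorem specR_mon (d : ℕ) (a : Ex d) :
    specR d (mon d a : Rd d) = ((∏ x, valR d x ^ (a x) : ℂˣ) : ℂ) := by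
  have h : (AddMonoidAlgebra.lift ℤ ℂ (Ex d) (monHom d))
      (AddMonoidAlgebra.single a 1 : AddMonoidAlgebra ℤ (Ex d)) = monVal d a := by
    rw [AddMonoidAlgebra.lift_single, one_smul]
    rfl
  exact h

theorem starR_starR (d : ℕ) (x : Rd d) : starR d (starR d x) = x := by
  have h : (AddMonoidAlgebra.mapDomainRingHom ℤ (negEx d)).comp
      (AddMonoidAlgebra.mapDomainRingHom ℤ (negEx d)) =
      RingHom.id (AddMonoidAlgebra ℤ (Ex d)) := by
    rw [← AddMonoidAlgebra.mapDomainRingHom_comp]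
    have h1 : (negEx d).comp (negEx d) = AddMonoidHom.id _ := by ext; simp [negEx]
    rw [h1, AddMonoidAlgebra.mapDomainRingHom_id]
  exact congrArg (fun f : AddMonoidAlgebra ℤ (Ex d) →+* AddMonoidAlgebra ℤ (Ex d) => f x) h

theorem starR_u (d : ℕ) (j : Fin d) : starR d (uR d j) = (((uR d j)⁻¹ : (Rd d)ˣ) : Rd d) := by
  unfold uR
  split_ifs
  · exact starR_mon d _
  · simp

theorem starR_v (d : ℕ) (j : Fin 2) : starR d (vR d j) = (((vR d j)⁻¹ : (Rd d)ˣ) : Rd d) :=
  starR_mon d _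

theorem specR_v (d : ℕ) (j : Fin 2) : specR d (vR d j) = (-1) ^ (j : ℕ) := by
  unfold vR
  rw [specR_mon, Finset.prod_eq_single (Sum.inr j)]
  · rw [Pi.single_eq_same, zpow_one]
    simp [valR, zd]
  · intro b _ hb
    rw [Pi.single_eq_of_ne hb, zpow_zero]
  · intro h; exact absurd (Finset.mem_univ _) h

theorem specR_u (d : ℕ) (hd : 0 < d) (j : Fin d) :
    specR d (uR d j) = Complex.exp (2 * Real.pi * Complex.I / (d : ℂ)) ^ (j : ℕ) := by
  unfold uR
  split_ifs with h
  · rw [specR_mon, Finset.prod_eq_single (Sum.inl ⟨j, h⟩)]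
    · rw [Pi.single_eq_same, zpow_one]
      simp [valR, zd]
    · intro b _ hb
      rw [Pi.single_eq_of_ne hb, zpow_zero]
    · intro h; exact absurd (Finset.mem_univ _) h
  · have hj : (j : ℕ) = 0 := by
      have := j.2
      omega
    rw [hj, pow_zero, Units.val_one, map_one]

end Pool.Agent.Lib.H10BMM
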