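import Pool.Agent.Lib.H10BMM.Defs
import Pool.Agent.Lib.H10BMM.Laurent

/-!
# The statement: braid group, generic Hecke algebra and BMM trace of `G(de,e,n)`
-/

namespace Pool.Agent.Lib.H10BMM

open Polynomial (C aeval)
open scoped Polynomial

/-- The group `W = G(de,e,n)`. -/
def WG (d e n : ℕ) : Type := Gg d e n

instance instWG (d e n : ℕ) : Group (WG d e n) := (Gg d e n).toGroup

/-- The braid group `B(W)`: the preimage of `W` in `Gam d e n`. -/
def BraidW (d e n : ℕ) : Type := BW d e n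

noncomputable instance instBraidW (d e n : ℕ) : Group (BraidW d e n) := (BW d e n).toGroup

/-- The inclusion `B(W) → Gam d e n`. -/
noncomputable def inc (d e n : ℕ) : BraidW d e n →* Gam d e n := (BW d e n).subtype

/-- The projection `B(W) → W`. -/
noncomputable def pr (d e n : ℕ) : BraidW d e n →* WG d e n :=
  (proj d e n).subgroupComap (Gg d e n)

/-- The full twist `π = (t_0 t_1 ⋯ t_{n-1}) ^ (n d e)`, an element of `B(W)`. -/
noncomputable def twist (d e n : ℕ) : BraidW d e n := piB d e n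

/-- `x` is conjugate to `t_0 ^ e`. -/
def IsRef0 (d e n : ℕ) (x : BraidW d e n) : Prop :=
  ∃ g : Gam d e n, inc d e n x = g * tg d e n 0 ^ e * g⁻¹

/-- `x` is conjugate to one of `t_1, …, t_{n-1}`. -/
def IsRef1 (d e n : ℕ) (x : BraidW d e n) : Prop :=
  ∃ (g : Gam d e n) (i : ℕ), 0 < i ∧ i < n ∧ inc d e n x = g * tg d e n i * g⁻¹

/-- The group algebra `R[B(W)]`. -/
def GrAlg (d e n : ℕ) : Type := MonoidAlgebra (Rd d) (BraidW d e n)

noncomputable instance instGrAlg (d e n : ℕ) : Ring (GrAlg d e n) :=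
  (MonoidAlgebra.ring : Ring (MonoidAlgebra (Rd d) (BraidW d e n)))

noncomputable instance instGrAlg2 (d e n : ℕ) : Algebra (Rd d) (GrAlg d e n) :=
  (MonoidAlgebra.algebra : Algebra (Rd d) (MonoidAlgebra (Rd d) (BraidW d e n)))

/-- The inclusion `B(W) → R[B(W)]`. -/
noncomputable def ofB (d e n : ℕ) : BraidW d e n →* GrAlg d e n :=
  MonoidAlgebra.of (Rd d) (BraidW d e n)

/-- `∏_j (X - u_j)`. -/
noncomputable def polU (d : ℕ) : (Rd d)[X] := ∏ j : Fin d, (Polynomial.X - C (uR d j : Rd d))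

/-- `(X - v_0) (X - v_1)`. -/
noncomputable def polV (d : ℕ) : (Rd d)[X] := (Polynomial.X - C (vR d 0 : Rd d)) * (Polynomial.X - C (vR d 1 : Rd d))

/-- The relations of the Hecke algebra of `W = G(de,e,n)`: if `d ≠ 1`, then `∏_j (x - u_j) = 0` for
every conjugate `x` of `t_0 ^ e`, and `(x - v_0) (x - v_1) = 0` for every conjugate `x` of `t_i`,
`0 < i < n`. -/
inductive WRel (d e n : ℕ) : GrAlg d e n → GrAlg d e n → Prop
  | c0 (x : BraidW d e n) (hx : IsRef0 d e n x) (hd : d ≠ 1) :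
      WRel d e n (aeval (ofB d e n x) (polU d)) 0
  | c1 (x : BraidW d e n) (hx : IsRef1 d e n x) :
      WRel d e n (aeval (ofB d e n x) (polV d)) 0

/-- The generic Hecke algebra `H(W)` of `W = G(de,e,n)`. -/
def HeckeAlg (d e n : ℕ) : Type := RingQuot (WRel d e n)

/-- Its ring structure (that of Mathlib). -/
noncomputable def instHeckeAlg (d e n : ℕ) : Ring (HeckeAlg d e n) :=
  (RingQuot.instRing (WRel d e n) : Ring (RingQuot (WRel d e n)))

attribute [instance] instHeckeAlg

/-- Its algebra structure (that of Mathlib). -/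
noncomputable def instHeckeAlg2 (d e n : ℕ) : Algebra (Rd d) (HeckeAlg d e n) :=
  (RingQuot.instAlgebra (WRel d e n) : Algebra (Rd d) (RingQuot (WRel d e n)))

attribute [instance] instHeckeAlg2

/-- The quotient map `R[B(W)] → H(W)`. -/
noncomputable def mkH (d e n : ℕ) : GrAlg d e n →ₐ[Rd d] HeckeAlg d e n :=
  RingQuot.mkAlgHom (Rd d) (WRel d e n)

/-- The natural map `β ↦ T_β`. -/
noncomputable def TB (d e n : ℕ) (β : BraidW d e n) : HeckeAlg d e n := mkH d e n (ofB d e n β)

/-- The linear form `y ↦ τ (x y)`. -/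
noncomputable def lform (d e n : ℕ) (τ : HeckeAlg d e n →ₗ[Rd d] Rd d) (x : HeckeAlg d e n) :
    HeckeAlg d e n →ₗ[Rd d] Rd d := τ ∘ₗ LinearMap.mulLeft (Rd d) x

/-- The value `τ (T_β)`. -/
noncomputable def tauT (d e n : ℕ) (τ : HeckeAlg d e n →ₗ[Rd d] Rd d) (β : BraidW d e n) : Rd d :=
  τ (TB d e n β)

open Classical in
/-- `τ` is the BMM trace of the generic Hecke algebra of `G(de,e,n)`. -/
structure IsBMMTrace (d e n : ℕ) (τ : HeckeAlg d e n →ₗ[Rd d] Rd d) : Prop where
  trace : ∀ x y, τ (x * y) = τ (y * x)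
  symm : Function.Bijective (lform d e n τ)
  spec : ∀ β : BraidW d e n, specR d (tauT d e n τ β) = if pr d e n β = 1 then 1 else 0
  unit : IsUnit (tauT d e n τ (twist d e n))
  star : ∀ β : BraidW d e n, starR d (tauT d e n τ β⁻¹) * tauT d e n τ (twist d e n) =
    tauT d e n τ (β * twist d e n)

end Pool.Agent.Lib.H10BMM
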