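import Pool.Agent.Lib.H10BMM.Final
import Pool.Agent.Lib.H10BMM.Stm

/-!
# The main theorem in the form of the statement
-/

namespace Pool.Agent.Lib.H10BMM

open Polynomial (C aeval)
open scoped Polynomial

universe u'

open Classical in
theorem main_r {A : Type u'} [CommRing A] {d e n : ℕ} (hd : 0 < d) (he : 0 < e) (hn : 0 < n)
    (u : Fin d → Aˣ) (v : Fin 2 → Aˣ) (hu1 : d = 1 → ∀ j, u j = 1) {st : A →+* A} {sp : A →+* ℂ}
    {z : ℂ} (hst : ∀ x, st (st x) = x) (hstu : ∀ j, st (u j) = (((u j)⁻¹ : Aˣ) : A))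
    (hstv : ∀ j, st (v j) = (((v j)⁻¹ : Aˣ) : A)) (hz : IsPrimitiveRoot z d)
    (hspu : ∀ j : Fin d, sp (u j) = z ^ (j : ℕ)) (hspv : ∀ j : Fin 2, sp (v j) = (-1) ^ (j : ℕ))
    (r : MonoidAlgebra A (BW d e n) → MonoidAlgebra A (BW d e n) → Prop)
    (hr : r = HRel d e n u v) :
    ∃ τ : RingQuot r →ₗ[A] A, ((∀ x y, τ (x * y) = τ (y * x)) ∧
      Function.Bijective (fun x => (τ ∘ₗ LinearMap.mulLeft A x : RingQuot r →ₗ[A] A)) ∧
      (∀ β : BW d e n, sp (τ (RingQuot.mkAlgHom A r (MonoidAlgebra.of A _ β))) =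
        if proj d e n β = 1 then 1 else 0) ∧
      IsUnit (τ (RingQuot.mkAlgHom A r (MonoidAlgebra.of A _ (piB d e n)))) ∧
      (∀ β : BW d e n, st (τ (RingQuot.mkAlgHom A r (MonoidAlgebra.of A _ β⁻¹))) *
        τ (RingQuot.mkAlgHom A r (MonoidAlgebra.of A _ (piB d e n))) =
        τ (RingQuot.mkAlgHom A r (MonoidAlgebra.of A _ (β * piB d e n))))) ∧
      ∃ s : Gg d e n → BW d e n, (∀ g, proj d e n (s g) = g) ∧ s 1 = 1 ∧
        (∀ g, τ (RingQuot.mkAlgHom A r (MonoidAlgebra.of A _ (s g))) = if g = 1 then 1 else 0) ∧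
        ∃ b : Module.Basis (Gg d e n) A (RingQuot r),
          ∀ g, b g = RingQuot.mkAlgHom A r (MonoidAlgebra.of A _ (s g)) := by
  subst hr
  obtain ⟨τ, hτ, s, h1, h2, h3, b, h4⟩ :=
    main_general hd he hn u v hu1 hst hstu hstv hz hspu hspv
  exact ⟨τ, ⟨hτ.trace, hτ.symm, hτ.spec, hτ.unit, hτ.star⟩, s, h1, h2, h3, b, h4⟩

/-- The relations of the statement are those of the proof. -/
theorem rel_eq (d e n : ℕ) (hn : 0 < n) :
    (WRel d e n : MonoidAlgebra (Rd d) (BW d e n) → MonoidAlgebra (Rd d) (BW d e n) → Prop) =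
      HRel d e n (uR d) (vR d) := by
  funext x y
  apply propext
  constructor
  · intro h
    induction h with
    | c0 x hx hd =>
      obtain ⟨g, hg⟩ := hx
      exact HRel.c0 x g hg hn hd
    | c1 x hx =>
      obtain ⟨g, i, h0, hi, hg⟩ := hx
      exact HRel.c1 x g i h0 hi hg
  · intro h
    induction h with
    | c0 x g hx hn hd => exact WRel.c0 x ⟨g, hx⟩ hd
    | c1 x g i h0 hi hx => exact WRel.c1 x ⟨g, i, h0, hi, hx⟩

open Classical in
theorem main_stm {d e n : ℕ} (hd : 0 < d) (he : 0 < e) (hn : 0 < n) :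
    ∃ τ : HeckeAlg d e n →ₗ[Rd d] Rd d, IsBMMTrace d e n τ ∧
      ∃ s : WG d e n → BraidW d e n, (∀ w, pr d e n (s w) = w) ∧ s 1 = 1 ∧
        (∀ w, tauT d e n τ (s w) = if w = 1 then 1 else 0) ∧
        ∃ b : Module.Basis (WG d e n) (Rd d) (HeckeAlg d e n), ∀ w, b w = TB d e n (s w) := by
  obtain ⟨τ, ⟨t1, t2, t3, t4, t5⟩, s, h1, h2, h3, b, h4⟩ :=
    main_r hd he hn (uR d) (vR d) (fun h1 j => by rw [uR, dif_neg (by simp [h1])])
      (starR_starR d) (starR_u d) (starR_v d) (Complex.isPrimitiveRoot_exp d (by omega))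
      (specR_u d hd) (specR_v d) (WRel d e n) (rel_eq d e n hn)
  refine ⟨τ, ⟨t1, t2, ?_, t4, t5⟩, s, ?_, h2, fun w => (h3 w).trans (if_congr Iff.rfl rfl rfl), b,
    h4⟩
  · intro β
    have h := t3 β
    have h' : (pr d e n β = 1) ↔ (proj d e n (inc d e n β) = 1) :=
      ⟨fun h => congrArg Subtype.val h, fun h => Subtype.ext h⟩
    simp only [h']
    exact h
  · intro w
    exact Subtype.ext (h1 w)

end Pool.Agent.Lib.H10BMM
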