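import Pool.Agent.Lib.H10BMM.Alg

/-!
# The matrices giving the regular representation of `H P (n+1)` over `H P n`

`LM N K` are the `(N+1) × (N+1)` matrices over `K`; the representation lives in
`Matrix (Fin (n+1)) (Fin (n+1)) (LM N (H P n))` : rows are acted on from the right.
-/

namespace Pool.Agent.Lib.H10BMM

open scoped BigOperators
open Matrix

universe u v w

/-- `(N+1) × (N+1)` matrices. -/
abbrev LM (N : ℕ) (K : Type v) : Type v := Matrix (Fin (N + 1)) (Fin (N + 1)) K

section generic

variable {L : Type v} [Ring L] {m : ℕ}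

/-- Block diagonal matrix. -/
def bd (x : L) (M : Matrix (Fin m) (Fin m) L) : Matrix (Fin (m + 1)) (Fin (m + 1)) L :=
  Matrix.of fun i j =>
    Fin.cases (Fin.cases x (fun _ => 0) j) (fun i' => Fin.cases 0 (fun j' => M i' j') j) i

@[simp] theorem bd_zero_zero (x : L) (M : Matrix (Fin m) (Fin m) L) : bd x M 0 0 = x := rfl
@[simp] theorem bd_zero_succ (x : L) (M : Matrix (Fin m) (Fin m) L) (j : Fin m) :
    bd x M 0 j.succ = 0 := rfl
@[simp] theorem bd_succ_zero (x : L) (M : Matrix (Fin m) (Fin m) L) (j : Fin m) :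
    bd x M j.succ 0 = 0 := rfl
@[simp] theorem bd_succ_succ (x : L) (M : Matrix (Fin m) (Fin m) L) (i j : Fin m) :
    bd x M i.succ j.succ = M i j := rfl

theorem bd_mul (x x' : L) (M M' : Matrix (Fin m) (Fin m) L) :
    bd x M * bd x' M' = bd (x * x') (M * M') := by
  ext i j
  refine Fin.cases ?_ (fun i => ?_) i <;> refine Fin.cases ?_ (fun j => ?_) j <;>
    simp [Matrix.mul_apply, Fin.sum_univ_succ]

theorem bd_add (x x' : L) (M M' : Matrix (Fin m) (Fin m) L) :
    bd (x + x') (M + M') = bd x M + bd x' M' := by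
  ext i j
  refine Fin.cases ?_ (fun i => ?_) i <;> refine Fin.cases ?_ (fun j => ?_) j <;> simp

theorem bd_one : bd (1 : L) (1 : Matrix (Fin m) (Fin m) L) = 1 := by
  ext i j
  refine Fin.cases ?_ (fun i => ?_) i <;> refine Fin.cases ?_ (fun j => ?_) j
  · simp
  · rw [bd_zero_succ, Matrix.one_apply_ne (Fin.succ_ne_zero j).symm]
  · rw [bd_succ_zero, Matrix.one_apply_ne (Fin.succ_ne_zero i)]
  · rw [bd_succ_succ, Matrix.one_apply, Matrix.one_apply]
    simp

theorem bd_smul {A : Type u} [CommRing A] [Algebra A L] (r : A) (x : L)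
    (M : Matrix (Fin m) (Fin m) L) : bd (r • x) (r • M) = r • bd x M := by
  ext i j
  refine Fin.cases ?_ (fun i => ?_) i <;> refine Fin.cases ?_ (fun j => ?_) j <;> simp

/-- `bd` as an algebra homomorphism. -/
def bdAlg (A : Type u) [CommRing A] [Algebra A L] (m : ℕ) :
    L × Matrix (Fin m) (Fin m) L →ₐ[A] Matrix (Fin (m + 1)) (Fin (m + 1)) L :=
  AlgHom.ofLinearMap
    { toFun := fun p => bd p.1 p.2
      map_add' := fun _ _ => bd_add _ _ _ _
      map_smul' := fun r _ => bd_smul r _ _ }
    bd_one (fun _ _ => (bd_mul _ _ _ _).symm)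

@[simp] theorem bdAlg_apply (A : Type u) [CommRing A] [Algebra A L] (m : ℕ)
    (p : L × Matrix (Fin m) (Fin m) L) : bdAlg A m p = bd p.1 p.2 := rfl

/-- The matrix of the new generator. -/
def tM {A : Type u} [CommRing A] [Algebra A L] (a b : A) (D s : L) :
    Matrix (Fin (m + 2)) (Fin (m + 2)) L :=
  Matrix.of fun i j =>
    Fin.cases (Fin.cases (a • D) (fun j => Fin.cases 1 (fun _ => 0) j) j)
      (fun i => Fin.cases
        (Fin.cases (b • 1 + (a * a) • (D - D * D)) (fun j => Fin.cases (a • (1 - D)) (fun _ => 0) j) j)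
        (fun i => Fin.cases 0 (fun j => Fin.cases 0 (fun j => if i = j then s else 0) j) j) i) i

variable {A : Type u} [CommRing A] [Algebra A L] (a b : A) (D s : L)

@[simp] theorem tM_00 : tM (m := m) a b D s 0 0 = a • D := rfl
@[simp] theorem tM_01 : tM (m := m) a b D s 0 1 = 1 := rfl
@[simp] theorem tM_01' : tM (m := m) a b D s 0 (Fin.succ 0) = 1 := rfl
@[simp] theorem tM_0j (j : Fin m) : tM (m := m) a b D s 0 j.succ.succ = 0 := rfl
@[simp] theorem tM_10 : tM (m := m) a b D s 1 0 = b • 1 + (a * a) • (D - D * D) := rfl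
@[simp] theorem tM_10' :
    tM (m := m) a b D s (Fin.succ 0) 0 = b • 1 + (a * a) • (D - D * D) := rfl
@[simp] theorem tM_11 : tM (m := m) a b D s 1 1 = a • (1 - D) := rfl
@[simp] theorem tM_11' : tM (m := m) a b D s (Fin.succ 0) (Fin.succ 0) = a • (1 - D) := rfl
@[simp] theorem tM_1j (j : Fin m) : tM (m := m) a b D s 1 j.succ.succ = 0 := rfl
@[simp] theorem tM_1j' (j : Fin m) : tM (m := m) a b D s (Fin.succ 0) j.succ.succ = 0 := rfl
@[simp] theorem tM_i0 (i : Fin m) : tM (m := m) a b D s i.succ.succ 0 = 0 := rfl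
@[simp] theorem tM_i1 (i : Fin m) : tM (m := m) a b D s i.succ.succ 1 = 0 := rfl
@[simp] theorem tM_i1' (i : Fin m) : tM (m := m) a b D s i.succ.succ (Fin.succ 0) = 0 := rfl
@[simp] theorem tM_ij (i j : Fin m) :
    tM (m := m) a b D s i.succ.succ j.succ.succ = if i = j then s else 0 := rfl

theorem one_apply_0_ss (j : Fin m) : (1 : Matrix (Fin (m+2)) (Fin (m+2)) L) 0 j.succ.succ = 0 := 
  Matrix.one_apply_ne (Fin.succ_ne_zero _).symm

theorem one_apply_1_ss (j : Fin m) : (1 : Matrix (Fin (m+2)) (Fin (m+2)) L) 1 j.succ.succ = 0 := 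
  Matrix.one_apply_ne (by rw [ne_eq, Fin.ext_iff]; simp)

theorem tM_quad (hs : Fin m → s * s = a • s + b • (1 : L)) :
    tM (m := m) a b D s * tM a b D s = a • tM a b D s + b • 1 := by
  ext i j
  refine Fin.cases ?_ (fun i => Fin.cases ?_ (fun i => ?_) i) i <;>
    refine Fin.cases ?_ (fun j => Fin.cases ?_ (fun j => ?_) j) j <;>
    simp [Matrix.mul_apply, Fin.sum_univ_succ, Matrix.one_apply]
  · (simp only [mul_add, add_mul, mul_sub, sub_mul, smul_mul_assoc, mul_smul_comm, smul_add,
    smul_sub, mul_one, one_mul, mul_assoc, mul_zero, zero_mul, smul_zero]; try module)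
  · (simp only [mul_add, add_mul, mul_sub, sub_mul, smul_mul_assoc, mul_smul_comm, smul_add,
    smul_sub, mul_one, one_mul, mul_assoc, mul_zero, zero_mul, smul_zero]; try module)
  · intro h; exact absurd h (Fin.succ_ne_zero _).symm
  · (simp only [mul_add, add_mul, mul_sub, sub_mul, smul_mul_assoc, mul_smul_comm, smul_add,
    smul_sub, mul_one, one_mul, mul_assoc, mul_zero, zero_mul, smul_zero]; try module)
  · (simp only [mul_add, add_mul, mul_sub, sub_mul, smul_mul_assoc, mul_smul_comm, smul_add,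
    smul_sub, mul_one, one_mul, mul_assoc, mul_zero, zero_mul, smul_zero]; try module)
  · intro h; rw [Fin.ext_iff] at h; simp at h
  · intro h; rw [Fin.ext_iff] at h; simp at h
  · split_ifs
    · exact hs i
    · simp

theorem sne {k : ℕ} {i j : Fin k} (h : i ≠ j) : i.succ ≠ j.succ :=
  fun e => h (Fin.succ_injective _ e)

/-- Closure of the kernel of a braid relation under `T` (abstractly). -/
theorem vec_braid3 {I : Type*} [Fintype I] [DecidableEq I] {T S : Matrix I I L} 
    (hT : T * T = a • T + b • 1) (hS : S * S = a • S + b • 1) {v : I → L}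
    (hv : v ᵥ* (T * S * T) = v ᵥ* (S * T * S)) : 
    (v ᵥ* T) ᵥ* (T * S * T) = (v ᵥ* T) ᵥ* (S * T * S) := by
  rw [vecMul_vecMul, vecMul_vecMul]
  have e1 : T * (T * S * T) = a • (T * S * T) + b • (S * T) := by
    rw [← mul_assoc, ← mul_assoc, hT]; (simp only [mul_add, add_mul, mul_sub, sub_mul, smul_mul_assoc, mul_smul_comm, smul_add,
    smul_sub, mul_one, one_mul, mul_assoc, mul_zero, zero_mul, smul_zero]; try module)
  have e2 : T * (S * T * S) = (T * S * T) * S := by (simp only [mul_add, add_mul, mul_sub, sub_mul, smul_mul_assoc, mul_smul_comm, smul_add,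
    smul_sub, mul_one, one_mul, mul_assoc, mul_zero, zero_mul, smul_zero]; try module)
  have e3 : (S * T * S) * S = a • (S * T * S) + b • (S * T) := by
    rw [mul_assoc _ S S, hS]; (simp only [mul_add, add_mul, mul_sub, sub_mul, smul_mul_assoc, mul_smul_comm, smul_add,
    smul_sub, mul_one, one_mul, mul_assoc, mul_zero, zero_mul, smul_zero]; try module)
  rw [e1, e2, ← vecMul_vecMul, hv, vecMul_vecMul, e3]
  simp only [vecMul_add, vecMul_smul, hv]

theorem vec_braid4 {I : Type*} [Fintype I] [DecidableEq I] {T t : Matrix I I L} 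
    (hT : T * T = a • T + b • 1) {v : I → L}
    (hv : v ᵥ* (t * T * t * T) = v ᵥ* (T * t * T * t)) : 
    (v ᵥ* T) ᵥ* (t * T * t * T) = (v ᵥ* T) ᵥ* (T * t * T * t) := by
  rw [vecMul_vecMul, vecMul_vecMul]
  have e1 : T * (t * T * t * T) = (T * t * T * t) * T := by (simp only [mul_add, add_mul, mul_sub, sub_mul, smul_mul_assoc, mul_smul_comm, smul_add,
    smul_sub, mul_one, one_mul, mul_assoc, mul_zero, zero_mul, smul_zero]; try module)
  have e2 : T * (T * t * T * t) = a • (T * t * T * t) + b • (t * T * t) := by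
    rw [← mul_assoc, ← mul_assoc, ← mul_assoc, hT]; (simp only [mul_add, add_mul, mul_sub, sub_mul, smul_mul_assoc, mul_smul_comm, smul_add,
    smul_sub, mul_one, one_mul, mul_assoc, mul_zero, zero_mul, smul_zero]; try module)
  have e3 : (t * T * t * T) * T = a • (t * T * t * T) + b • (t * T * t) := by
    rw [mul_assoc _ T T, hT]; (simp only [mul_add, add_mul, mul_sub, sub_mul, smul_mul_assoc, mul_smul_comm, smul_add,
    smul_sub, mul_one, one_mul, mul_assoc, mul_zero, zero_mul, smul_zero]; try module)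
  rw [e1, e2, ← vecMul_vecMul, ← hv, vecMul_vecMul, e3]
  simp only [vecMul_add, vecMul_smul, hv]

theorem single_vecMul_eq {I : Type*} [Fintype I] [DecidableEq I] (M : Matrix I I L) (i : I) :
    (Pi.single i (1 : L)) ᵥ* M = M i := by
  funext j
  simp [vecMul, dotProduct, Pi.single_apply]

/-- The braid relation of length three between `tM` and a block diagonal matrix. -/
theorem tM_braid3 (E s' : L) (hs : s * s = a • s + b • (1 : L))
    (hs' : Fin m → s' * s' = a • s' + b • (1 : L)) (hss : Fin m → s * s' * s = s' * s * s')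
    (h : D * s = s * E - a • E + a • (E * D)) :
    tM (m := m + 1) a b D s * bd s (tM (m := m) a b E s') * tM (m := m + 1) a b D s =
      bd s (tM (m := m) a b E s') * tM (m := m + 1) a b D s * bd s (tM (m := m) a b E s') := by
  set T : Matrix (Fin (m + 3)) (Fin (m + 3)) L := tM (m := m + 1) a b D s with hTdef
  set S : Matrix (Fin (m + 3)) (Fin (m + 3)) L := bd s (tM (m := m) a b E s') with hSdef
  have hT : T * T = a • T + b • 1 := tM_quad a b D s (fun _ => hs)
  have hS : S * S = a • S + b • 1 := by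
    rw [hSdef, bd_mul, tM_quad a b E s' hs', hs, bd_add, bd_smul, bd_smul, bd_one]
  have hDsD : D * (s * D) = s * (E * D) - a • (E * D) + a • (E * (D * D)) := by
    rw [← mul_assoc, h]; (simp only [mul_add, add_mul, mul_sub, sub_mul, smul_mul_assoc, mul_smul_comm, smul_add,
    smul_sub, mul_one, one_mul, mul_assoc, mul_zero, zero_mul, smul_zero]; try module)
  have hsDs : s * (D * s) = b • E + a • (s * (E * D)) := by
    have e : s * (s * E) = a • (s * E) + b • E := by
      rw [← mul_assoc, hs]; (simp only [mul_add, add_mul, mul_sub, sub_mul, smul_mul_assoc, mul_smul_comm, smul_add,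
    smul_sub, mul_one, one_mul, mul_assoc, mul_zero, zero_mul, smul_zero]; try module)
    rw [h, mul_add, mul_sub, e]; (simp only [mul_add, add_mul, mul_sub, sub_mul, smul_mul_assoc, mul_smul_comm, smul_add,
    smul_sub, mul_one, one_mul, mul_assoc, mul_zero, zero_mul, smul_zero]; try module)
  have r0 : (Pi.single 0 (1 : L)) ᵥ* (T * S * T) = (Pi.single 0 (1 : L)) ᵥ* (S * T * S) := by
    rw [single_vecMul_eq, single_vecMul_eq]
    funext j
    rw [mul_assoc, mul_assoc]
    refine Fin.cases ?_ (fun j => Fin.cases ?_ (fun j => Fin.cases ?_ (fun j => ?_) j) j) j <;>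
      simp [Matrix.mul_apply, Fin.sum_univ_succ, hTdef, hSdef, -Fin.succ_zero_eq_one,
        -Fin.succ_zero_eq_one', -Fin.succ_one_eq_two, -Fin.succ_one_eq_two']
    · rw [hDsD, hsDs]; (simp only [mul_add, add_mul, mul_sub, sub_mul, smul_mul_assoc, mul_smul_comm, smul_add,
    smul_sub, mul_one, one_mul, mul_assoc, mul_zero, zero_mul, smul_zero]; try module)
    · rw [h]; (simp only [mul_add, add_mul, mul_sub, sub_mul, smul_mul_assoc, mul_smul_comm, smul_add,
    smul_sub, mul_one, one_mul, mul_assoc, mul_zero, zero_mul, smul_zero]; try module)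
  have r0T : (Pi.single 0 (1 : L)) ᵥ* T =
      (a • D) • Pi.single 0 (1 : L) + Pi.single (Fin.succ 0) (1 : L) := by
    rw [single_vecMul_eq]
    funext j
    refine Fin.cases ?_ (fun j => Fin.cases ?_ (fun j => ?_) j) j
    · simp [hTdef, Pi.single_apply]
    · simp [hTdef, Pi.single_apply]
    · rw [hTdef, tM_0j, Pi.add_apply, Pi.smul_apply, Pi.single_apply, Pi.single_apply,
        if_neg (Fin.succ_ne_zero _), if_neg (sne (Fin.succ_ne_zero _))]
      simp
  have r1 : (Pi.single (Fin.succ 0) (1 : L)) ᵥ* (T * S * T) =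
      (Pi.single (Fin.succ 0) (1 : L)) ᵥ* (S * T * S) := by
    have e := vec_braid3 a b hT hS r0
    rw [r0T, add_vecMul, add_vecMul, smul_vecMul, smul_vecMul, r0] at e
    exact add_left_cancel e
  have r1S : (Pi.single (Fin.succ 0) (1 : L)) ᵥ* S =
      (a • E) • Pi.single (Fin.succ 0) (1 : L) + Pi.single (Fin.succ (Fin.succ 0)) (1 : L) := by
    rw [single_vecMul_eq]
    funext j
    refine Fin.cases ?_ (fun j => Fin.cases ?_ (fun j => Fin.cases ?_ (fun j => ?_) j) j) j
    · rw [hSdef, bd_succ_zero, Pi.add_apply, Pi.smul_apply, Pi.single_apply, Pi.single_apply,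
        if_neg (Fin.succ_ne_zero _).symm, if_neg (Fin.succ_ne_zero _).symm]
      simp
    · rw [hSdef, bd_succ_succ, Pi.add_apply, Pi.smul_apply, Pi.single_apply, Pi.single_apply,
        if_pos rfl, if_neg (sne (Fin.succ_ne_zero _).symm)]
      simp
    · rw [hSdef, bd_succ_succ, Pi.add_apply, Pi.smul_apply, Pi.single_apply, Pi.single_apply,
        if_neg (sne (Fin.succ_ne_zero _)), if_pos rfl]
      simp
    · rw [hSdef, bd_succ_succ, Pi.add_apply, Pi.smul_apply, Pi.single_apply, Pi.single_apply,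
        if_neg (sne (Fin.succ_ne_zero _)), if_neg (sne (sne (Fin.succ_ne_zero _))), tM_0j]
      simp
  have r2 : (Pi.single (Fin.succ (Fin.succ 0)) (1 : L)) ᵥ* (T * S * T) =
      (Pi.single (Fin.succ (Fin.succ 0)) (1 : L)) ᵥ* (S * T * S) := by
    have e := vec_braid3 a b hS hT r1.symm
    rw [r1S, add_vecMul, add_vecMul, smul_vecMul, smul_vecMul, r1] at e
    exact (add_left_cancel e).symm
  ext i j
  refine Fin.cases ?_ (fun i => Fin.cases ?_ (fun i => Fin.cases ?_ (fun i => ?_) i) i) i
  · have := congrFun r0 j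
    rwa [single_vecMul_eq, single_vecMul_eq] at this
  · have := congrFun r1 j
    rwa [single_vecMul_eq, single_vecMul_eq] at this
  · have := congrFun r2 j
    rwa [single_vecMul_eq, single_vecMul_eq] at this
  · rw [mul_assoc, mul_assoc]
    refine Fin.cases ?_ (fun j => Fin.cases ?_ (fun j => Fin.cases ?_ (fun j => ?_) j) j) j <;>
      simp [Matrix.mul_apply, Fin.sum_univ_succ, hTdef, hSdef, -Fin.succ_zero_eq_one,
        -Fin.succ_zero_eq_one', -Fin.succ_one_eq_two, -Fin.succ_one_eq_two']
    rw [← mul_assoc, hss i, mul_assoc]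

/-- Commutation of `tM` with a doubly block diagonal matrix. -/
theorem tM_comm (g : L) (M : Matrix (Fin m) (Fin m) L) (hD : D * g = g * D)
    (hM : ∀ i j, s * M i j = M i j * s) :
    tM (m := m) a b D s * bd g (bd g M) = bd g (bd g M) * tM (m := m) a b D s := by
  have hDD : D * D * g = g * (D * D) := by rw [mul_assoc, hD, ← mul_assoc, hD, mul_assoc]
  ext i j
  refine Fin.cases ?_ (fun i => Fin.cases ?_ (fun i => ?_) i) i <;>
    refine Fin.cases ?_ (fun j => Fin.cases ?_ (fun j => ?_) j) j <;>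
    simp [Matrix.mul_apply, Fin.sum_univ_succ, -Fin.succ_zero_eq_one,
        -Fin.succ_zero_eq_one', -Fin.succ_one_eq_two, -Fin.succ_one_eq_two']
  · rw [hD]
  · rw [add_mul, mul_add, smul_mul_assoc, smul_mul_assoc, mul_smul_comm, mul_smul_comm, sub_mul,
      mul_sub, hD, hDD]
    simp
  · rw [sub_mul, mul_sub, hD]; simp
  · rw [hM]

/-- The braid relation of length four. -/
theorem tM_braid4 (t C : L) (M : Matrix (Fin 1) (Fin 1) L) (hM : M 0 0 = C)
    (hDt : D * t = t * D)
    (htC : t * C = C * t)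
    (h : (C - t) * (C - D * (C - t)) = 0) :
    bd t M * tM (m := 0) a b D s * bd t M * tM (m := 0) a b D s =
    tM (m := 0) a b D s * bd t M * tM (m := 0) a b D s * bd t M := by
  set T : Matrix (Fin 2) (Fin 2) L := tM (m := 0) a b D s with hTdef
  set S : Matrix (Fin 2) (Fin 2) L := bd t M with hSdef
  have hT : T * T = a • T + b • 1 := tM_quad a b D s (fun i => i.elim0)
  have S00 : S 0 0 = t := rfl
  have S01 : S 0 1 = 0 := rfl
  have S10 : S 1 0 = 0 := rfl
  have S11 : S 1 1 = C := hM
  have key : t * t * D + t * C - t * C * D - t * D * C - C * C + C * D * C = 0 := by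
    have e : (C - t) * (C - D * (C - t)) =
      -(t * t * D + t * C - t * C * D - t * D * C - C * C + C * D * C) := by
      have e1 : C * D * t = C * t * D := by rw [mul_assoc, hDt, mul_assoc]
      have e2 : t * D * t = t * t * D := by rw [mul_assoc, hDt, mul_assoc]
      have e3 : (C - t) * (C - D * (C - t)) =
        C * C - C * D * C + C * D * t - t * C + t * D * C - t * D * t := by noncomm_ring
      rw [e3, e1, e2, htC]
      noncomm_ring
    rw [h] at e
    exact (neg_eq_zero.mp e.symm)
  have key2 : t * (t * D) + t * (C * (1 - D)) = t * (D * C) + C * ((1 - D) * C) := by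
    have e : t * (t * D) + t * (C * (1 - D)) - (t * (D * C) + C * ((1 - D) * C)) =
      t * t * D + t * C - t * C * D - t * D * C - C * C + C * D * C := by noncomm_ring
    rw [key] at e
    exact sub_eq_zero.mp e
  have r0 : (Pi.single 0 (1 : L)) ᵥ* (S * T * S * T) = (Pi.single 0 (1 : L)) ᵥ* (T * S * T * S) := by
    rw [single_vecMul_eq, single_vecMul_eq]
    funext j
    rw [mul_assoc, mul_assoc, mul_assoc, mul_assoc]
    have hD2 : ∀ x, D * (t * x) = t * (D * x) := fun x => by rw [← mul_assoc, hDt, mul_assoc]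
    have hC2 : ∀ x, C * (t * x) = t * (C * x) := fun x => by rw [← mul_assoc, ← htC, mul_assoc]
    fin_cases j
    · simp [Matrix.mul_apply, Fin.sum_univ_two, hTdef, S00, S01, S10, S11]
      simp only [mul_add, add_mul, mul_sub, sub_mul, smul_mul_assoc, mul_smul_comm, smul_add,
        smul_sub, mul_one, one_mul, mul_assoc, hDt, ← htC, hD2, hC2]
    · simp [Matrix.mul_apply, Fin.sum_univ_two, hTdef, S00, S01, S10, S11]
      rw [hDt, hD2, mul_add, mul_smul_comm, mul_smul_comm, ← smul_add, key2, smul_add]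
  have r0T : (Pi.single 0 (1 : L)) ᵥ* T =
      (a • D) • Pi.single 0 (1 : L) + Pi.single 1 (1 : L) := by
    rw [single_vecMul_eq]
    funext j
    fin_cases j <;> simp [hTdef, Pi.single_apply]
  have r1 : (Pi.single 1 (1 : L)) ᵥ* (S * T * S * T) =
      (Pi.single 1 (1 : L)) ᵥ* (T * S * T * S) := by
    have e := vec_braid4 a b hT r0
    rw [r0T, add_vecMul, add_vecMul, smul_vecMul, smul_vecMul, r0] at e
    exact add_left_cancel e
  ext i j
  fin_cases i
  · have := congrFun r0 j
    rwa [single_vecMul_eq, single_vecMul_eq] at this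
  · have := congrFun r1 j
    rwa [single_vecMul_eq, single_vecMul_eq] at this

end generic

end Pool.Agent.Lib.H10BMM
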