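import Pool.Agent.Lib.H10BMM.Star

/-!
# The parameters given by `u : Fin d → Aˣ`, `v : Fin 2 → Aˣ` and `e`
-/

namespace Pool.Agent.Lib.H10BMM

open scoped BigOperators
open Polynomial

universe u' v'

variable {A : Type u'} [CommRing A]

/-- `∏_j (Polynomial.X ^ e - u_j)`. -/
noncomputable def pol {d : ℕ} (e : ℕ) (u : Fin d → Aˣ) : A[X] :=
  ∏ j : Fin d, (Polynomial.X ^ e - C ((u j : Aˣ) : A))

section pol

variable {d e : ℕ} (he : 0 < e) (u : Fin d → Aˣ)

include he in
theorem factor_monic (j : Fin d) : (Polynomial.X ^ e - C ((u j : Aˣ) : A)).Monic :=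
  monic_X_pow_sub_C _ (by omega)

include he in
theorem pol_monic : (pol e u).Monic := monic_prod_of_monic _ _ fun j _ => factor_monic he u j

include he in
theorem pol_natDegree [Nontrivial A] : (pol e u).natDegree = d * e := by
  unfold pol
  rw [natDegree_prod_of_monic _ _ fun j _ => factor_monic he u j]
  simp only [natDegree_X_pow_sub_C, Finset.sum_const, Finset.card_univ, Fintype.card_fin,
    smul_eq_mul]

include he in
theorem pol_natDegree_le : (pol e u).natDegree ≤ d * e := by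
  unfold pol
  refine (natDegree_prod_le _ _).trans ?_
  refine (Finset.sum_le_card_nsmul _ _ e fun j _ => ?_).trans (by simp)
  refine (natDegree_sub_le _ _).trans ?_
  simp only [natDegree_C, max_le_iff, zero_le, and_true]
  exact natDegree_X_pow_le _

include he in
theorem pol_coeff_top : (pol e u).coeff (d * e) = 1 := by
  cases subsingleton_or_nontrivial A with
  | inl h => exact Subsingleton.elim _ _
  | inr h =>
    have h1 := (pol_monic he u).coeff_natDegree
    rwa [pol_natDegree he u] at h1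

include he in
theorem pol_coeff_zero : (pol e u).coeff 0 = ∏ j : Fin d, (-((u j : Aˣ) : A)) := by
  unfold pol
  rw [coeff_zero_prod]
  refine Finset.prod_congr rfl fun j _ => ?_
  rw [coeff_sub, coeff_X_pow, if_neg (by omega), coeff_C_zero, zero_sub]

theorem aeval_pol_eq {K : Type v'} [Ring K] [Algebra A K] (t : K) (he : 0 < e) :
    aeval t (pol e u) = t ^ (d * e) + ∑ k ∈ Finset.range (d * e), (pol e u).coeff k • t ^ k := by
  rw [aeval_eq_sum_range' (Nat.lt_succ_of_le (pol_natDegree_le he u)), Finset.sum_range_succ,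
    pol_coeff_top he u, one_smul, add_comm]

end pol

/-- The parameters. -/
noncomputable def parOf {d e : ℕ} (he : 0 < e) (u : Fin d → Aˣ) (v : Fin 2 → Aˣ) :
    Par A (d * e - 1) where
  c k := -(pol e u).coeff k
  c0 := -∏ j : Fin d, (-u j)
  hc0 := by
    rw [Fin.val_zero, pol_coeff_zero he u]
    simp
  a := ((v 0 : Aˣ) : A) + ((v 1 : Aˣ) : A)
  b := -(v 0 * v 1)

section parOf

variable {d e : ℕ} (he : 0 < e) (hd : 0 < d) (u : Fin d → Aˣ) (v : Fin 2 → Aˣ)

include hd in
theorem parOf_pol_iff {K : Type v'} [Ring K] [Algebra A K] (t : K) :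
    t ^ (d * e - 1 + 1) = ∑ k : Fin (d * e - 1 + 1), (parOf he u v).c k • t ^ (k : ℕ) ↔
      aeval t (pol e u) = 0 := by
  have hde : d * e - 1 + 1 = d * e := Nat.sub_add_cancel (Nat.mul_pos hd he)
  have h1 : ∑ k : Fin (d * e - 1 + 1), (parOf he u v).c k • t ^ (k : ℕ) =
      -∑ k ∈ Finset.range (d * e), (pol e u).coeff k • t ^ k := by
    have h2 := Fin.sum_univ_eq_sum_range (fun k => -(pol e u).coeff k • t ^ k) (d * e - 1 + 1)
    have h3 : ∑ k ∈ Finset.range (d * e - 1 + 1), -(pol e u).coeff k • t ^ k =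
        ∑ k ∈ Finset.range (d * e), -(pol e u).coeff k • t ^ k := by rw [hde]
    refine (h2.trans h3).trans ?_
    rw [← Finset.sum_neg_distrib]
    refine Finset.sum_congr rfl fun k _ => ?_
    rw [neg_smul]
  rw [h1, hde, aeval_pol_eq u t he, eq_neg_iff_add_eq_zero]

theorem quad_iff {K : Type v'} [Ring K] [Algebra A K] (t : K) :
    t * t = (parOf he u v).a • t + ((parOf he u v).b : A) • (1 : K) ↔
      aeval t ((Polynomial.X - C ((v 0 : Aˣ) : A)) * (Polynomial.X - C ((v 1 : Aˣ) : A))) = 0 := by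
  have h1 : aeval t ((Polynomial.X - C ((v 0 : Aˣ) : A)) * (Polynomial.X - C ((v 1 : Aˣ) : A))) =
      t * t - ((parOf he u v).a • t + ((parOf he u v).b : A) • (1 : K)) := by
    rw [map_mul, map_sub, map_sub, aeval_X, aeval_C, aeval_C, Algebra.algebraMap_eq_smul_one,
      Algebra.algebraMap_eq_smul_one]
    change _ = t * t - ((((v 0 : Aˣ) : A) + ((v 1 : Aˣ) : A)) • t +
      ((-(v 0 * v 1) : Aˣ) : A) • (1 : K))
    rw [Units.val_neg, Units.val_mul, sub_mul, mul_sub, mul_sub, smul_mul_assoc, smul_mul_assoc,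
      mul_smul_comm, mul_smul_comm, one_mul, mul_one, mul_one, smul_smul]
    module
  rw [h1, sub_eq_zero]

/-- The reflection of the polynomial. -/
theorem reflect_pol (σ : A →+* A) (hσ : ∀ j, σ (u j) = (((u j)⁻¹ : Aˣ) : A)) :
    reflect (d * e) (pol e u) = C ((∏ j : Fin d, (-u j) : Aˣ) : A) * (pol e u).map σ := by
  have key : ∀ s : Finset (Fin d), reflect (s.card * e) (∏ j ∈ s, (Polynomial.X ^ e - C ((u j : Aˣ) : A))) =
      ∏ j ∈ s, (1 - C ((u j : Aˣ) : A) * Polynomial.X ^ e) := by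
    intro s
    classical
    induction s using Finset.induction_on with
    | empty => simp [reflect_one]
    | insert a s ha ih =>
      rw [Finset.card_insert_of_notMem ha, Finset.prod_insert ha, Finset.prod_insert ha,
        add_mul, one_mul, add_comm, reflect_mul, ih]
      · congr 1
        rw [reflect_sub, reflect_C, reflect_monomial, revAt_le le_rfl, Nat.sub_self, pow_zero]
      · exact (natDegree_sub_le _ _).trans (by
          simp only [natDegree_C, max_le_iff, zero_le, and_true]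
          exact natDegree_X_pow_le _)
      · refine (natDegree_prod_le _ _).trans ?_
        refine (Finset.sum_le_card_nsmul _ _ e fun j _ => ?_).trans (by simp)
        refine (natDegree_sub_le _ _).trans ?_
        simp only [natDegree_C, max_le_iff, zero_le, and_true]
        exact natDegree_X_pow_le _
  have h1 := key Finset.univ
  rw [Finset.card_univ, Fintype.card_fin] at h1
  unfold pol
  rw [h1, Polynomial.map_prod, Units.coe_prod, map_prod, ← Finset.prod_mul_distrib]
  refine Finset.prod_congr rfl fun j _ => ?_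
  rw [Polynomial.map_sub, Polynomial.map_pow, Polynomial.map_X, Polynomial.map_C, hσ, mul_sub, ← C_mul,
    Units.val_neg, neg_mul, Units.mul_inv, map_neg, map_neg, C_1]
  ring

theorem parOf_isStar {σ : A →+* A} (hinv : ∀ x, σ (σ x) = x)
    (hu : ∀ j, σ (u j) = (((u j)⁻¹ : Aˣ) : A)) (hv : ∀ j, σ (v j) = (((v j)⁻¹ : Aˣ) : A)) :
    IsStar (parOf he u v) σ := by
  have hprod : σ ((∏ j : Fin d, (-u j) : Aˣ) : A) = (((∏ j : Fin d, (-u j))⁻¹ : Aˣ) : A) := by
    rw [Units.coe_prod, map_prod, ← Finset.prod_inv_distrib, Units.coe_prod]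
    refine Finset.prod_congr rfl fun j _ => ?_
    rw [Units.val_neg, map_neg, hu, inv_neg, Units.val_neg]
  refine ⟨hinv, ?_, ?_, ?_, fun i => ?_⟩
  · change σ (((v 0 : Aˣ) : A) + ((v 1 : Aˣ) : A)) =
      -(((v 0 : Aˣ) : A) + ((v 1 : Aˣ) : A)) * (((-(v 0 * v 1))⁻¹ : Aˣ) : A)
    rw [map_add, hv, hv, inv_neg, mul_inv, Units.val_neg, Units.val_mul]
    have h0 : ((v 0 : Aˣ) : A) * (((v 0)⁻¹ : Aˣ) : A) = 1 := Units.mul_inv _
    have h1 : ((v 1 : Aˣ) : A) * (((v 1)⁻¹ : Aˣ) : A) = 1 := Units.mul_inv _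
    generalize ((v 0 : Aˣ) : A) = x at *
    generalize ((v 1 : Aˣ) : A) = y at *
    generalize (((v 0)⁻¹ : Aˣ) : A) = x' at *
    generalize (((v 1)⁻¹ : Aˣ) : A) = y' at *
    linear_combination (-y') * h0 + (-x') * h1
  · change σ ((-(v 0 * v 1) : Aˣ) : A) = (((-(v 0 * v 1))⁻¹ : Aˣ) : A)
    rw [Units.val_neg, map_neg, Units.val_mul, map_mul, hv, hv, inv_neg, mul_inv, Units.val_neg,
      Units.val_mul]
  · change σ ((-∏ j : Fin d, (-u j) : Aˣ) : A) = (((-∏ j : Fin d, (-u j))⁻¹ : Aˣ) : A)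
    rw [Units.val_neg, map_neg, hprod, inv_neg, Units.val_neg]
  · have hi := i.2
    have h1 := congrArg (fun p => coeff p ((i : ℕ) + 1)) (reflect_pol u σ hu (e := e))
    simp only [coeff_reflect, coeff_C_mul, coeff_map] at h1
    rw [revAt_le (by omega)] at h1
    change σ (-(pol e u).coeff (i.succ : Fin (d * e - 1 + 1))) =
      -(-(pol e u).coeff (i.rev.succ : Fin (d * e - 1 + 1))) *
        (((-∏ j : Fin d, (-u j))⁻¹ : Aˣ) : A)
    rw [Fin.val_succ, Fin.val_succ, Fin.val_rev, map_neg,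
      show d * e - 1 - ((i : ℕ) + 1) + 1 = d * e - ((i : ℕ) + 1) by omega, h1, inv_neg,
      Units.val_neg]
    have h2 : (((∏ j : Fin d, (-u j))⁻¹ : Aˣ) : A) * ((∏ j : Fin d, (-u j) : Aˣ) : A) = 1 :=
      Units.inv_mul _
    linear_combination σ ((pol e u).coeff ((i : ℕ) + 1)) * h2

theorem prod_primitive {B : Type*} [CommRing B] [IsDomain B] {z : B} (hd : 0 < d)
    (hz : IsPrimitiveRoot z d) :
    ∏ j : Fin d, (Polynomial.X - C (z ^ (j : ℕ))) = (Polynomial.X ^ d - 1 : B[X]) := by
  classical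
  have h1 : nthRootsFinset d (1 : B) = (Finset.range d).image (fun j => z ^ j) := by
    ext x
    rw [mem_nthRootsFinset hd, Finset.mem_image]
    constructor
    · intro hx
      haveI : NeZero d := ⟨by omega⟩
      obtain ⟨j, hj, hjx⟩ := hz.eq_pow_of_pow_eq_one hx
      exact ⟨j, Finset.mem_range.mpr hj, hjx⟩
    · rintro ⟨j, _, rfl⟩
      rw [← pow_mul, mul_comm, pow_mul, hz.pow_eq_one, one_pow]
  rw [X_pow_sub_one_eq_prod hd hz, h1, Finset.prod_image]
  · exact Fin.prod_univ_eq_prod_range (fun j => (Polynomial.X - C (z ^ j) : B[X])) d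
  · intro i hi j hj hij
    exact hz.pow_inj (Finset.mem_range.mp hi) (Finset.mem_range.mp hj) hij

include hd in
/-- Under `u_j ↦ ζ_d^j` the polynomial becomes `X ^ (de) - 1`. -/
theorem pol_spec {B : Type*} [CommRing B] [IsDomain B] {θ : A →+* B} {z : B}
    (hz : IsPrimitiveRoot z d) (hu : ∀ j : Fin d, θ (u j) = z ^ (j : ℕ)) :
    (pol e u).map θ = Polynomial.X ^ (d * e) - 1 := by
  unfold pol
  rw [Polynomial.map_prod]
  have h1 : ∀ j : Fin d, ((Polynomial.X ^ e - C ((u j : Aˣ) : A) : A[X]).map θ) =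
      ((Polynomial.X - C (z ^ (j : ℕ)) : B[X]).comp (Polynomial.X ^ e)) := by
    intro j
    rw [Polynomial.map_sub, Polynomial.map_pow, Polynomial.map_X, Polynomial.map_C, hu, sub_comp,
      X_comp, C_comp]
  simp only [h1]
  rw [← prod_comp, prod_primitive hd hz, sub_comp, X_pow_comp, one_comp, ← pow_mul, mul_comm]

end parOf

end Pool.Agent.Lib.H10BMM
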