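import Pool.Agent.Lib.H10BMM.Words

/-!
# The reflection groups `G(de,e,n)`
-/

namespace Pool.Agent.Lib.H10BMM

open scoped BigOperators

/-- The general linear group of `ℂ^n`. -/
abbrev GLn (n : ℕ) : Type := (Fin n → ℂ) ≃ₗ[ℂ] (Fin n → ℂ)

/-- Its group structure (that of Mathlib). -/
instance instGLn (n : ℕ) : Group (GLn n) := LinearEquiv.automorphismGroup

/-- The basis vector `e_j`. -/
abbrev ev {n : ℕ} (j : Fin n) : Fin n → ℂ := Pi.single j 1

theorem ev_apply {n : ℕ} (j i : Fin n) : (ev j) i = if i = j then 1 else 0 := Pi.single_apply _ _ _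

theorem GLn_ext {n : ℕ} {g g' : GLn n} (h : ∀ j, g (ev j) = g' (ev j)) : g = g' := by
  apply LinearEquiv.toLinearMap_injective
  apply LinearMap.pi_ext'
  intro j
  ext
  simpa using congrFun (h j) _

theorem single_eq_smul_ev {n : ℕ} (j : Fin n) (c : ℂ) : (Pi.single j c : Fin n → ℂ) = c • ev j := by
  rw [← Pi.single_smul']
  simp

/-- `g` is a monomial matrix whose nonzero entries are `de`-th roots of unity with product a
`d`-th root of unity. -/
def IsMon (d e n : ℕ) (g : GLn n) : Prop :=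
  ∃ (σ : Equiv.Perm (Fin n)) (θ : Fin n → ℂ), (∀ j, θ j ^ (d * e) = 1) ∧
    (∏ j, θ j) ^ d = 1 ∧ ∀ j, g (Pi.single j 1) = Pi.single (σ j) (θ j)

theorem isMon_one (d e n : ℕ) : IsMon d e n 1 :=
  ⟨1, fun _ => 1, fun _ => one_pow _, by simp, fun j => rfl⟩

theorem isMon_mul (d e n : ℕ) {g g' : GLn n} (h : IsMon d e n g) (h' : IsMon d e n g') :
    IsMon d e n (g * g') := by
  obtain ⟨σ, θ, h1, h2, h3⟩ := h
  obtain ⟨σ', θ', h1', h2', h3'⟩ := h'
  refine ⟨σ * σ', fun j => θ' j * θ (σ' j), fun j => ?_, ?_, fun j => ?_⟩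
  · rw [mul_pow, h1', h1, one_mul]
  · rw [Finset.prod_mul_distrib, Equiv.prod_comp σ' θ, mul_pow, h2, h2', one_mul]
  · rw [LinearEquiv.mul_apply, h3', single_eq_smul_ev, map_smul, h3, ← Pi.single_smul']
    rfl

theorem isMon_inv (d e n : ℕ) {g : GLn n} (h : IsMon d e n g) : IsMon d e n g⁻¹ := by
  obtain ⟨σ, θ, h1, h2, h3⟩ := h
  refine ⟨σ⁻¹, fun j => (θ (σ⁻¹ j))⁻¹, fun j => ?_, ?_, fun j => ?_⟩
  · rw [inv_pow, h1, inv_one]
  · rw [Finset.prod_inv_distrib, Equiv.prod_comp σ⁻¹ θ, inv_pow, h2, inv_one]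
  · have h4 := h3 (σ⁻¹ j)
    rw [show σ (σ⁻¹ j) = j from Equiv.apply_symm_apply σ j] at h4
    have hne : θ (σ⁻¹ j) ≠ 0 := by
      intro h0
      rw [h0, Pi.single_zero] at h4
      have h5 := (map_eq_zero_iff g g.injective).mp h4
      have h6 := congrFun h5 (σ⁻¹ j)
      rw [Pi.single_eq_same] at h6
      exact one_ne_zero h6
    change g.symm (Pi.single j 1) = _
    have h5 : g (Pi.single (σ⁻¹ j) (θ (σ⁻¹ j))⁻¹) = Pi.single j 1 := by
      rw [single_eq_smul_ev, map_smul, h4, ← Pi.single_smul', smul_eq_mul, inv_mul_cancel₀ hne]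
    rw [LinearEquiv.symm_apply_eq, h5]

/-- The group `G(de,e,n)`: the monomial matrices whose nonzero entries are `de`-th roots of unity
with product a `d`-th root of unity. -/
def Gg (d e n : ℕ) : Subgroup (GLn n) where
  carrier := {g | IsMon d e n g}
  one_mem' := isMon_one d e n
  mul_mem' := isMon_mul d e n
  inv_mem' := isMon_inv d e n

theorem mem_Gg {d e n : ℕ} {g : GLn n} : g ∈ Gg d e n ↔
    ∃ (σ : Equiv.Perm (Fin n)) (θ : Fin n → ℂ), (∀ j, θ j ^ (d * e) = 1) ∧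
      (∏ j, θ j) ^ d = 1 ∧ ∀ j, g (Pi.single j 1) = Pi.single (σ j) (θ j) := Iff.rfl

theorem Gg_le (d e n : ℕ) : Gg d e n ≤ Gg (d * e) 1 n := by
  rintro g ⟨σ, θ, h1, h2, h3⟩
  exact ⟨σ, θ, by simpa using h1, by rw [pow_mul, h2, one_pow], h3⟩

/-- Permutation matrices. -/
noncomputable def permHom (n : ℕ) : Equiv.Perm (Fin n) →* GLn n where
  toFun σ := LinearEquiv.funCongrLeft ℂ ℂ σ⁻¹
  map_one' := by ext v j; simp [LinearEquiv.funCongrLeft]
  map_mul' σ τ := by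
    apply LinearEquiv.ext
    intro v
    funext j
    simp [LinearEquiv.funCongrLeft]

theorem permHom_apply {n : ℕ} (σ : Equiv.Perm (Fin n)) (v : Fin n → ℂ) (j : Fin n) :
    permHom n σ v j = v (σ⁻¹ j) := rfl

theorem permHom_ev {n : ℕ} (σ : Equiv.Perm (Fin n)) (j : Fin n) :
    permHom n σ (ev j) = ev (σ j) := by
  funext i
  rw [permHom_apply, ev_apply, ev_apply]
  refine if_congr ?_ rfl rfl
  constructor
  · rintro rfl; exact (Equiv.apply_symm_apply σ i).symm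
  · rintro rfl; exact Equiv.symm_apply_apply σ j

/-- Diagonal matrix with entry `ζ` at position `0` (for `n ≥ 1`). -/
noncomputable def dg (n : ℕ) (ζ : ℂˣ) : GLn n :=
  LinearEquiv.piCongrRight fun j => if (j : ℕ) = 0 then LinearEquiv.smulOfUnit ζ
    else LinearEquiv.refl ℂ ℂ

theorem dg_apply (n : ℕ) (ζ : ℂˣ) (v : Fin n → ℂ) (j : Fin n) :
    dg n ζ v j = (if (j : ℕ) = 0 then (ζ : ℂ) else 1) * v j := by
  rw [dg, LinearEquiv.piCongrRight_apply]
  split_ifs with h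
  · rfl
  · rw [one_mul]; rfl

theorem dg_ev (n : ℕ) (ζ : ℂˣ) (j : Fin n) :
    dg n ζ (ev j) = (if (j : ℕ) = 0 then (ζ : ℂ) else 1) • ev j := by
  funext i
  rw [dg_apply, Pi.smul_apply, smul_eq_mul]
  by_cases h : i = j
  · rw [h]
  · rw [ev_apply, if_neg h, mul_zero, mul_zero]

/-- The generating reflections: `s_0 = diag(ζ,1,…,1)`, `s_i` = permutation matrix of `(i-1 i)`. -/
noncomputable def sr (n : ℕ) (ζ : ℂˣ) (i : ℕ) : GLn n :=
  if h : i < n then
    if i = 0 then dg n ζ else permHom n (Equiv.swap ⟨i - 1, by omega⟩ ⟨i, h⟩)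
  else 1

theorem sr_zero {n : ℕ} (ζ : ℂˣ) (h : 0 < n) : sr n ζ 0 = dg n ζ := by
  rw [sr, dif_pos h, if_pos rfl]

theorem sr_succ {n : ℕ} (ζ : ℂˣ) {i : ℕ} (h : i + 1 < n) :
    sr n ζ (i + 1) = permHom n (Equiv.swap ⟨i, by omega⟩ ⟨i + 1, h⟩) := by
  rw [sr, dif_pos h, if_neg (by omega)]
  rfl

theorem dg_perm_comm {n : ℕ} (ζ : ℂˣ) {i : ℕ} (h0 : 0 < i) (h : i + 1 < n) :
    dg n ζ * permHom n (Equiv.swap ⟨i, by omega⟩ ⟨i + 1, h⟩) =
      permHom n (Equiv.swap ⟨i, by omega⟩ ⟨i + 1, h⟩) * dg n ζ := by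
  apply GLn_ext
  intro j
  rw [LinearEquiv.mul_apply, LinearEquiv.mul_apply, permHom_ev, dg_ev, dg_ev, map_smul, permHom_ev]
  congr 2
  rw [eq_iff_iff]
  rcases eq_or_ne j ⟨i, by omega⟩ with rfl | h1
  · rw [Equiv.swap_apply_left]; simp; omega
  · rcases eq_or_ne j ⟨i + 1, h⟩ with rfl | h2
    · rw [Equiv.swap_apply_right]; simp; omega
    · rw [Equiv.swap_apply_of_ne_of_ne h1 h2]

theorem sr_isBraid (n : ℕ) (ζ : ℂˣ) : IsBraid n (sr n ζ) := by
  refine ⟨fun h1 => ?_, fun i h0 h1 => ?_, fun i j hij hj => ?_⟩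
  · rw [sr_zero ζ (by omega), show (1 : ℕ) = 0 + 1 from rfl, sr_succ ζ (by omega)]
    set τ : Equiv.Perm (Fin n) := Equiv.swap ⟨0, by omega⟩ ⟨0 + 1, by omega⟩ with hτ
    have hττ : ∀ j, τ (τ j) = j := fun j => Equiv.swap_apply_self _ _ j
    apply GLn_ext
    intro j
    simp only [LinearEquiv.mul_apply, permHom_ev, dg_ev, map_smul, smul_smul, hττ]
    rw [mul_comm]
  · obtain ⟨i, rfl⟩ : ∃ k, i = k + 1 := ⟨i - 1, by omega⟩
    rw [sr_succ ζ (by omega), sr_succ ζ h1, ← map_mul, ← map_mul, ← map_mul, ← map_mul]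
    congr 1
    have h01 : (⟨i, by omega⟩ : Fin n) ≠ ⟨i + 1, by omega⟩ := by simp
    have h12 : (⟨i + 1, by omega⟩ : Fin n) ≠ ⟨i + 1 + 1, h1⟩ := by simp
    have h02 : (⟨i, by omega⟩ : Fin n) ≠ ⟨i + 1 + 1, h1⟩ := by
      rw [ne_eq, Fin.ext_iff]; simp; omega
    have h2 := Equiv.swap_mul_swap_mul_swap h01 h02
    have h3 := Equiv.swap_mul_swap_mul_swap h12.symm h02.symm
    rw [Equiv.swap_comm (⟨i + 1, by omega⟩ : Fin n) ⟨i, by omega⟩,
      Equiv.swap_comm (⟨i + 1 + 1, h1⟩ : Fin n) ⟨i + 1, by omega⟩] at h3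
    rw [h2, h3, Equiv.swap_comm]
  · obtain ⟨j, rfl⟩ : ∃ k, j = k + 1 := ⟨j - 1, by omega⟩
    rcases i with _ | i
    · rw [sr_zero ζ (by omega), sr_succ ζ hj]
      exact dg_perm_comm ζ (by omega) hj
    · rw [sr_succ ζ (by omega), sr_succ ζ hj, ← map_mul, ← map_mul]
      congr 1
      have h1 := Equiv.swap_apply_apply
        (Equiv.swap (⟨i, by omega⟩ : Fin n) ⟨i + 1, by omega⟩) ⟨j, by omega⟩ ⟨j + 1, hj⟩
      rw [Equiv.swap_apply_of_ne_of_ne (by rw [ne_eq, Fin.ext_iff]; simp; omega)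
        (by rw [ne_eq, Fin.ext_iff]; simp; omega),
        Equiv.swap_apply_of_ne_of_ne (by rw [ne_eq, Fin.ext_iff]; simp; omega)
        (by rw [ne_eq, Fin.ext_iff]; simp; omega)] at h1
      rw [eq_mul_inv_iff_mul_eq] at h1
      exact h1.symm

section action

variable {n : ℕ} (ζ : ℂˣ)

theorem sr_ev_fix {i : ℕ} (hi : i < n) (m : Fin n) (h : i < (m : ℕ)) :
    sr n ζ i (ev m) = ev m := by
  rcases i with _ | i
  · rw [sr_zero ζ hi, dg_ev, if_neg (by omega), one_smul]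
  · rw [sr_succ ζ hi, permHom_ev, Equiv.swap_apply_of_ne_of_ne]
    · rw [ne_eq, Fin.ext_iff]; simp; omega
    · rw [ne_eq, Fin.ext_iff]; simp; omega

theorem sr_ev_up {i : ℕ} (hi : i + 1 < n) :
    sr n ζ (i + 1) (ev ⟨i, by omega⟩) = ev ⟨i + 1, hi⟩ := by
  rw [sr_succ ζ hi, permHom_ev, Equiv.swap_apply_left]

theorem sr_ev_down {i : ℕ} (hi : i + 1 < n) :
    sr n ζ (i + 1) (ev ⟨i + 1, hi⟩) = ev ⟨i, by omega⟩ := by
  rw [sr_succ ζ hi, permHom_ev, Equiv.swap_apply_right]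

theorem L_ev {k : ℕ} (hk : k < n) (j : Fin n) :
    L (sr n ζ) k (ev j) = (if (j : ℕ) = k then (ζ : ℂ) else 1) • ev j := by
  induction k generalizing j with
  | zero =>
    change sr n ζ 0 (ev j) = _
    rw [sr_zero ζ hk, dg_ev]
  | succ k ih =>
    have h1 := fun j => ih (by omega) j
    change (sr n ζ (k + 1) * L (sr n ζ) k * sr n ζ (k + 1)) (ev j) = _
    rw [LinearEquiv.mul_apply, LinearEquiv.mul_apply]
    by_cases hj1 : (j : ℕ) = k + 1
    · obtain rfl : j = ⟨k + 1, hk⟩ := Fin.ext hj1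
      rw [sr_ev_down ζ hk, h1, if_pos rfl, if_pos rfl, map_smul, sr_ev_up ζ hk]
    · rw [if_neg hj1]
      by_cases hj2 : (j : ℕ) = k
      · have hje : j = ⟨k, by omega⟩ := Fin.ext hj2
        rw [hje, sr_ev_up ζ hk, h1, if_neg (by simp), one_smul, sr_ev_down ζ hk, one_smul]
      · have h2 : sr n ζ (k + 1) (ev j) = ev j := by
          rw [sr_succ ζ hk, permHom_ev, Equiv.swap_apply_of_ne_of_ne]
          · rw [ne_eq, Fin.ext_iff]; exact hj2
          · rw [ne_eq, Fin.ext_iff]; exact hj1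
        rw [h2, h1, if_neg hj2, one_smul, h2]

theorem L_pow_ev {k : ℕ} (hk : k < n) (j : Fin n) (m : ℕ) :
    (L (sr n ζ) k ^ m) (ev j) = (if (j : ℕ) = k then (ζ : ℂ) else 1) ^ m • ev j := by
  induction m with
  | zero => simp
  | succ m ih => rw [pow_succ', LinearEquiv.mul_apply, ih, map_smul, L_ev ζ hk, smul_smul, ← pow_succ]

theorem w_ev {N : ℕ} {m : ℕ} (hm : m < n) (j : Fin (m + 1)) (k : Fin (N + 1)) :
    w (sr n ζ) N m j k (ev ⟨m - j, by omega⟩) = (ζ : ℂ) ^ (k : ℕ) • ev ⟨m, hm⟩ := by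
  induction m with
  | zero =>
    obtain rfl : j = 0 := Fin.fin_one_eq_zero j
    change (L (sr n ζ) 0 ^ (k : ℕ)) (ev ⟨0, _⟩) = _
    rw [L_pow_ev ζ hm, if_pos rfl]
  | succ m ih =>
    refine Fin.cases ?_ (fun j => ?_) j
    · change (L (sr n ζ) (m + 1) ^ (k : ℕ)) (ev ⟨m + 1 - 0, _⟩) = _
      rw [L_pow_ev ζ hm, if_pos (by simp)]
      rfl
    · have h1 := ih (by omega) j
      change (sr n ζ (m + 1) * w (sr n ζ) N m j k) (ev ⟨m + 1 - ((j : ℕ) + 1), _⟩) = _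
      rw [LinearEquiv.mul_apply]
      have h2 : (⟨m + 1 - ((j : ℕ) + 1), by omega⟩ : Fin n) = ⟨m - j, by omega⟩ := by
        rw [Fin.ext_iff]; simp
      rw [h2, h1, map_smul, sr_ev_up ζ hm]

theorem w_ev_fix {N : ℕ} {m : ℕ} (hm : m < n) (j : Fin (m + 1)) (k : Fin (N + 1)) (i : Fin n)
    (hi : m < (i : ℕ)) : w (sr n ζ) N m j k (ev i) = ev i := by
  induction m with
  | zero =>
    obtain rfl : j = 0 := Fin.fin_one_eq_zero j
    change (L (sr n ζ) 0 ^ (k : ℕ)) (ev i) = _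
    rw [L_pow_ev ζ hm, if_neg (by omega), one_pow, one_smul]
  | succ m ih =>
    refine Fin.cases ?_ (fun j => ?_) j
    · change (L (sr n ζ) (m + 1) ^ (k : ℕ)) (ev i) = _
      rw [L_pow_ev ζ hm, if_neg (by omega), one_pow, one_smul]
    · change (sr n ζ (m + 1) * w (sr n ζ) N m j k) (ev i) = _
      rw [LinearEquiv.mul_apply, ih (by omega) j (by omega), sr_ev_fix ζ hm i hi]

theorem wd_ev_fix {N : ℕ} {m : ℕ} (hm : m ≤ n) (x : Ix N m) (i : Fin n)
    (hi : m ≤ (i : ℕ)) : wd (sr n ζ) N m x (ev i) = ev i := by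
  induction m with
  | zero => rfl
  | succ m ih =>
    change (wd (sr n ζ) N m x.1 * w (sr n ζ) N m x.2.1 x.2.2) (ev i) = _
    rw [LinearEquiv.mul_apply, w_ev_fix ζ (by omega) _ _ i (by omega), ih (by omega) _ (by omega)]

/-- A section word with trivial image has trivial index. -/
theorem wd_eq_one {N : ℕ} (hζ : ∀ k, k < N + 1 → (ζ : ℂ) ^ k = 1 → k = 0) {m : ℕ} (hm : m ≤ n)
    (x : Ix N m) (h : wd (sr n ζ) N m x = 1) : x = triv N m := by
  induction m with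
  | zero => rfl
  | succ m ih =>
    obtain ⟨x, j, k⟩ := x
    have h0 : wd (sr n ζ) N m x * w (sr n ζ) N m j k = 1 := h
    have h1 := congrArg (fun g : GLn n => g (ev ⟨m - j, by omega⟩)) h0
    simp only [LinearEquiv.mul_apply] at h1
    rw [w_ev ζ (by omega) j k, map_smul, wd_ev_fix ζ (by omega) x ⟨m, by omega⟩ le_rfl] at h1
    change (ζ : ℂ) ^ (k : ℕ) • ev (⟨m, by omega⟩ : Fin n) = ev ⟨m - j, by omega⟩ at h1
    have h2 := congrFun h1 ⟨m - j, by omega⟩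
    rw [Pi.smul_apply, ev_apply, ev_apply, if_pos rfl] at h2
    have hj : (j : ℕ) = 0 := by
      by_contra hne
      rw [if_neg (by rw [Fin.ext_iff]; simp; omega), smul_zero] at h2
      exact zero_ne_one h2
    have hj' : j = 0 := Fin.ext hj
    subst hj'
    rw [if_pos (by simp), smul_eq_mul, mul_one] at h2
    have hk : k = 0 := Fin.ext (hζ k k.2 h2)
    subst hk
    rw [w_zero_zero, mul_one] at h0
    have := ih (by omega) x h0
    rw [this]
    rfl

/-- The section words have distinct images. -/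
theorem wd_inj {N : ℕ} (hζ : ∀ k k', k < N + 1 → k' < N + 1 → (ζ : ℂ) ^ k = (ζ : ℂ) ^ k' → k = k')
    {m : ℕ} (hm : m ≤ n) (x x' : Ix N m) (h : wd (sr n ζ) N m x = wd (sr n ζ) N m x') :
    x = x' := by
  induction m with
  | zero => exact Subsingleton.elim (α := Unit) x x'
  | succ m ih =>
    obtain ⟨x, j, k⟩ := x
    obtain ⟨x', j', k'⟩ := x'
    have h0 : wd (sr n ζ) N m x * w (sr n ζ) N m j k =
      wd (sr n ζ) N m x' * w (sr n ζ) N m j' k' := h
    have h1 : ∀ (y : Ix N m) (i : Fin (m + 1)) (l : Fin (N + 1)),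
        (wd (sr n ζ) N m y * w (sr n ζ) N m i l) (ev ⟨m - i, by omega⟩) =
          (ζ : ℂ) ^ (l : ℕ) • ev ⟨m, by omega⟩ := by
      intro y i l
      rw [LinearEquiv.mul_apply, w_ev ζ (by omega) i l, map_smul,
        wd_ev_fix ζ (by omega) y ⟨m, by omega⟩ le_rfl]
    have h2 := h1 x j k
    have h3 := h1 x' j' k'
    rw [← h0] at h3
    have hne : ∀ l : ℕ, (ζ : ℂ) ^ l ≠ 0 := fun l => pow_ne_zero _ ζ.ne_zero
    have h4 : (wd (sr n ζ) N m x * w (sr n ζ) N m j k)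
        ((ζ : ℂ) ^ (k' : ℕ) • ev (⟨m - j, by omega⟩ : Fin n)) =
        (wd (sr n ζ) N m x * w (sr n ζ) N m j k)
        ((ζ : ℂ) ^ (k : ℕ) • ev (⟨m - j', by omega⟩ : Fin n)) := by
      rw [map_smul, map_smul, h2, h3, smul_smul, smul_smul, mul_comm]
    have h5 := (wd (sr n ζ) N m x * w (sr n ζ) N m j k).injective h4
    have h6 := congrFun h5 ⟨m - j, by omega⟩
    rw [Pi.smul_apply, Pi.smul_apply, ev_apply, ev_apply, if_pos rfl] at h6
    have hj : (j : ℕ) = j' := by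
      by_contra hne'
      rw [if_neg (by rw [Fin.ext_iff]; simp; omega), smul_zero, smul_eq_mul, mul_one] at h6
      exact hne _ h6
    have hj' : j = j' := Fin.ext hj
    subst hj'
    rw [if_pos rfl, smul_eq_mul, smul_eq_mul, mul_one, mul_one] at h6
    have hk : k = k' := Fin.ext (hζ k k' k.2 k'.2 h6.symm)
    subst hk
    have h7 := ih (by omega) x x' (mul_right_cancel h0)
    rw [h7]

theorem dg_mem {m' : ℕ} (hζ : (ζ : ℂ) ^ m' = 1) : dg n ζ ∈ Gg m' 1 n := by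
  refine ⟨1, fun j => if (j : ℕ) = 0 then (ζ : ℂ) else 1, fun j => ?_, ?_, fun j => ?_⟩
  · rw [mul_one]
    change (if (j : ℕ) = 0 then (ζ : ℂ) else 1) ^ m' = 1
    split_ifs
    · exact hζ
    · exact one_pow _
  · rw [← Finset.prod_pow]
    refine Finset.prod_eq_one fun j _ => ?_
    split_ifs
    · exact hζ
    · exact one_pow _
  · exact (dg_ev n ζ j).trans (single_eq_smul_ev _ _).symm

theorem permHom_mem (m' : ℕ) (σ : Equiv.Perm (Fin n)) : permHom n σ ∈ Gg m' 1 n := by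
  refine ⟨σ, fun _ => 1, fun _ => one_pow _, by simp, fun j => permHom_ev σ j⟩

theorem sr_mem {m' : ℕ} (hζ : (ζ : ℂ) ^ m' = 1) (i : ℕ) : sr n ζ i ∈ Gg m' 1 n := by
  unfold sr
  split_ifs
  · exact dg_mem ζ hζ
  · exact permHom_mem m' _
  · exact Subgroup.one_mem _

theorem L_mem {G : Type*} [Group G] {t : ℕ → G} (S : Subgroup G) (h : ∀ i, t i ∈ S) (k : ℕ) :
    L t k ∈ S := by
  induction k with
  | zero => exact h 0
  | succ k ih => exact S.mul_mem (S.mul_mem (h _) ih) (h _)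

theorem w_mem {G : Type*} [Group G] {t : ℕ → G} (S : Subgroup G) (h : ∀ i, t i ∈ S) (N m : ℕ)
    (j : Fin (m + 1)) (k : Fin (N + 1)) : w t N m j k ∈ S := by
  induction m with
  | zero => exact S.pow_mem (h 0) _
  | succ m ih =>
    refine Fin.cases ?_ (fun j => ?_) j
    · exact S.pow_mem (L_mem S h _) _
    · exact S.mul_mem (h _) (ih j)

theorem Gg_ne_zero {g : GLn n} {σ : Equiv.Perm (Fin n)} {θ : Fin n → ℂ}
    (h3 : ∀ j, g (Pi.single j 1) = Pi.single (σ j) (θ j)) (j : Fin n) : θ j ≠ 0 := by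
  intro h0
  have h4 := h3 j
  rw [h0, Pi.single_zero] at h4
  have h5 := (map_eq_zero_iff g g.injective).mp h4
  have h6 := congrFun h5 j
  rw [Pi.single_eq_same] at h6
  exact one_ne_zero h6

/-- Every monomial matrix fixing the last basis vectors is the image of a section word. -/
theorem exists_wd {N : ℕ} (hζ1 : (ζ : ℂ) ^ (N + 1) = 1)
    (hζ : ∀ z : ℂ, z ^ (N + 1) = 1 → ∃ k, k < N + 1 ∧ (ζ : ℂ) ^ k = z)
    {m : ℕ} (hm : m ≤ n) (g : GLn n) (hg : g ∈ Gg (N + 1) 1 n)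
    (hfix : ∀ i : Fin n, m ≤ (i : ℕ) → g (ev i) = ev i) :
    ∃ x : Ix N m, wd (sr n ζ) N m x = g := by
  induction m generalizing g with
  | zero =>
    refine ⟨(), ?_⟩
    apply GLn_ext
    intro j
    rw [hfix j (by omega)]
    rfl
  | succ m ih =>
    obtain ⟨σ, θ, h1, h2, h3⟩ := hg
    rw [mul_one] at h1
    have hmn : m < n := by omega
    set i0 : Fin n := σ.symm ⟨m, hmn⟩ with hi0
    have hσi0 : σ i0 = ⟨m, hmn⟩ := Equiv.apply_symm_apply σ _
    have hi0m : (i0 : ℕ) ≤ m := by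
      by_contra hlt
      have h4 := hfix i0 (by omega)
      rw [h3, hσi0] at h4
      have h5 := congrFun h4 ⟨m, hmn⟩
      rw [Pi.single_eq_same, ev_apply, if_neg (by rw [Fin.ext_iff]; simp; omega)] at h5
      exact Gg_ne_zero h3 i0 h5
    obtain ⟨k, hk, hζk⟩ := hζ (θ i0) (h1 i0)
    set j : Fin (m + 1) := ⟨m - i0, by omega⟩ with hj
    set x1 := w (sr n ζ) N m j ⟨k, hk⟩ with hx1
    have hw : x1 (ev i0) = (θ i0) • ev ⟨m, hmn⟩ := by
      have := w_ev ζ hmn j (⟨k, hk⟩ : Fin (N + 1))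
      rw [show (⟨m - j, _⟩ : Fin n) = i0 by rw [Fin.ext_iff]; simp [hj]; omega] at this
      rw [hx1, this]
      change (ζ : ℂ) ^ k • _ = _
      rw [hζk]
    have hgi0 : g (ev i0) = (θ i0) • ev ⟨m, hmn⟩ := by
      rw [h3, hσi0, single_eq_smul_ev]
    have hmem : g * x1⁻¹ ∈ Gg (N + 1) 1 n :=
      Subgroup.mul_mem _ ⟨σ, θ, by simpa using h1, h2, h3⟩
        (Subgroup.inv_mem _ (w_mem _ (fun i => sr_mem ζ hζ1 i) _ _ _ _))
    have hfix' : ∀ i : Fin n, m ≤ (i : ℕ) → (g * x1⁻¹) (ev i) = ev i := by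
      intro i hi
      rw [LinearEquiv.mul_apply]
      rcases Nat.eq_or_lt_of_le hi with h4 | h4
      · have hi' : i = ⟨m, hmn⟩ := Fin.ext h4.symm
        have h5 : x1⁻¹ (ev i) = (θ i0)⁻¹ • ev i0 := by
          change x1.symm (ev i) = _
          rw [LinearEquiv.symm_apply_eq, map_smul, hw, smul_smul,
            inv_mul_cancel₀ (Gg_ne_zero h3 i0), one_smul, hi']
        rw [h5, map_smul, hgi0, smul_smul, inv_mul_cancel₀ (Gg_ne_zero h3 i0),
          one_smul, hi']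
      · have h5 : x1⁻¹ (ev i) = ev i := by
          change x1.symm (ev i) = _
          rw [LinearEquiv.symm_apply_eq, hx1, w_ev_fix ζ hmn j _ i h4]
        rw [h5, hfix i (by omega)]
    obtain ⟨x, hx⟩ := ih (by omega) (g * x1⁻¹) hmem hfix'
    refine ⟨(x, j, ⟨k, hk⟩), ?_⟩
    change wd (sr n ζ) N m x * w (sr n ζ) N m j ⟨k, hk⟩ = g
    rw [hx, ← hx1, inv_mul_cancel_right]

end action

end Pool.Agent.Lib.H10BMM
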