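import Pool.Agent.Lib.H10BMM.DComp

/-!
# The representation `Phi` of `H P (n+1)` by matrices over `H P n`
-/

namespace Pool.Agent.Lib.H10BMM

open Matrix
open scoped BigOperators

universe u v

variable {A : Type u} [CommRing A] {N : ℕ} (P : Par A N)

/-- Level matrices over `H P n`. -/
abbrev MM (n m : ℕ) : Type u := Matrix (Fin m) (Fin m) (LM N (H P n))

/-- Push the entries forward along `incl`. -/
noncomputable abbrev up (n m : ℕ) : MM P n m →ₐ[A] MM P (n + 1) m :=
  ((incl P n).mapMatrix (m := Fin (N + 1))).mapMatrix (m := Fin m)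

/-- Scalar matrices. -/
noncomputable abbrev sc (n : ℕ) : H P n →ₐ[A] LM N (H P n) := Matrix.scalarAlgHom (Fin (N + 1)) A

/-- The matrices of the generators. -/
noncomputable def G : (n : ℕ) → ℕ → MM P n (n + 1)
  | 0, _ => fun _ _ => comp P (H P 0)
  | (n + 1), i =>
    if i = n + 1 then tM P.a (P.b : A) (Dm N (xx P (n + 1) n)) (sc P (n + 1) (T P (n + 1) n))
    else bd (sc P (n + 1) (T P (n + 1) i)) (up P n (n + 1) (G n i))

theorem G_zero (i : ℕ) : G P 0 i = fun _ _ => comp P (H P 0) := rfl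

theorem G_top (n : ℕ) : G P (n + 1) (n + 1) =
    tM P.a (P.b : A) (Dm N (xx P (n + 1) n)) (sc P (n + 1) (T P (n + 1) n)) := by
  rw [G, if_pos rfl]

theorem G_of_ne {n i : ℕ} (h : i ≠ n + 1) : G P (n + 1) i =
    bd (sc P (n + 1) (T P (n + 1) i)) (up P n (n + 1) (G P n i)) := by
  rw [G, if_neg h]

theorem G_zero_eq (i : ℕ) : G P 0 i = Matrix.scalarAlgHom (Fin 1) A (comp P (H P 0)) := by
  rw [G_zero]
  ext i j : 2
  obtain rfl : i = 0 := Fin.fin_one_eq_zero i
  obtain rfl : j = 0 := Fin.fin_one_eq_zero j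
  simp

theorem G_isHecke_zero : IsHecke P 1 (G P 0) := by
  have h : IsHecke P 1 (fun _ => comp P (H P 0)) :=
    ⟨fun _ => comp_pol (K := H P 0) P, fun i h0 h1 => by omega, fun h => by omega,
      fun i h0 h => by omega, fun i j h0 h => by omega⟩
  exact (h.map P (Matrix.scalarAlgHom (Fin 1) A)).congr P (fun i _ => G_zero_eq P i)

/-- Given the representation for `n`, the block diagonal map for `n + 1`. -/
noncomputable def Psi (n : ℕ) (h : IsHecke P (n + 1) (G P n)) :
    H P (n + 1) →ₐ[A] MM P (n + 1) (n + 2) :=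
  (bdAlg A (n + 1)).comp ((sc P (n + 1)).prod ((up P n (n + 1)).comp (lift P h)))

theorem Psi_apply (n : ℕ) (h : IsHecke P (n + 1) (G P n)) (g : H P (n + 1)) :
    Psi P n h g = bd (sc P (n + 1) g) (up P n (n + 1) (lift P h g)) := rfl

theorem Psi_T (n : ℕ) (h : IsHecke P (n + 1) (G P n)) {i : ℕ} (hi : i < n + 1) :
    Psi P n h (T P (n + 1) i) = G P (n + 1) i := by
  rw [Psi_apply, lift_T P h hi, G_of_ne P (by omega)]

theorem mapMatrix_bd {L : Type u} [Ring L] [Algebra A L] {L' : Type v} [Ring L'] [Algebra A L']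
    (f : L →ₐ[A] L') {m : ℕ} (x : L) (M : Matrix (Fin m) (Fin m) L) :
    f.mapMatrix (bd x M) = bd (f x) (f.mapMatrix M) := by
  ext i j
  refine Fin.cases ?_ (fun i => ?_) i <;> refine Fin.cases ?_ (fun j => ?_) j <;> simp

theorem mapMatrix_tM {L : Type u} [Ring L] [Algebra A L] {L' : Type v} [Ring L'] [Algebra A L']
    (f : L →ₐ[A] L') {m : ℕ} (a b : A) (D s : L) :
    f.mapMatrix (tM (m := m) a b D s) = tM a b (f D) (f s) := by
  ext i j
  refine Fin.cases ?_ (fun i => Fin.cases ?_ (fun i => ?_) i) i <;>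
    refine Fin.cases ?_ (fun j => Fin.cases ?_ (fun j => ?_) j) j <;>
    simp [-Fin.succ_zero_eq_one, -Fin.succ_zero_eq_one', -Fin.succ_one_eq_two,
      -Fin.succ_one_eq_two', apply_ite f]

theorem up_bd (n m : ℕ) (x : LM N (H P n)) (M : MM P n m) :
    up P n (m + 1) (bd x M) = bd ((incl P n).mapMatrix x) (up P n m M) :=
  mapMatrix_bd _ _ _

theorem up_sc (n : ℕ) (x : H P n) :
    (incl P n).mapMatrix (sc P n x) = sc P (n + 1) (incl P n x) := by
  ext i j
  simp [Matrix.diagonal_apply, apply_ite (incl P n)]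

theorem map_Dm (n : ℕ) (x : H P n) :
    (incl P n).mapMatrix (Dm N x) = Dm N (incl P n x) := by
  ext i j
  simp [Dm_apply, apply_ite (incl P n)]

theorem up_tM (n m : ℕ) (a b : A) (x s : H P n) :
    up P n (m + 2) (tM a b (Dm N x) (sc P n s)) =
      tM a b (Dm N (incl P n x)) (sc P (n + 1) (incl P n s)) := by
  rw [← up_sc, ← map_Dm]
  exact mapMatrix_tM _ _ _ _ _

theorem sc_T_quad (n : ℕ) {i : ℕ} (h0 : 0 < i) (hi : i < n) :
    sc P n (T P n i) * sc P n (T P n i) =
      P.a • sc P n (T P n i) + (P.b : A) • (1 : LM N (H P n)) := by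
  rw [← map_mul, (T_isHecke P n).quad i h0 hi, map_add, map_smul, map_smul, map_one]

/-- `T (k+1)` commutes with `H P k`. -/
theorem T_comm_incl2 (k : ℕ) (g : H P k) :
    T P (k + 2) (k + 1) * incl P (k + 1) (incl P k g) =
      incl P (k + 1) (incl P k g) * T P (k + 2) (k + 1) := by
  induction g using H_induction with
  | halg r => simp only [AlgHom.commutes]; exact (Algebra.commutes _ _).symm
  | hT i hi =>
    rw [incl_T P hi, incl_T P (by omega)]
    exact ((T_isHecke P (k + 2)).comm i (k + 1) (by omega) (by omega)).symm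
  | hadd x y hx hy => simp only [map_add, mul_add, add_mul, hx, hy]
  | hmul x y hx hy => simp only [map_mul, ← mul_assoc, hx]; simp only [mul_assoc, hy]

/-- `X k` commutes with `H P k`. -/
theorem X_comm_incl (k : ℕ) (g : H P k) :
    xx P (k + 1) k * incl P k g = incl P k g * xx P (k + 1) k := by
  induction g using H_induction with
  | halg r => simp only [AlgHom.commutes]; exact (Algebra.commutes _ _).symm
  | hT i hi =>
    rw [incl_T P hi]
    exact ((T_isHecke P (k + 1)).X_T_comm (by omega) (by omega) (by omega) (by omega)).symm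
  | hadd x y hx hy => simp only [map_add, mul_add, add_mul, hx, hy]
  | hmul x y hx hy => simp only [map_mul, ← mul_assoc, hx]; simp only [mul_assoc, hy]

theorem G_isHecke_succ (n : ℕ) (h : IsHecke P (n + 1) (G P n)) :
    IsHecke P (n + 2) (G P (n + 1)) := by
  have h1 : IsHecke P (n + 1) (G P (n + 1)) :=
    ((T_isHecke P (n + 1)).map P (Psi P n h)).congr P (fun i hi => (Psi_T P n h hi).symm)
  have hT := T_isHecke P (n + 1)
  have hquad : G P (n + 1) (n + 1) * G P (n + 1) (n + 1) =
      P.a • G P (n + 1) (n + 1) + (P.b : A) • 1 := by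
    rw [G_top]
    exact tM_quad _ _ _ _ (fun i => sc_T_quad P (n + 1) (by have := i.2; omega) (by omega))
  have hbr4 : n = 0 → G P (n + 1) 0 * G P (n + 1) 1 * G P (n + 1) 0 * G P (n + 1) 1 =
      G P (n + 1) 1 * G P (n + 1) 0 * G P (n + 1) 1 * G P (n + 1) 0 := by
    rintro rfl
    have e0 : G P (0 + 1) 0 = bd (sc P (0 + 1) (T P (0 + 1) 0)) (up P 0 (0 + 1) (G P 0 0)) :=
      G_of_ne P (by omega)
    have e1 : G P (0 + 1) 1 = _ := G_top P 0
    rw [e0, e1]
    have hC : (up P 0 (0 + 1) (G P 0 0)) 0 0 = comp P (H P (0 + 1)) := by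
      rw [G_zero_eq]
      ext i j
      simp [comp, apply_ite (incl P 0)]
    refine tM_braid4 _ _ _ _ _ _ _ hC ?_ ?_ ?_
    · exact Dm_comm _ _ rfl
    · exact comp_scalar_comm _ _
    · exact comp_key P (hT.pol (by omega))
  have hbr3 : 0 < n → G P (n + 1) n * G P (n + 1) (n + 1) * G P (n + 1) n =
      G P (n + 1) (n + 1) * G P (n + 1) n * G P (n + 1) (n + 1) := by
    intro hn
    obtain ⟨k, rfl⟩ : ∃ k, n = k + 1 := ⟨n - 1, by omega⟩
    rw [G_top, G_of_ne P (show k + 1 ≠ k + 1 + 1 by omega), G_top, up_tM]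
    symm
    refine tM_braid3 _ _ _ _ _ _ ?_ ?_ ?_ ?_
    · exact sc_T_quad P _ (by omega) (by omega)
    · intro i
      rw [incl_T P (by omega)]
      exact sc_T_quad P _ (by have := i.2; omega) (by omega)
    · intro i
      rw [incl_T P (by omega), ← map_mul, ← map_mul, ← map_mul, ← map_mul,
        hT.br3 k (by have := i.2; omega) (by omega)]
    · rw [show incl P (k + 1) (xx P (k + 1) k) = xx P (k + 1 + 1) k from incl_X P (by omega)]
      exact Dm_rel hT (by omega)
  have hcomm : ∀ i, i < n → G P (n + 1) i * G P (n + 1) (n + 1) =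
      G P (n + 1) (n + 1) * G P (n + 1) i := by
    intro i hi
    obtain ⟨k, rfl⟩ : ∃ k, n = k + 1 := ⟨n - 1, by omega⟩
    rw [G_top, G_of_ne P (show i ≠ k + 1 + 1 by omega), G_of_ne P (show i ≠ k + 1 by omega), up_bd,
      up_sc, incl_T P (by omega)]
    symm
    refine tM_comm _ _ _ _ _ _ ?_ ?_
    · exact Dm_comm _ _ (hT.X_T_comm (by omega) (by omega) (by omega) (by omega))
    · intro i' j'
      ext a' b'
      simp only [scalarAlgHom_apply, Matrix.scalar_apply, Matrix.diagonal_mul,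
        Matrix.mul_diagonal]
      exact T_comm_incl2 P k _
  refine ⟨fun _ => h1.pol (by omega), fun i h0 hi => ?_, fun hn => ?_, fun i h0 hi => ?_,
    fun i j hij hj => ?_⟩
  · rcases Nat.lt_or_ge i (n + 1) with h2 | h2
    · exact h1.quad i h0 h2
    · obtain rfl : i = n + 1 := by omega
      exact hquad
  · rcases Nat.eq_zero_or_pos n with h2 | h2
    · exact hbr4 h2
    · exact h1.br4 (by omega)
  · rcases Nat.lt_or_ge (i + 1) (n + 1) with h2 | h2
    · exact h1.br3 i h0 h2
    · obtain rfl : i = n := by omega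
      exact hbr3 h0
  · rcases Nat.lt_or_ge j (n + 1) with h2 | h2
    · exact h1.comm i j hij h2
    · obtain rfl : j = n + 1 := by omega
      exact hcomm i (by omega)

theorem G_isHecke (n : ℕ) : IsHecke P (n + 1) (G P n) := by
  induction n with
  | zero => exact G_isHecke_zero P
  | succ n ih => exact G_isHecke_succ P n ih

/-- The representation of `H P (n+1)` by matrices over `H P n`. -/
noncomputable def Phi (n : ℕ) : H P (n + 1) →ₐ[A] MM P n (n + 1) := lift P (G_isHecke P n)

theorem Phi_T (n : ℕ) {i : ℕ} (hi : i < n + 1) : Phi P n (T P (n + 1) i) = G P n i :=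
  lift_T P _ hi

theorem Phi_incl_succ (n : ℕ) (g : H P (n + 1)) :
    Phi P (n + 1) (incl P (n + 1) g) = bd (sc P (n + 1) g) (up P n (n + 1) (Phi P n g)) := by
  have h : (Phi P (n + 1)).comp (incl P (n + 1)) = Psi P n (G_isHecke P n) := by
    refine hom_ext P fun i hi => ?_
    rw [Psi_T P n _ hi, AlgHom.comp_apply, incl_T P hi, Phi_T P (n + 1) (by omega)]
  exact congrArg (fun f : H P (n + 1) →ₐ[A] MM P (n + 1) (n + 2) => f g) h

theorem H_zero_scalar (g : H P 0) : ∃ r : A, g = algebraMap A _ r := by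
  induction g using H_induction with
  | halg r => exact ⟨r, rfl⟩
  | hT i hi => omega
  | hadd x y hx hy =>
    obtain ⟨r, rfl⟩ := hx
    obtain ⟨s, rfl⟩ := hy
    exact ⟨r + s, by simp⟩
  | hmul x y hx hy =>
    obtain ⟨r, rfl⟩ := hx
    obtain ⟨s, rfl⟩ := hy
    exact ⟨r * s, by simp⟩

theorem Phi_incl_zero_zero (n : ℕ) (g : H P n) : Phi P n (incl P n g) 0 0 = sc P n g := by
  rcases n with _ | n
  · obtain ⟨r, rfl⟩ := H_zero_scalar P g
    rw [AlgHom.commutes, AlgHom.commutes, AlgHom.commutes, Matrix.algebraMap_matrix_apply, if_pos rfl]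
  · rw [Phi_incl_succ, bd_zero_zero]

theorem Phi_incl_zero_succ (n : ℕ) (g : H P n) (j : Fin n) :
    Phi P n (incl P n g) 0 j.succ = 0 := by
  rcases n with _ | n
  · exact j.elim0
  · rw [Phi_incl_succ, bd_zero_succ]

theorem Phi_incl_succ_zero (n : ℕ) (g : H P n) (j : Fin n) :
    Phi P n (incl P n g) j.succ 0 = 0 := by
  rcases n with _ | n
  · exact j.elim0
  · rw [Phi_incl_succ, bd_succ_zero]

end Pool.Agent.Lib.H10BMM
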