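import Pool.Agent.Lib.H10BMM.EE

/-!
# The elements `yy` span `H P (n+1)` over `H P n`
-/

namespace Pool.Agent.Lib.H10BMM

open Matrix
open scoped BigOperators

universe u v

variable {A : Type u} [CommRing A] {N : ℕ} (P : Par A N)

/-- Entries pushed forward. -/
noncomputable abbrev fm (n : ℕ) : LM N (H P n) →ₐ[A] LM N (H P (n + 1)) := (incl P n).mapMatrix

theorem mulVec_mul_right {K : Type v} [Ring K] (M : LM N K) (w : Fin (N + 1) → K) (h : K) :
    (fun k => (M *ᵥ w) k * h) = M *ᵥ (fun k => w k * h) := by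
  funext k
  simp only [mulVec, dotProduct, Finset.sum_mul, mul_assoc]

/-- `h` acts on the right on the `yy` by the matrix `Phi h`. -/
def Good (n : ℕ) (h : H P (n + 1)) : Prop :=
  ∀ j : Fin (n + 1), (fun k => yy P n j k * h) =
    ∑ j' : Fin (n + 1), fm P n (Phi P n h j j') *ᵥ yy P n j'

variable {P}

theorem Good.add {n : ℕ} {h h' : H P (n + 1)} (g : Good P n h) (g' : Good P n h') :
    Good P n (h + h') := by
  intro j
  have e : (fun k => yy P n j k * (h + h')) =
      (fun k => yy P n j k * h) + (fun k => yy P n j k * h') := by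
    funext k; simp [mul_add]
  rw [e, g j, g' j, ← Finset.sum_add_distrib]
  refine Finset.sum_congr rfl fun j' _ => ?_
  rw [map_add, Matrix.add_apply, map_add, add_mulVec]

theorem Good.mul {n : ℕ} {h h' : H P (n + 1)} (g : Good P n h) (g' : Good P n h') :
    Good P n (h * h') := by
  intro j
  have e : (fun k => yy P n j k * (h * h')) =
      ∑ j' : Fin (n + 1), fm P n (Phi P n h j j') *ᵥ (fun k => yy P n j' k * h') := by
    funext k
    have h1 : yy P n j k * h = _ := congrFun (g j) k
    rw [← mul_assoc, h1, Finset.sum_apply, Finset.sum_apply, Finset.sum_mul]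
    refine Finset.sum_congr rfl fun j' _ => ?_
    exact congrFun (mulVec_mul_right (fm P n (Phi P n h j j')) (yy P n j') h') k
  rw [e]
  simp only [g' _, mulVec_sum, mulVec_mulVec]
  rw [Finset.sum_comm]
  refine Finset.sum_congr rfl fun j'' _ => ?_
  rw [map_mul, Matrix.mul_apply, map_sum, sum_mulVec]
  simp only [map_mul]

theorem Good.algebraMap {n : ℕ} (r : A) : Good P n (algebraMap A _ r) := by
  intro j
  rw [Finset.sum_eq_single j]
  · rw [AlgHom.commutes, Matrix.algebraMap_matrix_apply, if_pos rfl, AlgHom.commutes]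
    funext k
    rw [Algebra.algebraMap_eq_smul_one r, Algebra.algebraMap_eq_smul_one r, smul_mulVec,
      one_mulVec, Pi.smul_apply, mul_smul_comm, mul_one]
  · intro j' _ hj'
    rw [AlgHom.commutes, Matrix.algebraMap_matrix_apply, if_neg (Ne.symm hj'), map_zero,
      zero_mulVec]
  · intro h; exact absurd (Finset.mem_univ _) h

variable (P)

theorem Good_T_zero : Good P 0 (T P 1 0) := by
  intro j
  obtain rfl : j = 0 := Fin.fin_one_eq_zero j
  rw [Fin.sum_univ_one, Phi_T P 0 (by omega), G_zero]
  funext k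
  simp only [yy_zero, mulVec, dotProduct]
  rw [show xx P (0 + 1) 0 = T P 1 0 from rfl, ← pow_succ]
  refine Fin.lastCases ?_ (fun k => ?_) k
  · rw [Fin.val_last, (T_isHecke P 1).pol (by omega)]
    refine Finset.sum_congr rfl fun k _ => ?_
    simp only [fm, AlgHom.mapMatrix_apply, Matrix.map_apply]
    rw [comp_last, AlgHom.commutes, Algebra.smul_def]
  · rw [Finset.sum_eq_single k.succ]
    · simp only [fm, AlgHom.mapMatrix_apply, Matrix.map_apply]
      rw [comp_castSucc, Pi.single_apply, if_pos rfl, map_one, one_mul]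
      simp
    · intro k' _ hk'
      simp only [fm, AlgHom.mapMatrix_apply, Matrix.map_apply]
      rw [comp_castSucc, Pi.single_apply, if_neg hk', map_zero, zero_mul]
    · intro h; exact absurd (Finset.mem_univ _) h

theorem fm_sc (n : ℕ) (g : H P n) :
    fm P n (sc P n g) = Matrix.scalar (Fin (N + 1)) (incl P n g) := up_sc P n g

theorem scalar_mulVec {K : Type v} [Ring K] (g : K) (w : Fin (N + 1) → K) :
    Matrix.scalar (Fin (N + 1)) g *ᵥ w = fun k => g * w k := by
  funext k
  simp [Matrix.scalar_apply, mulVec_diagonal]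

theorem X_pow_comm_incl (n k : ℕ) (g : H P n) :
    xx P (n + 1) n ^ k * incl P n g = incl P n g * xx P (n + 1) n ^ k :=
  ((show Commute (xx P (n + 1) n) (incl P n g) from X_comm_incl P n g).pow_left k).eq

theorem T_mul_fm2 (n : ℕ) (M : LM N (H P n)) (w : Fin (N + 1) → H P (n + 2)) :
    (fun k => T P (n + 2) (n + 1) * (fm P (n + 1) (fm P n M) *ᵥ w) k) =
      fm P (n + 1) (fm P n M) *ᵥ (fun k => T P (n + 2) (n + 1) * w k) := by
  funext k
  simp only [mulVec, dotProduct, Finset.mul_sum]
  refine Finset.sum_congr rfl fun k' _ => ?_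
  simp only [fm, AlgHom.mapMatrix_apply, Matrix.map_apply]
  rw [← mul_assoc, T_comm_incl2, mul_assoc]

theorem incl_fm_mulVec (n : ℕ) (M : LM N (H P (n + 1))) (w : Fin (N + 1) → H P (n + 1)) (k) :
    incl P (n + 1) ((M *ᵥ w) k) = (fm P (n + 1) M *ᵥ fun k => incl P (n + 1) (w k)) k := by
  simp only [mulVec, dotProduct, map_sum, map_mul, fm, AlgHom.mapMatrix_apply, Matrix.map_apply]

theorem yy_succ' (n : ℕ) (j : Fin (n + 1)) :
    yy P (n + 1) j.succ = fun k => T P (n + 2) (n + 1) * incl P (n + 1) (yy P n j k) := rfl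

theorem Good_incl (n : ℕ) (hn : ∀ h, Good P n h) (g : H P (n + 1)) :
    Good P (n + 1) (incl P (n + 1) g) := by
  intro j
  rw [Phi_incl_succ, Fin.sum_univ_succ]
  refine Fin.cases ?_ (fun j => ?_) j
  · rw [bd_zero_zero, Finset.sum_eq_zero, add_zero, fm_sc, scalar_mulVec]
    · funext k
      rw [yy_zero]
      exact X_pow_comm_incl P (n + 1) k g
    · intro j' _
      rw [bd_zero_succ, map_zero, zero_mulVec]
  · rw [bd_succ_zero, map_zero, zero_mulVec, zero_add]
    simp only [bd_succ_succ, yy_succ']
    funext k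
    have h1 : yy P n j k * g = _ := congrFun (hn g j) k
    rw [mul_assoc, ← map_mul, h1, Finset.sum_apply, Finset.sum_apply, map_sum, Finset.mul_sum]
    refine Finset.sum_congr rfl fun j' _ => ?_
    have h2 := congrFun (T_mul_fm2 P n (Phi P n g j j') (fun k => incl P (n + 1) (yy P n j' k))) k
    rw [incl_fm_mulVec, h2]
    rfl

theorem level_zero (n : ℕ) :
    (fun k => yy P (n + 1) 0 k * T P (n + 2) (n + 1)) =
      fm P (n + 1) (P.a • Dm N (xx P (n + 1) n)) *ᵥ yy P (n + 1) 0 +
        yy P (n + 1) (Fin.succ 0) := by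
  funext k
  rw [Pi.add_apply, yy_succ', yy_zero, (T_isHecke P (n + 2)).Xpow_mul_T (k := n) (by omega)]
  have hx : X P (T P (n + 2)) n = incl P (n + 1) (xx P (n + 1) n) := (incl_X P (by omega)).symm
  congr 1
  · rw [map_smul, smul_mulVec, Pi.smul_apply]
    congr 1
    simp only [mulVec, dotProduct, fm, AlgHom.mapMatrix_apply, Matrix.map_apply]
    have e : ∑ i : Fin (N + 1), incl P (n + 1) (Dm N (xx P (n + 1) n) k i) * yy P (n + 1) 0 i =
        ∑ m ∈ Finset.range (N + 1), if 1 ≤ m ∧ m ≤ (k : ℕ) then
          X P (T P (n + 2)) n ^ ((k : ℕ) - m) * xx P (n + 2) (n + 1) ^ m else 0 := by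
      rw [← Fin.sum_univ_eq_sum_range (fun m => if 1 ≤ m ∧ m ≤ (k : ℕ) then
          X P (T P (n + 2)) n ^ ((k : ℕ) - m) * xx P (n + 2) (n + 1) ^ m else 0)]
      refine Finset.sum_congr rfl fun m _ => ?_
      rw [Dm_apply, apply_ite (incl P (n + 1)), map_zero, map_pow, ← hx, yy_zero, ite_mul, zero_mul]
    rw [e, ← Finset.sum_filter]
    refine Finset.sum_nbij' (fun j => (k : ℕ) - j) (fun m => (k : ℕ) - m) ?_ ?_ ?_ ?_ ?_
    · intro m hm
      have := k.2
      simp only [Finset.mem_filter, Finset.mem_range] at hm ⊢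
      omega
    · intro m hm
      simp only [Finset.mem_filter, Finset.mem_range] at hm ⊢
      omega
    · intro m hm
      simp only [Finset.mem_filter, Finset.mem_range] at hm ⊢
      omega
    · intro m hm
      simp only [Finset.mem_filter, Finset.mem_range] at hm ⊢
      omega
    · intro m hm
      simp only [Finset.mem_filter, Finset.mem_range] at hm ⊢
      congr 2
      omega
  · change _ = T P (n + 2) (n + 1) * incl P (n + 1) (yy P n 0 k)
    rw [yy_zero, map_pow, hx]

theorem Good_T_top (n : ℕ) : Good P (n + 1) (T P (n + 2) (n + 1)) := by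
  have hT := T_isHecke P (n + 2)
  set t := T P (n + 2) (n + 1) with ht
  set D := Dm N (xx P (n + 1) n) with hD
  have hq : t * t = P.a • t + (P.b : A) • 1 := hT.quad (n + 1) (by omega) (by omega)
  have l0 := level_zero P n
  rw [← ht, ← hD] at l0
  intro j
  rw [Phi_T P (n + 1) (by omega), G_top, Fin.sum_univ_succ, Fin.sum_univ_succ]
  refine Fin.cases ?_ (fun j => Fin.cases ?_ (fun j => ?_) j) j
  · rw [l0]
    simp only [tM_00, tM_01', tM_0j, map_one, one_mulVec, map_zero, zero_mulVec,
      Finset.sum_const_zero, add_zero]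
    rfl
  · simp only [tM_10', tM_11', tM_1j', map_zero, zero_mulVec, Finset.sum_const_zero, add_zero]
    have e1 : (fun k => yy P (n + 1) (Fin.succ 0) k * t) =
        P.a • (fun k => yy P (n + 1) 0 k * t) + (P.b : A) • yy P (n + 1) 0 -
          fm P (n + 1) (P.a • D) *ᵥ (fun k => yy P (n + 1) 0 k * t) := by
      have e2 : (fun k => yy P (n + 1) 0 k * t * t) =
        P.a • (fun k => yy P (n + 1) 0 k * t) + (P.b : A) • yy P (n + 1) 0 := by
        funext k
        rw [mul_assoc, hq, mul_add, mul_smul_comm, mul_smul_comm, mul_one]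
        rfl
      have e3 : (fun k => yy P (n + 1) 0 k * t * t) =
          fm P (n + 1) (P.a • D) *ᵥ (fun k => yy P (n + 1) 0 k * t) +
            (fun k => yy P (n + 1) (Fin.succ 0) k * t) := by
        funext k
        have h1 : yy P (n + 1) 0 k * t = _ := congrFun l0 k
        rw [h1, Pi.add_apply, add_mul, Pi.add_apply]
        congr 1
        exact congrFun (mulVec_mul_right (fm P (n + 1) (P.a • D)) (yy P (n + 1) 0) t) k
      rw [← e2, e3, add_sub_cancel_left]
    rw [e1, l0]
    rw [← hD]
    simp only [map_add, map_smul, map_sub, map_one, map_mul, mulVec_add, add_mulVec, smul_mulVec,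
      mulVec_smul, mulVec_mulVec, one_mulVec, sub_mulVec, smul_mul_assoc]
    module
  · simp only [tM_i0, tM_i1', tM_ij, map_zero, zero_mulVec, zero_add]
    rw [Finset.sum_eq_single j]
    · rw [if_pos rfl, fm_sc, scalar_mulVec]
      obtain ⟨m, rfl⟩ : ∃ m, n = m + 1 := ⟨n - 1, by have := j.2; omega⟩
      funext k
      rw [yy_succ, yy_succ]
      have h3 := hT.br3 (m + 1) (by omega) (by omega)
      have hc := T_comm_incl2 P (m + 1) (yy P m j k)
      rw [map_mul, incl_T P (show m + 1 < m + 1 + 1 by omega)]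
      rw [← ht] at h3 hc ⊢
      generalize incl P (m + 1 + 1) (incl P (m + 1) (yy P m j k)) = y at hc ⊢
      generalize T P (m + 1 + 2) (m + 1) = s at h3 ⊢
      calc t * (s * y) * t = t * s * (y * t) := by noncomm_ring
        _ = (t * s * t) * y := by rw [← hc]; noncomm_ring
        _ = s * (t * (s * y)) := by rw [← h3]; noncomm_ring
    · intro x _ hx
      rw [if_neg (Ne.symm hx), map_zero, zero_mulVec]
    · intro h; exact absurd (Finset.mem_univ _) h

theorem Good_all (n : ℕ) (h : H P (n + 1)) : Good P n h := by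
  induction n with
  | zero =>
    induction h using H_induction with
    | halg r => exact Good.algebraMap r
    | hT i hi =>
      obtain rfl : i = 0 := by omega
      exact Good_T_zero P
    | hadd x y hx hy => exact hx.add hy
    | hmul x y hx hy => exact hx.mul hy
  | succ n ih =>
    induction h using H_induction with
    | halg r => exact Good.algebraMap r
    | hT i hi =>
      rcases Nat.lt_or_ge i (n + 1) with h1 | h1
      · rw [← incl_T P h1]
        exact Good_incl P n ih _
      · obtain rfl : i = n + 1 := by omega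
        exact Good_T_top P n
    | hadd x y hx hy => exact hx.add hy
    | hmul x y hx hy => exact hx.mul hy

end Pool.Agent.Lib.H10BMM
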