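import Pool.Agent.Lib.H10BMM.Defs
import Pool.Agent.Lib.H10BMM.ParOf

/-!
# The map from the group to the Hecke algebra and the specialisation to the group algebra
-/

namespace Pool.Agent.Lib.H10BMM

open scoped BigOperators

universe u'

variable {A : Type u'} [CommRing A]

section rho

variable {d e : ℕ} (he : 0 < e) (hd : 0 < d) (u : Fin d → Aˣ) (v : Fin 2 → Aˣ)
  (hu1 : d = 1 → ∀ j, u j = 1) (n : ℕ)

include hd hu1 in
theorem un_zero_pow (hn : 0 < n) (h1 : d = 1) : un (parOf he u v) n 0 ^ e = 1 := by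
  subst h1
  have h2 := (parOf_pol_iff he hd u v (T (parOf he u v) n 0)).mp
    ((T_isHecke (parOf he u v) n).pol hn)
  unfold pol at h2
  rw [Fin.prod_univ_one, hu1 rfl, map_sub, map_pow, Polynomial.aeval_X, Polynomial.aeval_C,
    Units.val_one, map_one, sub_eq_zero] at h2
  apply Units.ext
  rw [Units.val_pow_eq_pow_val, un_val _ hn, h2, Units.val_one]

/-- The natural map from the group to the units of the Hecke algebra. -/
noncomputable def rho : Gam d e n →* (H (parOf he u v) n)ˣ :=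
  liftG (un_isBraid (parOf he u v) n) (fun hn h1 => un_zero_pow he hd u v hu1 n hn h1)

theorem rho_tg {i : ℕ} (hi : i < n) :
    rho he hd u v hu1 n (tg d e n i) = un (parOf he u v) n i := liftG_tg _ _ hi

theorem rho_mem (x : Gam d e n) : rho he hd u v hu1 n x ∈
    Subgroup.closure {y | ∃ i, i < n ∧ y = un (parOf he u v) n i} := by
  have hx : x ∈ Subgroup.closure {x | ∃ i, i < n ∧ x = tg d e n i} := by
    rw [Gam_closure]; exact Subgroup.mem_top _
  induction hx using Subgroup.closure_induction with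
  | mem y hy =>
    obtain ⟨i, hi, rfl⟩ := hy
    rw [rho_tg he hd u v hu1 n hi]
    exact Subgroup.subset_closure ⟨i, hi, rfl⟩
  | one => rw [map_one]; exact Subgroup.one_mem _
  | mul x y _ _ hx hy => rw [map_mul]; exact Subgroup.mul_mem _ hx hy
  | inv x _ hx => rw [map_inv]; exact Subgroup.inv_mem _ hx

theorem al_rho {σ : A →+* A} (hσ : IsStar (parOf he u v) σ) (x : Gam d e n) :
    al hσ n ((rho he hd u v hu1 n x : (H (parOf he u v) n)ˣ) : H (parOf he u v) n) =
      ((rho he hd u v hu1 n x⁻¹ : (H (parOf he u v) n)ˣ) : H (parOf he u v) n) := by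
  rw [al_closure hσ n (rho_mem he hd u v hu1 n x), map_inv]

theorem rho_wd (i : Ix (d * e - 1) n) :
    rho he hd u v hu1 n (wd (tg d e n) (d * e - 1) n i) =
      wd (un (parOf he u v) n) (d * e - 1) n i :=
  map_wd _ _ (fun _ hi => rho_tg he hd u v hu1 n hi) i

end rho

/-- `K` as an `A`-algebra through `θ : A → B`. -/
def Re {B : Type*} [CommRing B] (_θ : A →+* B) (K : Type*) : Type _ := K

section Re

variable {B : Type*} [CommRing B] (θ : A →+* B) (K : Type*) [Ring K] [Algebra B K]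

instance : Ring (Re θ K) := inferInstanceAs (Ring K)

instance : Algebra A (Re θ K) :=
  RingHom.toAlgebra' (S := Re θ K) ((algebraMap B K).comp θ)
    (fun r x => Algebra.commutes (R := B) (A := K) (θ r) x)

/-- The tautological ring map. -/
def toRe : K →+* Re θ K := RingHom.id K

variable {K}

theorem toRe_injective : Function.Injective (toRe θ K) := fun _ _ h => h

theorem toRe_smul (r : A) (x : K) : r • toRe θ K x = toRe θ K (θ r • x) := by
  rw [Algebra.smul_def, Algebra.smul_def]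
  rfl

theorem toRe_aeval (x : K) (p : Polynomial A) :
    Polynomial.aeval (toRe θ K x) p = toRe θ K (Polynomial.aeval x (p.map θ)) := by
  rw [Polynomial.aeval_def, Polynomial.aeval_def, Polynomial.eval₂_map]
  rfl

end Re

section spec

variable {d e : ℕ} (he : 0 < e) (hd : 0 < d) (u : Fin d → Aˣ) (v : Fin 2 → Aˣ) (n : ℕ)
  {θ : A →+* ℂ} {z : ℂ} (hz : IsPrimitiveRoot z d) (hu : ∀ j : Fin d, θ (u j) = z ^ (j : ℕ))
  (hv : ∀ j : Fin 2, θ (v j) = (-1) ^ (j : ℕ))
  {G : Type*} [Group G] {t : ℕ → G} (ht : IsBraid n t) (ht0 : 0 < n → t 0 ^ (d * e) = 1)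
  (hti : ∀ i, 0 < i → i < n → t i * t i = 1)

include hd hz hu hv ht ht0 hti in
theorem group_isHecke : IsHecke (parOf he u v) n
    (fun i => toRe θ (MonoidAlgebra ℂ G) (MonoidAlgebra.of ℂ G (t i))) := by
  refine ⟨fun h0 => ?_, fun i h0 hi => ?_, fun h1 => ?_, fun i h0 hi => ?_, fun i j hij hj => ?_⟩
  · rw [parOf_pol_iff he hd u v, toRe_aeval, pol_spec hd u hz hu, map_sub, map_pow,
      Polynomial.aeval_X, map_one, ← map_pow, ht0 h0, map_one, sub_self, map_zero]
  · have h1 : (θ ((v 0 : Aˣ) : A)) = 1 := by rw [hv]; simp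
    have h2 : (θ ((v 1 : Aˣ) : A)) = -1 := by rw [hv]; simp
    rw [quad_iff he u v, toRe_aeval, Polynomial.map_mul, Polynomial.map_sub, Polynomial.map_sub,
      Polynomial.map_X, Polynomial.map_C, Polynomial.map_C, h1, h2, map_mul, map_sub, map_sub,
      Polynomial.aeval_X, Polynomial.aeval_C, Polynomial.aeval_C, map_one, map_neg, map_one]
    have h3 : MonoidAlgebra.of ℂ G (t i) * MonoidAlgebra.of ℂ G (t i) = 1 := by
      rw [← map_mul, hti i h0 hi, map_one]
    generalize MonoidAlgebra.of ℂ G (t i) = y at h3 ⊢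
    rw [show (y - 1) * (y - -1) = y * y - 1 by noncomm_ring, h3, sub_self, map_zero]
  · have h := congrArg (fun x => toRe θ (MonoidAlgebra ℂ G) (MonoidAlgebra.of ℂ G x)) (ht.br4 h1)
    simp only [map_mul] at h
    exact h
  · have h := congrArg (fun x => toRe θ (MonoidAlgebra ℂ G) (MonoidAlgebra.of ℂ G x))
      (ht.br3 i h0 hi)
    simp only [map_mul] at h
    exact h
  · have h := congrArg (fun x => toRe θ (MonoidAlgebra ℂ G) (MonoidAlgebra.of ℂ G x))
      (ht.comm i j hij hj)
    simp only [map_mul] at h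
    exact h

/-- The specialisation of the Hecke algebra to the group algebra. -/
noncomputable def Sp : H (parOf he u v) n →ₐ[A] Re θ (MonoidAlgebra ℂ G) :=
  lift (parOf he u v) (group_isHecke he hd u v n hz hu hv ht ht0 hti)

/-- The specialisation on units coming from the group. -/
theorem Sp_un {i : ℕ} (hi : i < n) :
    Sp he hd u v n hz hu hv ht ht0 hti
      ((un (parOf he u v) n i : (H (parOf he u v) n)ˣ) : H (parOf he u v) n) =
      toRe θ (MonoidAlgebra ℂ G) (MonoidAlgebra.of ℂ G (t i)) := by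
  rw [un_val _ hi]
  exact lift_T _ _ hi

/-- The units of the target given by group elements. -/
noncomputable def ofU (θ : A →+* ℂ) (G : Type*) [Group G] : G →* (Re θ (MonoidAlgebra ℂ G))ˣ :=
  MonoidHom.toHomUnits (((toRe θ (MonoidAlgebra ℂ G) : MonoidAlgebra ℂ G →*
    Re θ (MonoidAlgebra ℂ G))).comp (MonoidAlgebra.of ℂ G))

theorem ofU_val (θ : A →+* ℂ) (G : Type*) [Group G] (g : G) :
    ((ofU θ G g : (Re θ (MonoidAlgebra ℂ G))ˣ) : Re θ (MonoidAlgebra ℂ G)) =
      toRe θ (MonoidAlgebra ℂ G) (MonoidAlgebra.of ℂ G g) := rfl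

theorem Sp_wd (i : Ix (d * e - 1) n) :
    Sp he hd u v n hz hu hv ht ht0 hti
      ((wd (un (parOf he u v) n) (d * e - 1) n i : (H (parOf he u v) n)ˣ) :
        H (parOf he u v) n) =
      toRe θ (MonoidAlgebra ℂ G) (MonoidAlgebra.of ℂ G (wd t (d * e - 1) n i)) := by
  set f : (H (parOf he u v) n)ˣ →* (Re θ (MonoidAlgebra ℂ G))ˣ :=
    Units.map (Sp he hd u v n hz hu hv ht ht0 hti : H (parOf he u v) n →*
      Re θ (MonoidAlgebra ℂ G)) with hf
  have h1 : ∀ i, i < n → f (un (parOf he u v) n i) = ofU θ G (t i) := by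
    intro i hi
    apply Units.ext
    exact Sp_un he hd u v n hz hu hv ht ht0 hti hi
  have h2 := map_wd f (d * e - 1) h1 i
  have h3 := map_wd (ofU θ G) (d * e - 1) (t := t) (t' := fun i => ofU θ G (t i))
    (fun i _ => rfl) i
  have h4 := congrArg (fun x : (Re θ (MonoidAlgebra ℂ G))ˣ => (x : Re θ (MonoidAlgebra ℂ G)))
    (h2.trans h3.symm)
  exact h4

/-- The coefficient of `1`. -/
noncomputable def cf1 (θ : A →+* ℂ) (G : Type*) [Group G] (x : Re θ (MonoidAlgebra ℂ G)) : ℂ :=
  (show MonoidAlgebra ℂ G from x).coeff 1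

theorem cf1_add (θ : A →+* ℂ) (G : Type*) [Group G] (x y : Re θ (MonoidAlgebra ℂ G)) :
    cf1 θ G (x + y) = cf1 θ G x + cf1 θ G y := rfl

theorem cf1_zero (θ : A →+* ℂ) (G : Type*) [Group G] :
    cf1 θ G (0 : Re θ (MonoidAlgebra ℂ G)) = 0 := rfl

theorem cf1_smul (θ : A →+* ℂ) (G : Type*) [Group G] (r : A) (x : Re θ (MonoidAlgebra ℂ G)) :
    cf1 θ G (r • x) = θ r * cf1 θ G x := by
  have h := toRe_smul θ r (show MonoidAlgebra ℂ G from x)
  have h2 : r • x = toRe θ (MonoidAlgebra ℂ G) (θ r • (show MonoidAlgebra ℂ G from x)) := h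
  rw [h2]
  rfl

open Classical in
theorem cf1_of (θ : A →+* ℂ) (G : Type*) [Group G] (g : G) :
    cf1 θ G (toRe θ (MonoidAlgebra ℂ G) (MonoidAlgebra.of ℂ G g)) = if g = 1 then 1 else 0 := by
  change (MonoidAlgebra.of ℂ G g).coeff 1 = _
  rw [MonoidAlgebra.of_apply, MonoidAlgebra.coeff_single, Finsupp.single_apply]

open Classical in
/-- The specialised trace is the coefficient of `1`. -/
theorem tau_Sp (hinj : ∀ i : Ix (d * e - 1) n, wd t (d * e - 1) n i = 1 → i = triv _ n)
    (h : H (parOf he u v) n) :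
    θ (tau (parOf he u v) n h) = cf1 θ G (Sp he hd u v n hz hu hv ht ht0 hti h) := by
  have hspan := wd_span (parOf he u v) n h
  induction hspan using Submodule.span_induction with
  | mem x hx =>
    obtain ⟨i, rfl⟩ := hx
    simp only
    rw [tau_wd, Sp_wd he hd u v n hz hu hv ht ht0 hti i, cf1_of, apply_ite θ, map_one, map_zero]
    refine if_congr ?_ rfl rfl
    exact ⟨fun h => by rw [h, wd_triv], hinj i⟩
  | zero => rw [map_zero, map_zero, map_zero, cf1_zero]
  | add x y _ _ hx hy => rw [map_add, map_add, hx, hy, map_add, cf1_add]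
  | smul r x _ hx => rw [map_smul, smul_eq_mul, map_mul, hx, map_smul, cf1_smul]

end spec

end Pool.Agent.Lib.H10BMM
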