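import Pool.Agent.Lib.H10BMM.Un

/-!
# The anti-automorphism `T ↦ T⁻¹` and the second condition on the trace
-/

namespace Pool.Agent.Lib.H10BMM

open Matrix
open scoped BigOperators

universe u v

variable {A : Type u} [CommRing A] {N : ℕ} (P : Par A N)

/-- The ring endomorphism `σ` of `A` inverts the parameters. -/
structure IsStar (σ : A →+* A) : Prop where
  invol : ∀ x, σ (σ x) = x
  a : σ P.a = -P.a * ((P.b⁻¹ : Aˣ) : A)
  b : σ (P.b : A) = ((P.b⁻¹ : Aˣ) : A)
  c0 : σ (P.c0 : A) = ((P.c0⁻¹ : Aˣ) : A)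
  ck : ∀ i : Fin N, σ (P.c i.succ) = -P.c (Fin.rev i).succ * ((P.c0⁻¹ : Aˣ) : A)

/-- The opposite ring with the `A`-algebra structure twisted by `σ`. -/
def Tw (_σ : A →+* A) (K : Type v) : Type v := Kᵐᵒᵖ

section Tw

variable (σ : A →+* A) (K : Type v) [Ring K] [Algebra A K]

instance : Ring (Tw σ K) := inferInstanceAs (Ring Kᵐᵒᵖ)

instance : Algebra A (Tw σ K) :=
  RingHom.toAlgebra' (S := Tw σ K) ((algebraMap A Kᵐᵒᵖ).comp σ) (fun r x =>
    MulOpposite.unop_injective (α := K)
      (Algebra.commutes (R := A) (A := K) (σ r) (MulOpposite.unop x)).symm)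

variable {K}

/-- The tautological map. -/
def twop (x : K) : Tw σ K := MulOpposite.op x

/-- The tautological map. -/
def untw (x : Tw σ K) : K := MulOpposite.unop x

theorem twop_mul (x y : K) : twop σ (x * y) = twop σ y * twop σ x := rfl
theorem twop_add (x y : K) : twop σ (x + y) = twop σ x + twop σ y := rfl
theorem twop_one : twop σ (1 : K) = 1 := rfl
theorem twop_zero : twop σ (0 : K) = 0 := rfl
theorem twop_pow (x : K) (k : ℕ) : twop σ (x ^ k) = twop σ x ^ k := by
  induction k with
  | zero => rw [pow_zero, pow_zero, twop_one]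
  | succ k ih => rw [pow_succ, twop_mul, ih, pow_succ']
theorem twop_smul (r : A) (x : K) : twop σ (σ r • x) = r • twop σ x := by
  rw [Algebra.smul_def, Algebra.smul_def, twop_mul]
  exact (Algebra.commutes (R := A) (A := Tw σ K) r (twop σ x)).symm
theorem twop_sum {ι : Type*} (s : Finset ι) (f : ι → K) :
    twop σ (∑ i ∈ s, f i) = ∑ i ∈ s, twop σ (f i) := by
  classical
  induction s using Finset.induction_on with
  | empty => rfl
  | insert a s ha ih => rw [Finset.sum_insert ha, Finset.sum_insert ha, twop_add, ih]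
theorem untw_twop (x : K) : untw σ (twop σ x) = x := rfl
theorem twop_untw (x : Tw σ K) : twop σ (untw σ x) = x := rfl
theorem untw_mul (x y : Tw σ K) : untw σ (x * y) = untw σ y * untw σ x := rfl
theorem untw_add (x y : Tw σ K) : untw σ (x + y) = untw σ x + untw σ y := rfl
theorem untw_one : untw σ (1 : Tw σ K) = 1 := rfl
theorem untw_algebraMap (r : A) : untw σ (algebraMap A (Tw σ K) r) = algebraMap A K (σ r) := rfl

end Tw

/-- The generators as units (`1` for `i ≥ n`). -/
noncomputable def un (n i : ℕ) : (H P n)ˣ :=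
  if h : i < n then ((T_isHecke P n).isUnit_T h).unit else 1

theorem un_val {n i : ℕ} (h : i < n) : (un P n i : H P n) = T P n i := by
  rw [un, dif_pos h]
  rfl

variable {P}

theorem inv_pol {K : Type v} [Ring K] [Algebra A K] {σ : A →+* A} (hσ : IsStar P σ) {t s : K}
    (hts : t * s = 1) (h : t ^ (N + 1) = ∑ k : Fin (N + 1), P.c k • t ^ (k : ℕ)) :
    s ^ (N + 1) = ∑ k : Fin (N + 1), σ (P.c k) • s ^ (k : ℕ) := by
  have hpow : ∀ k : ℕ, t ^ k * s ^ k = 1 := by
    intro k
    induction k with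
    | zero => simp
    | succ k ih =>
      rw [pow_succ, pow_succ', mul_assoc, ← mul_assoc t, hts, one_mul, ih]
  have hpow2 : ∀ k m : ℕ, k ≤ m → t ^ k * s ^ m = s ^ (m - k) := by
    intro k m hkm
    conv_lhs => rw [show m = k + (m - k) by omega, pow_add, ← mul_assoc, hpow, one_mul]
  have h1 := congrArg (fun x => x * s ^ (N + 1)) h
  simp only [hpow, Finset.sum_mul, smul_mul_assoc] at h1
  rw [Fin.sum_univ_succ] at h1
  rw [Fin.sum_univ_succ]
  simp only [Fin.val_zero, pow_zero, one_mul, Fin.val_succ] at h1 ⊢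
  rw [P.hc0] at h1 ⊢
  rw [hσ.c0]
  have h2 : (P.c0 : A) • s ^ (N + 1) = 1 - ∑ i : Fin N, P.c i.succ • s ^ (N - (i : ℕ)) := by
    rw [eq_sub_iff_add_eq, h1]
    congr 1
    refine Finset.sum_congr rfl fun i _ => ?_
    rw [hpow2 _ _ (by have := i.2; omega)]
    congr 2
    omega
  have h3 : s ^ (N + 1) = ((P.c0⁻¹ : Aˣ) : A) •
      (1 - ∑ i : Fin N, P.c i.succ • s ^ (N - (i : ℕ))) := by
    rw [← h2, smul_smul, Units.inv_mul, one_smul]
  rw [h3, smul_sub, sub_eq_add_neg]
  congr 1
  rw [Finset.smul_sum, ← Finset.sum_neg_distrib, ← Equiv.sum_comp Fin.revPerm]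
  refine Finset.sum_congr rfl fun i _ => ?_
  rw [hσ.ck, Fin.revPerm_apply, smul_smul, ← neg_smul]
  congr 1
  · ring
  · congr 1
    rw [Fin.val_rev]
    have := i.2
    omega

theorem inv_quad {K : Type v} [Ring K] [Algebra A K] {σ : A →+* A} (hσ : IsStar P σ) {t s : K}
    (hts : t * s = 1) (h : t * t = P.a • t + (P.b : A) • 1) :
    s * s = σ P.a • s + σ (P.b : A) • 1 := by
  have h1 : t * t * s * s = 1 := by
    rw [mul_assoc t t s, hts, mul_one, hts]
  rw [h] at h1
  rw [add_mul, add_mul, smul_mul_assoc, hts, smul_mul_assoc, one_mul, smul_mul_assoc, one_mul,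
    smul_mul_assoc] at h1
  have h2 : (P.b : A) • (s * s) = 1 - P.a • s := by
    rw [eq_sub_iff_add_eq, ← h1, add_comm]
  have h3 : s * s = ((P.b⁻¹ : Aˣ) : A) • (1 - P.a • s) := by
    rw [← h2, smul_smul, Units.inv_mul, one_smul]
  rw [h3, hσ.a, hσ.b, smul_sub, smul_smul]
  module

theorem tw_isHecke {σ : A →+* A} (hσ : IsStar P σ) (n : ℕ) :
    IsHecke P n (fun i => twop σ (((un P n i)⁻¹ : (H P n)ˣ) : H P n)) := by
  have hT := T_isHecke P n
  refine ⟨fun h0 => ?_, fun i h0 hi => ?_, fun h1 => ?_, fun i h0 hi => ?_,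
    fun i j hij hj => ?_⟩
  · have h := inv_pol hσ (t := T P n 0) (s := (((un P n 0)⁻¹ : (H P n)ˣ) : H P n))
      (by rw [← un_val P h0, Units.mul_inv]) (hT.pol h0)
    have h2 := congrArg (twop σ) h
    rw [twop_pow, twop_sum] at h2
    simpa only [twop_smul, twop_pow] using h2
  · have h := inv_quad hσ (t := T P n i) (s := (((un P n i)⁻¹ : (H P n)ˣ) : H P n))
      (by rw [← un_val P hi, Units.mul_inv]) (hT.quad i h0 hi)
    have h2 := congrArg (twop σ) h
    rw [twop_mul, twop_add, twop_smul, twop_smul, twop_one] at h2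
    exact h2
  · have h := hT.br4 h1
    rw [← un_val P (show 0 < n by omega), ← un_val P h1] at h
    have h' : un P n 0 * un P n 1 * un P n 0 * un P n 1 =
        un P n 1 * un P n 0 * un P n 1 * un P n 0 := Units.ext h
    have h2 := congrArg (fun x : (H P n)ˣ => twop σ ((x⁻¹ : (H P n)ˣ) : H P n)) h'
    simp only [_root_.mul_inv_rev, Units.val_mul, twop_mul] at h2
    simpa only [mul_assoc] using h2
  · have h := hT.br3 i h0 hi
    rw [← un_val P (show i < n by omega), ← un_val P hi] at h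
    have h' : un P n i * un P n (i + 1) * un P n i =
        un P n (i + 1) * un P n i * un P n (i + 1) := Units.ext h
    have h2 := congrArg (fun x : (H P n)ˣ => twop σ ((x⁻¹ : (H P n)ˣ) : H P n)) h'
    simp only [_root_.mul_inv_rev, Units.val_mul, twop_mul] at h2
    simpa only [mul_assoc] using h2
  · have h := hT.comm i j hij hj
    rw [← un_val P (show i < n by omega), ← un_val P hj] at h
    have h' : un P n i * un P n j = un P n j * un P n i := Units.ext h
    have h2 := congrArg (fun x : (H P n)ˣ => twop σ ((x⁻¹ : (H P n)ˣ) : H P n)) h'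
    simp only [_root_.mul_inv_rev, Units.val_mul, twop_mul] at h2
    exact h2

/-- The semilinear anti-automorphism with `T i ↦ (T i)⁻¹`. -/
noncomputable def al {σ : A →+* A} (hσ : IsStar P σ) (n : ℕ) (h : H P n) : H P n :=
  untw σ (lift P (tw_isHecke hσ n) h)

section al

variable {σ : A →+* A} (hσ : IsStar P σ) (n : ℕ)

theorem al_add (x y : H P n) : al hσ n (x + y) = al hσ n x + al hσ n y := by
  unfold al; rw [map_add, untw_add]

theorem al_mul (x y : H P n) : al hσ n (x * y) = al hσ n y * al hσ n x := by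
  unfold al; rw [map_mul, untw_mul]

theorem al_algebraMap (r : A) : al hσ n (algebraMap A _ r) = algebraMap A _ (σ r) := by
  unfold al; rw [AlgHom.commutes, untw_algebraMap]

theorem al_one : al hσ n 1 = 1 := by
  have := al_algebraMap hσ n 1
  simpa using this

theorem al_zero : al hσ n 0 = 0 := by
  have := al_algebraMap hσ n 0
  simpa using this

theorem al_smul (r : A) (x : H P n) : al hσ n (r • x) = σ r • al hσ n x := by
  rw [Algebra.smul_def, al_mul, al_algebraMap, ← Algebra.commutes, Algebra.smul_def]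

theorem al_T {i : ℕ} (hi : i < n) :
    al hσ n (T P n i) = (((un P n i)⁻¹ : (H P n)ˣ) : H P n) := by
  unfold al; rw [lift_T P _ hi, untw_twop]

theorem al_un_inv {i : ℕ} (hi : i < n) :
    al hσ n (((un P n i)⁻¹ : (H P n)ˣ) : H P n) = T P n i := by
  have h1 : al hσ n (((un P n i)⁻¹ : (H P n)ˣ) : H P n) *
      (((un P n i)⁻¹ : (H P n)ˣ) : H P n) = 1 := by
    rw [← al_T hσ n hi, al_T hσ n hi, ← al_T hσ n hi, ← al_mul, al_T hσ n hi, ← un_val P hi,
      Units.mul_inv, al_one]
  have h2 := congrArg (fun x => x * (un P n i : H P n)) h1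
  simp only [mul_assoc, Units.inv_mul, mul_one, one_mul] at h2
  rw [h2, un_val P hi]

theorem al_al (x : H P n) : al hσ n (al hσ n x) = x := by
  induction x using H_induction with
  | halg r => rw [al_algebraMap, al_algebraMap, hσ.invol]
  | hT i hi => rw [al_T hσ n hi, al_un_inv hσ n hi]
  | hadd x y hx hy => rw [al_add, al_add, hx, hy]
  | hmul x y hx hy => rw [al_mul, al_mul, hx, hy]

theorem incl_un_inv {i : ℕ} (hi : i < n) :
    incl P n (((un P n i)⁻¹ : (H P n)ˣ) : H P n) =
      (((un P (n + 1) i)⁻¹ : (H P (n + 1))ˣ) : H P (n + 1)) := by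
  have h1 : Units.map (incl P n : H P n →* H P (n + 1)) (un P n i) = un P (n + 1) i := by
    apply Units.ext
    rw [un_val P (show i < n + 1 by omega)]
    change incl P n (un P n i : H P n) = _
    rw [un_val P hi, incl_T P hi]
  rw [← h1, ← map_inv]
  rfl

theorem al_incl (x : H P n) : al hσ (n + 1) (incl P n x) = incl P n (al hσ n x) := by
  induction x using H_induction with
  | halg r => rw [AlgHom.commutes, al_algebraMap, al_algebraMap, AlgHom.commutes]
  | hT i hi => rw [incl_T P hi, al_T hσ _ (by omega), al_T hσ n hi, incl_un_inv n hi]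
  | hadd x y hx hy => rw [map_add, al_add, hx, hy, al_add, map_add]
  | hmul x y hx hy => rw [map_mul, al_mul, hx, hy, al_mul, map_mul]

theorem al_pow (x : H P n) (k : ℕ) : al hσ n (x ^ k) = al hσ n x ^ k := by
  induction k with
  | zero => rw [pow_zero, pow_zero, al_one]
  | succ k ih => rw [pow_succ, al_mul, ih, pow_succ']

theorem X_mul_al_X {k : ℕ} (hk : k < n) : xx P n k * al hσ n (xx P n k) = 1 := by
  induction k with
  | zero =>
    rw [show xx P n 0 = T P n 0 from rfl, al_T hσ n hk, ← un_val P hk, Units.mul_inv]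
  | succ k ih =>
    rw [show xx P n (k + 1) = ((P.b⁻¹ : Aˣ) : A) •
      (T P n (k + 1) * xx P n k * T P n (k + 1)) from rfl, al_smul, al_mul, al_mul,
      al_T hσ n hk, smul_mul_assoc, mul_smul_comm, smul_smul]
    have h1 := ih (by omega)
    have h2 : T P n (k + 1) * (((un P n (k + 1))⁻¹ : (H P n)ˣ) : H P n) = 1 := by
      rw [← un_val P hk, Units.mul_inv]
    have h3 : ((P.b⁻¹ : Aˣ) : A) * σ ((P.b⁻¹ : Aˣ) : A) = 1 := by
      rw [← hσ.b, hσ.invol, hσ.b, Units.inv_mul]
    rw [h3, one_smul]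
    generalize (((un P n (k + 1))⁻¹ : (H P n)ˣ) : H P n) = s at h2 ⊢
    calc T P n (k + 1) * xx P n k * T P n (k + 1) * (s * (al hσ n (xx P n k) * s))
        = T P n (k + 1) * xx P n k * (T P n (k + 1) * s) * (al hσ n (xx P n k) * s) := by
          noncomm_ring
      _ = T P n (k + 1) * (xx P n k * al hσ n (xx P n k)) * s := by rw [h2]; noncomm_ring
      _ = 1 := by rw [h1, mul_one, h2]

theorem al_X_mul_X {k : ℕ} (hk : k < n) : al hσ n (xx P n k) * xx P n k = 1 := by
  have h := X_mul_al_X hσ n hk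
  obtain ⟨u, hu⟩ := (T_isHecke P n).isUnit_X hk
  rw [← show (u : H P n) = xx P n k from hu] at h ⊢
  have h2 : al hσ n (u : H P n) = ((u⁻¹ : (H P n)ˣ) : H P n) := by
    rw [← one_mul (al hσ n (u : H P n)), ← Units.inv_mul u, mul_assoc, h, mul_one]
  rw [h2, Units.inv_mul]

end al

section star

variable {σ : A →+* A} (hσ : IsStar P σ)

theorem alX_pow_mul (n k : ℕ) (hk : k ≤ N + 1) :
    al hσ (n + 1) (xx P (n + 1) n) ^ k * xx P (n + 1) n ^ (N + 1) =
      xx P (n + 1) n ^ (N + 1 - k) := by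
  have h1 := al_X_mul_X hσ (n + 1) (show n < n + 1 by omega)
  have hpow : ∀ k : ℕ, al hσ (n + 1) (xx P (n + 1) n) ^ k * xx P (n + 1) n ^ k = 1 := by
    intro k
    induction k with
    | zero => simp
    | succ k ih =>
      rw [pow_succ, pow_succ', mul_assoc, ← mul_assoc (al hσ (n + 1) (xx P (n + 1) n)) (xx _ _ _),
        h1, one_mul, ih]
  conv_lhs => rw [show N + 1 = k + (N + 1 - k) by omega, pow_add, ← mul_assoc, hpow, one_mul]

theorem E_Tinv_Xtop (n : ℕ) :
    E P (n + 1) ((((un P (n + 2) (n + 1))⁻¹ : (H P (n + 2))ˣ) : H P (n + 2)) *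
      xx P (n + 2) (n + 1) ^ (N + 1)) = 0 := by
  have h1 : (((un P (n + 2) (n + 1))⁻¹ : (H P (n + 2))ˣ) : H P (n + 2)) *
      xx P (n + 2) (n + 1) = ((P.b⁻¹ : Aˣ) : A) •
        (incl P (n + 1) (xx P (n + 1) n) * T P (n + 2) (n + 1)) := by
    rw [show xx P (n + 2) (n + 1) = ((P.b⁻¹ : Aˣ) : A) •
      (T P (n + 2) (n + 1) * xx P (n + 2) n * T P (n + 2) (n + 1)) from rfl, mul_smul_comm,
      show incl P (n + 1) (xx P (n + 1) n) = xx P (n + 2) n from incl_X P (by omega)]
    congr 1
    have h2 : (((un P (n + 2) (n + 1))⁻¹ : (H P (n + 2))ˣ) : H P (n + 2)) *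
        T P (n + 2) (n + 1) = 1 := by
      rw [← un_val P (show n + 1 < n + 2 by omega), Units.inv_mul]
    rw [← mul_assoc, ← mul_assoc, h2, one_mul]
  rw [pow_succ', ← mul_assoc, h1, smul_mul_assoc, map_smul, mul_assoc, E_left,
    E_T_Xpow P n N (by omega), mul_zero, smul_zero]

theorem E_star_al (n : ℕ) (h : H P (n + 1)) :
    E P n (al hσ (n + 1) h * xx P (n + 1) n ^ (N + 1)) = (P.c0 : A) • al hσ n (E P n h) := by
  have h0 : ∀ (g : H P n) (k : ℕ), k < N + 1 →
      E P n (al hσ (n + 1) (incl P n g * xx P (n + 1) n ^ k) * xx P (n + 1) n ^ (N + 1)) =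
        (P.c0 : A) • al hσ n (E P n (incl P n g * xx P (n + 1) n ^ k)) := by
    intro g k hk
    rw [al_mul, al_incl, al_pow, mul_assoc, ← X_pow_comm_incl, ← mul_assoc,
      alX_pow_mul hσ n k (by omega), E_right, E_left, E_X_pow P n k hk]
    by_cases h1 : k = 0
    · subst h1
      rw [if_pos rfl, mul_one, Nat.sub_zero, E_X_top, smul_mul_assoc, one_mul]
    · rw [if_neg h1, E_X_pow P n (N + 1 - k) (by omega), if_neg (by omega), zero_mul, mul_zero,
        al_zero, smul_zero]
  rcases n with _ | n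
  · induction h using E_induction_zero with
    | hadd x y hx hy => simp only [al_add, add_mul, map_add, hx, hy, smul_add]
    | h0 g k hk => exact h0 g k hk
  · induction h using E_induction_succ with
    | hadd x y hx hy => simp only [al_add, add_mul, map_add, hx, hy, smul_add]
    | h0 g k hk => exact h0 g k hk
    | h1 g g' =>
      rw [al_mul, al_mul, al_incl, al_incl, al_T hσ _ (by omega), mul_assoc, mul_assoc,
        ← X_pow_comm_incl, E_left, ← mul_assoc, E_right, E_Tinv_Xtop, E_right, E_left, E_T]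
      simp [al_zero]

/-- The basic symmetry of the conditional expectation. -/
theorem E_star (n : ℕ) (h : H P (n + 1)) :
    E P n (h * xx P (n + 1) n ^ (N + 1)) = (P.c0 : A) • al hσ n (E P n (al hσ (n + 1) h)) := by
  have := E_star_al hσ n (al hσ (n + 1) h)
  rwa [al_al] at this

variable (P) in
/-- The product of the `(N+1)`-st powers of the Jucys-Murphy elements. -/
noncomputable def Pi : (n : ℕ) → H P n
  | 0 => 1
  | (n + 1) => incl P n (Pi n) * xx P (n + 1) n ^ (N + 1)

theorem tau_star (n : ℕ) (h : H P n) :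
    tau P n (h * Pi P n) = (P.c0 : A) ^ n * σ (tau P n (al hσ n h)) := by
  induction n with
  | zero =>
    obtain ⟨r, rfl⟩ := H_zero_scalar P h
    rw [al_algebraMap, Algebra.algebraMap_eq_smul_one, Algebra.algebraMap_eq_smul_one, map_smul,
      tau_one, Pi, mul_one, map_smul, tau_one, smul_eq_mul, smul_eq_mul, mul_one, mul_one,
      hσ.invol, pow_zero, one_mul]
  | succ n ih =>
    rw [Pi, ← X_pow_comm_incl, ← mul_assoc, tau_succ, E_right, E_star hσ, smul_mul_assoc, map_smul,
      ih, al_al, smul_eq_mul, ← mul_assoc, ← pow_succ', tau_succ]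

include hσ in
theorem tau_Pi (n : ℕ) : tau P n (Pi P n) = (P.c0 : A) ^ n := by
  have := tau_star hσ n 1
  rwa [one_mul, al_one, tau_one, map_one, mul_one] at this

end star

end Pool.Agent.Lib.H10BMM
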