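import Pool.Agent.Lib.H10BMM.Span

/-!
# The trace `tau`
-/

namespace Pool.Agent.Lib.H10BMM

open Matrix
open scoped BigOperators

universe u v

variable {A : Type u} [CommRing A] {N : ℕ} (P : Par A N)

/-- Expansion in the basis `yy`. -/
theorem expand (n : ℕ) (h : H P (n + 1)) :
    h = ∑ j : Fin (n + 1), ∑ k : Fin (N + 1), incl P n (coord P n h j k) * yy P n j k := by
  have h1 : yy P n 0 0 * h = _ := congrFun (Good_all P n h 0) 0
  rw [yy_zero, Fin.val_zero, pow_zero, one_mul] at h1
  rw [Finset.sum_apply] at h1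
  exact h1

theorem E_induction_zero {p : H P 1 → Prop} (hadd : ∀ x y, p x → p y → p (x + y))
    (h0 : ∀ g k, k < N + 1 → p (incl P 0 g * xx P 1 0 ^ k)) (h : H P 1) : p h := by
  have hzero : p 0 := by simpa using h0 0 0 (by omega)
  rw [expand P 0 h]
  refine Finset.sum_induction _ p hadd hzero fun j _ => ?_
  refine Finset.sum_induction _ p hadd hzero fun k _ => ?_
  obtain rfl : j = 0 := Fin.fin_one_eq_zero j
  rw [yy_zero]
  exact h0 _ _ k.2

theorem E_induction_succ (n : ℕ) {p : H P (n + 2) → Prop}
    (hadd : ∀ x y, p x → p y → p (x + y))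
    (h0 : ∀ g k, k < N + 1 → p (incl P (n + 1) g * xx P (n + 2) (n + 1) ^ k))
    (h1 : ∀ g g', p (incl P (n + 1) g * T P (n + 2) (n + 1) * incl P (n + 1) g'))
    (h : H P (n + 2)) : p h := by
  have hzero : p 0 := by simpa using h0 0 0 (by omega)
  rw [expand P (n + 1) h]
  refine Finset.sum_induction _ p hadd hzero fun j _ => ?_
  refine Finset.sum_induction _ p hadd hzero fun k _ => ?_
  refine Fin.cases ?_ (fun j => ?_) j
  · rw [yy_zero]
    exact h0 _ _ k.2
  · rw [yy_succ, ← mul_assoc]
    exact h1 _ _

/-- The trace. -/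
noncomputable def tau : (n : ℕ) → H P n →ₗ[A] A
  | 0 => (lift P (K := A) (T' := fun _ => 0) ⟨fun h => absurd h (lt_irrefl _),
      fun i _ h => absurd h (Nat.not_lt_zero _), fun h => absurd h (Nat.not_lt_zero _),
      fun i _ h => absurd h (Nat.not_lt_zero _),
      fun i j _ h => absurd h (Nat.not_lt_zero _)⟩).toLinearMap
  | (n + 1) => tau n ∘ₗ E P n

theorem tau_succ (n : ℕ) (h : H P (n + 1)) : tau P (n + 1) h = tau P n (E P n h) := rfl

theorem tau_one (n : ℕ) : tau P n 1 = 1 := by
  induction n with
  | zero => simp [tau]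
  | succ n ih => rw [tau_succ, E_one, ih]

theorem E_E_comm (n : ℕ) (h : H P (n + 2)) :
    E P n (E P (n + 1) (T P (n + 2) (n + 1) * h)) =
      E P n (E P (n + 1) (h * T P (n + 2) (n + 1))) := by
  induction h using E_induction_succ with
  | hadd x y hx hy => simp only [mul_add, add_mul, map_add, hx, hy]
  | h0 g k hk =>
    have e1 : T P (n + 2) (n + 1) * (incl P (n + 1) g * xx P (n + 2) (n + 1) ^ k) =
        T P (n + 2) (n + 1) * xx P (n + 2) (n + 1) ^ k * incl P (n + 1) g := by
      rw [← X_pow_comm_incl, mul_assoc]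
    rw [e1, E_right, E_T_Xpow P n k hk, mul_assoc, E_left, E_Xpow_T P n k hk]
    simp
  | h1 g g' =>
    have e1 : T P (n + 2) (n + 1) * (incl P (n + 1) g * T P (n + 2) (n + 1) * incl P (n + 1) g') =
        T P (n + 2) (n + 1) * incl P (n + 1) g * T P (n + 2) (n + 1) * incl P (n + 1) g' := by
      simp only [mul_assoc]
    have e2 : incl P (n + 1) g * T P (n + 2) (n + 1) * incl P (n + 1) g' * T P (n + 2) (n + 1) =
        incl P (n + 1) g *
          (T P (n + 2) (n + 1) * incl P (n + 1) g' * T P (n + 2) (n + 1)) := by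
      simp only [mul_assoc]
    rw [e1, e2, E_right, E_left, E_TgT, E_TgT, smul_mul_assoc, mul_smul_comm, map_smul, map_smul,
      E_left, E_right]

theorem H_one_comm (x y : H P 1) : x * y = y * x := by
  induction x using H_induction with
  | halg r => exact Algebra.commutes _ _
  | hT i hi =>
    obtain rfl : i = 0 := by omega
    induction y using H_induction with
    | halg r => exact (Algebra.commutes _ _).symm
    | hT i hi =>
      obtain rfl : i = 0 := by omega
      rfl
    | hadd x y hx hy => rw [mul_add, add_mul, hx, hy]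
    | hmul x y hx hy => rw [← mul_assoc, hx, mul_assoc, hy, mul_assoc]
  | hadd x y hx hy => rw [mul_add, add_mul, hx, hy]
  | hmul x y hx hy => rw [mul_assoc, hy, ← mul_assoc, hx, mul_assoc]

/-- `tau` is a trace. -/
theorem tau_comm (n : ℕ) (h h' : H P n) : tau P n (h * h') = tau P n (h' * h) := by
  induction n with
  | zero =>
    obtain ⟨r, rfl⟩ := H_zero_scalar P h
    rw [Algebra.commutes]
  | succ n ih =>
    induction h' using H_induction generalizing h with
    | halg r => rw [Algebra.commutes]
    | hT i hi =>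
      rcases Nat.lt_or_ge i n with h1 | h1
      · rw [← incl_T P h1, tau_succ, tau_succ, E_left, E_right, ih]
      · obtain rfl : i = n := by omega
        rcases i with _ | i
        · rw [H_one_comm]
        · rw [tau_succ, tau_succ, tau_succ, tau_succ, E_E_comm]
    | hadd x y hx hy => rw [mul_add, add_mul, map_add, map_add, hx, hy]
    | hmul x y hx hy => rw [← mul_assoc, hy, ← mul_assoc, hx, ← mul_assoc]

end Pool.Agent.Lib.H10BMM
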