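import Pool.Agent.Lib.H10BMM.Tr

/-!
# `tau` is a symmetrising form
-/

namespace Pool.Agent.Lib.H10BMM

open Matrix
open scoped BigOperators

universe u v

variable {A : Type u} [CommRing A] {N : ℕ} (P : Par A N)

theorem isUnit_xx (n : ℕ) : IsUnit (xx P (n + 1) n) := (T_isHecke P (n + 1)).isUnit_X (by omega)

/-- Solving the triangular system of level `0`. -/
theorem frob_level0 (n : ℕ) (z : ℕ → H P n) (m : ℕ) (hm : m ≤ N + 1) :
    ∃ h : H P (n + 1), ∀ k, N + 1 - m ≤ k → k < N + 1 →
      E P n (xx P (n + 1) n ^ k * h) = z k := by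
  induction m with
  | zero => exact ⟨0, fun k h1 h2 => by omega⟩
  | succ m ih =>
    obtain ⟨h, hh⟩ := ih (by omega)
    obtain ⟨u, hu⟩ := isUnit_xx P n
    set k0 := N - m with hk0
    set g := z k0 - E P n (xx P (n + 1) n ^ k0 * h) with hg
    refine ⟨h + ((u⁻¹ : (H P (n + 1))ˣ) : H P (n + 1)) ^ k0 * incl P n g, fun k h1 h2 => ?_⟩
    have e : xx P (n + 1) n ^ k * ((u⁻¹ : (H P (n + 1))ˣ) : H P (n + 1)) ^ k0 =
        xx P (n + 1) n ^ (k - k0) := by
      rw [← hu, ← Units.val_pow_eq_pow_val, ← Units.val_pow_eq_pow_val,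
        ← Units.val_pow_eq_pow_val, ← Units.val_mul]
      congr 1
      rw [inv_pow, ← div_eq_mul_inv, ← pow_sub_mul_pow u (show k0 ≤ k by omega)]
      simp
    rw [mul_add, map_add, ← mul_assoc, e, E_right, E_X_pow P n (k - k0) (by omega)]
    rcases Nat.eq_or_lt_of_le (show k0 ≤ k by omega) with h3 | h3
    · subst h3
      rw [if_pos (by omega), one_mul, hg]
      abel
    · rw [if_neg (by omega), zero_mul, add_zero]
      exact hh k (by omega) h2

/-- The form `E (x y)` has a dual family of the `yy`. -/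
theorem frob (n : ℕ) (g : Fin (n + 1) → Fin (N + 1) → H P n) :
    ∃ h : H P (n + 1), ∀ j k, E P n (yy P n j k * h) = g j k := by
  induction n with
  | zero =>
    obtain ⟨h, hh⟩ := frob_level0 P 0 (fun k => if hk : k < N + 1 then g 0 ⟨k, hk⟩ else 0)
      (N + 1) le_rfl
    refine ⟨h, fun j k => ?_⟩
    obtain rfl : j = 0 := Fin.fin_one_eq_zero j
    rw [yy_zero, hh k (by omega) k.2, dif_pos k.2]
  | succ n ih =>
    obtain ⟨h0, hh0⟩ := frob_level0 P (n + 1)
      (fun k => if hk : k < N + 1 then g 0 ⟨k, hk⟩ else 0) (N + 1) le_rfl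
    have hdual : ∀ (j : Fin (n + 1)) (k : Fin (N + 1)), ∃ z : H P (n + 1), ∀ j' k',
        E P n (yy P n j' k' * z) = if j' = j ∧ k' = k then 1 else 0 := fun j k =>
      ih (fun j' k' => if j' = j ∧ k' = k then 1 else 0)
    choose z hz using hdual
    set t := T P (n + 2) (n + 1) with ht
    set h1 : H P (n + 2) := ∑ j : Fin (n + 1), ∑ k : Fin (N + 1),
      incl P (n + 1) (z j k) * t * incl P (n + 1) (((P.b⁻¹ : Aˣ) : A) •
        (g j.succ k - E P (n + 1) (yy P (n + 1) j.succ k * h0))) with hh1
    refine ⟨h0 + h1, fun j k => ?_⟩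
    rw [mul_add, map_add]
    refine Fin.cases ?_ (fun j => ?_) j
    · have e0 : E P (n + 1) (yy P (n + 1) 0 k * h1) = 0 := by
        rw [hh1, Finset.mul_sum, map_sum]
        refine Finset.sum_eq_zero fun j' _ => ?_
        rw [Finset.mul_sum, map_sum]
        refine Finset.sum_eq_zero fun k' _ => ?_
        rw [← mul_assoc, E_right, ← mul_assoc, yy_zero, X_pow_comm_incl, mul_assoc, E_left, ht,
          E_Xpow_T P n k k.2]
        simp
      rw [e0, add_zero, yy_zero, hh0 k (by omega) k.2, dif_pos k.2]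
    · have e1 : E P (n + 1) (yy P (n + 1) j.succ k * h1) =
          g j.succ k - E P (n + 1) (yy P (n + 1) j.succ k * h0) := by
        rw [hh1, Finset.mul_sum, map_sum, Finset.sum_eq_single j, Finset.mul_sum, map_sum,
          Finset.sum_eq_single k]
        · rw [← mul_assoc, E_right, ← mul_assoc, yy_succ, mul_assoc t, ← map_mul, ← ht, E_TgT, hz,
            if_pos ⟨rfl, rfl⟩, map_one, mul_smul_comm, smul_mul_assoc, one_mul, smul_smul,
            Units.inv_mul, one_smul]
        · intro k' _ hk'
          rw [← mul_assoc, E_right, ← mul_assoc, yy_succ, mul_assoc t, ← map_mul, E_TgT, hz,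
            if_neg (fun h => hk' h.2.symm), map_zero, smul_zero, zero_mul]
        · intro h; exact absurd (Finset.mem_univ _) h
        · intro j' _ hj'
          rw [Finset.mul_sum, map_sum]
          refine Finset.sum_eq_zero fun k' _ => ?_
          rw [← mul_assoc, E_right, ← mul_assoc, yy_succ, mul_assoc t, ← map_mul, E_TgT, hz,
            if_neg (fun h => hj' h.1.symm), map_zero, smul_zero, zero_mul]
        · intro h; exact absurd (Finset.mem_univ _) h
      rw [e1]
      abel

/-- Every linear form is `tau (z * ·)`. -/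
theorem tau_surj (n : ℕ) (l : H P n →ₗ[A] A) : ∃ z : H P n, ∀ h, tau P n (z * h) = l h := by
  induction n with
  | zero =>
    refine ⟨algebraMap A _ (l 1), fun h => ?_⟩
    obtain ⟨r, rfl⟩ := H_zero_scalar P h
    rw [← map_mul, Algebra.algebraMap_eq_smul_one, map_smul, tau_one,
      Algebra.algebraMap_eq_smul_one, map_smul]
    simp [mul_comm]
  | succ n ih =>
    have h1 : ∀ (j : Fin (n + 1)) (k : Fin (N + 1)), ∃ z : H P n, ∀ g,
        tau P n (z * g) = l (incl P n g * yy P n j k) := fun j k =>
      ih (l ∘ₗ (LinearMap.mulRight A (yy P n j k)) ∘ₗ (incl P n).toLinearMap)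
    choose z hz using h1
    obtain ⟨h, hh⟩ := frob P n z
    refine ⟨h, fun h' => ?_⟩
    rw [expand P n h', Finset.mul_sum, map_sum, map_sum]
    refine Finset.sum_congr rfl fun j _ => ?_
    rw [Finset.mul_sum, map_sum, map_sum]
    refine Finset.sum_congr rfl fun k _ => ?_
    rw [tau_comm, mul_assoc, tau_succ, E_left, hh, tau_comm, hz]

/-- The coordinates as a linear equivalence. -/
noncomputable def coordEquiv (n : ℕ) :
    H P (n + 1) ≃ₗ[A] (Fin (n + 1) → Fin (N + 1) → H P n) where
  toFun h := coord P n h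
  map_add' x y := by funext j k; simp [coord_apply]
  map_smul' r x := by funext j k; simp [coord_apply]
  invFun v := ∑ j : Fin (n + 1), ∑ k : Fin (N + 1), incl P n (v j k) * yy P n j k
  left_inv h := (expand P n h).symm
  right_inv v := by
    funext j k
    change coord P n (∑ j : Fin (n + 1), ∑ k : Fin (N + 1), incl P n (v j k) * yy P n j k) j k = _
    rw [coord_apply, map_sum, Matrix.sum_apply, Matrix.sum_apply, Finset.sum_eq_single j,
      map_sum, Matrix.sum_apply, Matrix.sum_apply, Finset.sum_eq_single k]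
    · rw [Phi_incl_mul_zero]
      simp only [scalarAlgHom_apply, Matrix.scalar_apply, Matrix.diagonal_mul]
      rw [← coord_apply, coord_yy, if_pos ⟨rfl, rfl⟩, mul_one]
    · intro k' _ hk'
      rw [Phi_incl_mul_zero]
      simp only [scalarAlgHom_apply, Matrix.scalar_apply, Matrix.diagonal_mul]
      rw [← coord_apply, coord_yy, if_neg (fun h => hk' h.2.symm), mul_zero]
    · intro h; exact absurd (Finset.mem_univ _) h
    · intro j' _ hj'
      rw [map_sum, Matrix.sum_apply, Matrix.sum_apply]
      refine Finset.sum_eq_zero fun k' _ => ?_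
      rw [Phi_incl_mul_zero]
      simp only [scalarAlgHom_apply, Matrix.scalar_apply, Matrix.diagonal_mul]
      rw [← coord_apply, coord_yy, if_neg (fun h => hj' h.1.symm), mul_zero]
    · intro h; exact absurd (Finset.mem_univ _) h

/-- `H P 0` is the ground ring. -/
noncomputable def zeroEquiv : H P 0 ≃ₗ[A] A where
  toFun h := tau P 0 h
  map_add' x y := map_add _ _ _
  map_smul' r x := map_smul _ _ _
  invFun r := algebraMap A _ r
  left_inv h := by
    obtain ⟨r, rfl⟩ := H_zero_scalar P h
    change algebraMap A (H P 0) (tau P 0 (algebraMap A (H P 0) r)) = _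
    rw [Algebra.algebraMap_eq_smul_one r, map_smul, tau_one, smul_eq_mul, mul_one,
      Algebra.algebraMap_eq_smul_one]
  right_inv r := by
    change tau P 0 (algebraMap A (H P 0) r) = _
    rw [Algebra.algebraMap_eq_smul_one, map_smul, tau_one, smul_eq_mul, mul_one]

theorem free_finite (n : ℕ) : Module.Free A (H P n) ∧ Module.Finite A (H P n) := by
  induction n with
  | zero => exact ⟨Module.Free.of_equiv (zeroEquiv P).symm, Module.Finite.equiv (zeroEquiv P).symm⟩
  | succ n ih =>
    obtain ⟨h1, h2⟩ := ih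
    exact ⟨Module.Free.of_equiv (coordEquiv P n).symm, Module.Finite.equiv (coordEquiv P n).symm⟩

/-- The map `h ↦ tau (h * ·)`. -/
noncomputable def tauDual (n : ℕ) : H P n →ₗ[A] Module.Dual A (H P n) :=
  (LinearMap.mul A (H P n)).compr₂ (tau P n)

@[simp] theorem tauDual_apply (n : ℕ) (h h' : H P n) : tauDual P n h h' = tau P n (h * h') := rfl

theorem tauDual_bijective (n : ℕ) : Function.Bijective (tauDual P n) := by
  have hs : Function.Surjective (tauDual P n) := fun l => by
    obtain ⟨z, hz⟩ := tau_surj P n l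
    exact ⟨z, LinearMap.ext hz⟩
  refine ⟨?_, hs⟩
  obtain ⟨h1, h2⟩ := free_finite P n
  classical
  let b := Module.Free.chooseBasis A (H P n)
  have h3 : Function.Surjective (b.toDualEquiv.symm.toLinearMap ∘ₗ tauDual P n) :=
    b.toDualEquiv.symm.surjective.comp hs
  have h4 := OrzechProperty.injective_of_surjective_endomorphism _ h3
  intro x y hxy
  apply h4
  rw [LinearMap.comp_apply, LinearMap.comp_apply, hxy]

end Pool.Agent.Lib.H10BMM
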