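import Pool.Agent.Lib.H10BMM.Braid

/-!
# The section words in the Hecke algebra
-/

namespace Pool.Agent.Lib.H10BMM

open scoped BigOperators

universe u v

variable {A : Type u} [CommRing A] {N : ℕ} (P : Par A N)

theorem un_isBraid (n : ℕ) : IsBraid n (un P n) := by
  have h := T_isHecke P n
  refine ⟨fun h1 => ?_, fun i h0 h1 => ?_, fun i j h0 h1 => ?_⟩
  · apply Units.ext
    simp only [Units.val_mul, un_val P h1, un_val P (show 0 < n by omega)]
    exact h.br4 h1
  · apply Units.ext
    simp only [Units.val_mul, un_val P h1, un_val P (show i < n by omega)]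
    exact h.br3 i h0 h1
  · apply Units.ext
    simp only [Units.val_mul, un_val P h1, un_val P (show i < n by omega)]
    exact h.comm i j h0 h1

/-- `incl` on units. -/
noncomputable def inclU (n : ℕ) : (H P n)ˣ →* (H P (n + 1))ˣ :=
  Units.map (incl P n : H P n →* H P (n + 1))

theorem inclU_val (n : ℕ) (x : (H P n)ˣ) : (inclU P n x : H P (n + 1)) = incl P n (x : H P n) :=
  rfl

theorem inclU_un {n i : ℕ} (hi : i < n) : inclU P n (un P n i) = un P (n + 1) i := by
  apply Units.ext
  rw [inclU_val, un_val P hi, un_val P (show i < n + 1 by omega), incl_T P hi]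

theorem L_val {n k : ℕ} (hk : k < n) :
    ((L (un P n) k : (H P n)ˣ) : H P n) = ((P.b ^ k : Aˣ) : A) • xx P n k := by
  induction k with
  | zero =>
    rw [pow_zero, Units.val_one, one_smul]
    exact un_val P hk
  | succ k ih =>
    rw [L, Units.val_mul, Units.val_mul, ih (by omega), un_val P hk,
      show xx P n (k + 1) = ((P.b⁻¹ : Aˣ) : A) •
        (T P n (k + 1) * xx P n k * T P n (k + 1)) from rfl, mul_smul_comm, smul_mul_assoc,
      smul_smul, pow_succ, ← Units.val_mul]
    congr 2
    simp

theorem w_un_succ (n : ℕ) (j : Fin (n + 1)) (k : Fin (N + 1)) :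
    w (un P (n + 2)) N n j k = inclU P (n + 1) (w (un P (n + 1)) N n j k) :=
  (map_w (inclU P (n + 1)) N (fun i hi => inclU_un P (by omega)) j k).symm

theorem w_val (n : ℕ) (j : Fin (n + 1)) (k : Fin (N + 1)) :
    ∃ κ : Aˣ, ((w (un P (n + 1)) N n j k : (H P (n + 1))ˣ) : H P (n + 1)) = (κ : A) • yy P n j k := by
  induction n with
  | zero =>
    refine ⟨1, ?_⟩
    rw [Units.val_one, one_smul]
    change ((un P 1 0 ^ (k : ℕ) : (H P 1)ˣ) : H P 1) = T P 1 0 ^ (k : ℕ)
    rw [Units.val_pow_eq_pow_val, un_val P (by omega)]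
  | succ n ih =>
    refine Fin.cases ?_ (fun j => ?_) j
    · refine ⟨(P.b ^ (n + 1)) ^ (k : ℕ), ?_⟩
      change ((L (un P (n + 2)) (n + 1) ^ (k : ℕ) : (H P (n + 2))ˣ) : H P (n + 2)) = _
      rw [Units.val_pow_eq_pow_val, L_val P (by omega), smul_pow, yy_zero]
      simp only [Units.val_pow_eq_pow_val]
    · obtain ⟨κ, hκ⟩ := ih j
      refine ⟨κ, ?_⟩
      change ((un P (n + 2) (n + 1) * w (un P (n + 2)) N n j k : (H P (n + 2))ˣ) :
        H P (n + 2)) = _
      rw [Units.val_mul, w_un_succ, inclU_val, hκ, un_val P (by omega), yy_succ, map_smul,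
        mul_smul_comm]

theorem wd_un_succ (n : ℕ) (i : Ix N n) :
    wd (un P (n + 1)) N n i = inclU P n (wd (un P n) N n i) :=
  (map_wd (inclU P n) N (fun i hi => inclU_un P hi) i).symm

open Classical in
/-- The trace of a section word. -/
theorem tau_wd (n : ℕ) (i : Ix N n) :
    tau P n ((wd (un P n) N n i : (H P n)ˣ) : H P n) = if i = triv N n then 1 else 0 := by
  induction n with
  | zero =>
    rw [if_pos (show i = triv N 0 from rfl)]
    exact tau_one P 0
  | succ n ih =>
    obtain ⟨i, j, k⟩ := i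
    obtain ⟨κ, hκ⟩ := w_val P n j k
    have e : tau P (n + 1) ((wd (un P (n + 1)) N (n + 1) (i, j, k) : (H P (n + 1))ˣ) : H P (n + 1)) =
        (κ : A) * (tau P n ((wd (un P n) N n i : (H P n)ˣ) : H P n) * if j = 0 ∧ k = 0 then 1 else 0) := by
      rw [show wd (un P (n + 1)) N (n + 1) (i, j, k) =
        wd (un P (n + 1)) N n i * w (un P (n + 1)) N n j k from rfl, Units.val_mul, wd_un_succ,
        inclU_val, hκ, mul_smul_comm, map_smul, smul_eq_mul, tau_succ, E_left, E_yy]
      split_ifs <;> simp
    rw [e, ih]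
    by_cases hjk : j = 0 ∧ k = 0
    · obtain ⟨rfl, rfl⟩ := hjk
      have hκ1 : (κ : A) = 1 := by
        rw [w_zero_zero, Units.val_one, yy_zero, Fin.val_zero, pow_zero] at hκ
        have := congrArg (tau P (n + 1)) hκ
        rw [map_smul, tau_one, smul_eq_mul, mul_one] at this
        exact this.symm
      rw [hκ1, one_mul, if_pos (show (0 : Fin (n + 1)) = 0 ∧ (0 : Fin (N + 1)) = 0 from
        ⟨rfl, rfl⟩), mul_one]
      refine if_congr ?_ rfl rfl
      exact ⟨fun h => by rw [h]; rfl, fun h => congrArg Prod.fst h⟩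
    · rw [if_neg hjk, mul_zero, mul_zero, if_neg]
      intro h
      exact hjk ⟨congrArg (fun x => x.2.1) h, congrArg (fun x => x.2.2) h⟩

/-- The section words span. -/
theorem wd_span (n : ℕ) (h : H P n) :
    h ∈ Submodule.span A (Set.range fun i : Ix N n => ((wd (un P n) N n i : (H P n)ˣ) : H P n)) := by
  induction n with
  | zero =>
    obtain ⟨r, rfl⟩ := H_zero_scalar P h
    rw [Algebra.algebraMap_eq_smul_one]
    exact Submodule.smul_mem _ _ (Submodule.subset_span ⟨(), rfl⟩)
  | succ n ih =>
    rw [expand P n h]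
    refine Submodule.sum_mem _ fun j _ => Submodule.sum_mem _ fun k _ => ?_
    obtain ⟨κ, hκ⟩ := w_val P n j k
    have hy : yy P n j k = ((κ⁻¹ : Aˣ) : A) • ((w (un P (n + 1)) N n j k : (H P (n + 1))ˣ) : H P (n + 1)) := by
      rw [hκ, smul_smul, Units.inv_mul, one_smul]
    rw [hy, mul_smul_comm]
    refine Submodule.smul_mem _ _ ?_
    refine Submodule.span_induction (p := fun g _ => incl P n g *
      ((w (un P (n + 1)) N n j k : (H P (n + 1))ˣ) : H P (n + 1)) ∈ Submodule.span A
        (Set.range fun i : Ix N (n + 1) => ((wd (un P (n + 1)) N (n + 1) i : (H P (n + 1))ˣ) : H P (n + 1))))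
      ?_ ?_ ?_ ?_ (ih (coord P n h j k))
    · rintro _ ⟨i, rfl⟩
      refine Submodule.subset_span ⟨(i, j, k), ?_⟩
      change ((wd (un P (n + 1)) N n i * w (un P (n + 1)) N n j k : (H P (n + 1))ˣ) :
        H P (n + 1)) = _
      rw [Units.val_mul, wd_un_succ, inclU_val]
    · rw [map_zero, zero_mul]
      exact Submodule.zero_mem _
    · intro x y _ _ hx hy
      rw [map_add, add_mul]
      exact Submodule.add_mem _ hx hy
    · intro r x _ hx
      rw [map_smul, smul_mul_assoc]
      exact Submodule.smul_mem _ _ hx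

instance finiteIx (N : ℕ) : ∀ n, Finite (Ix N n)
  | 0 => inferInstanceAs (Finite Unit)
  | (n + 1) => by
    have := finiteIx N n
    exact inferInstanceAs (Finite (Ix N n × (Fin (n + 1) × Fin (N + 1))))

theorem coord_incl_yy (n : ℕ) (x : H P n) (j j' : Fin (n + 1)) (k k' : Fin (N + 1)) :
    coord P n (incl P n x * yy P n j k) j' k' = if j' = j ∧ k' = k then x else 0 := by
  rw [coord_apply, Phi_incl_mul_zero]
  simp only [Matrix.scalarAlgHom_apply, Matrix.scalar_apply, Matrix.diagonal_mul]
  rw [← coord_apply, coord_yy]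
  split_ifs <;> simp

/-- The section words are linearly independent. -/
theorem wd_linearIndependent (n : ℕ) : LinearIndependent A
    (fun i : Ix N n => ((wd (un P n) N n i : (H P n)ˣ) : H P n)) := by
  classical
  have hfin : ∀ m, Fintype (Ix N m) := fun m => Fintype.ofFinite _
  induction n with
  | zero =>
    have := hfin 0
    rw [Fintype.linearIndependent_iff]
    intro g hg i
    have h1 : ∑ i : Ix N 0, g i • (1 : H P 0) = 0 := hg
    have h2 := congrArg (tau P 0) h1
    rw [map_sum, map_zero] at h2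
    simp only [map_smul, tau_one, smul_eq_mul, mul_one] at h2
    have h3 : (Finset.univ : Finset (Ix N 0)) = {i} := by
      ext x
      simp only [Finset.mem_univ, Finset.mem_singleton, true_iff]
      exact Subsingleton.elim (α := Unit) x i
    rwa [h3, Finset.sum_singleton] at h2
  | succ n ih =>
    have h0 := hfin n
    letI hIx : Fintype (Ix N (n + 1)) :=
      inferInstanceAs (Fintype (Ix N n × (Fin (n + 1) × Fin (N + 1))))
    rw [Fintype.linearIndependent_iff] at ih ⊢
    intro g hg i
    obtain ⟨i, j, k⟩ := i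
    have hκ := fun j k => w_val P n j k
    choose κ hκ using hκ
    have e1 : ∀ x : Ix N (n + 1), ((wd (un P (n + 1)) N (n + 1) x : (H P (n + 1))ˣ) :
        H P (n + 1)) = (κ x.2.1 x.2.2 : A) •
          (incl P n ((wd (un P n) N n x.1 : (H P n)ˣ) : H P n) * yy P n x.2.1 x.2.2) := by
      intro x
      change ((wd (un P (n + 1)) N n x.1 * w (un P (n + 1)) N n x.2.1 x.2.2 :
        (H P (n + 1))ˣ) : H P (n + 1)) = _
      rw [Units.val_mul, wd_un_succ, inclU_val, hκ, mul_smul_comm]
    have e2 := congrArg (fun h => coord P n h j k) hg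
    have e3 : ∀ f : Ix N (n + 1) → H P (n + 1), coord P n (∑ x, f x) j k =
        ∑ x, coord P n (f x) j k := by
      intro f
      simp only [coord_apply, map_sum, Matrix.sum_apply]
    have e4 : ∀ (r : A) (h : H P (n + 1)), coord P n (r • h) j k = r • coord P n h j k := by
      intro r h
      simp only [coord_apply, map_smul, Matrix.smul_apply]
    simp only [e3, e4, e1, coord_incl_yy] at e2
    have e5 : ∑ x : Ix N (n + 1), g x • (κ x.2.1 x.2.2 : A) •
        (if j = x.2.1 ∧ k = x.2.2 then ((wd (un P n) N n x.1 : (H P n)ˣ) : H P n) else 0) =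
        ∑ i : Ix N n, (g (i, j, k) * (κ j k : A)) • ((wd (un P n) N n i : (H P n)ˣ) : H P n) := by
      have e6 : ∀ F : Ix N (n + 1) → H P n, ∑ x : Ix N (n + 1), F x =
          ∑ i : Ix N n, ∑ j : Fin (n + 1), ∑ k : Fin (N + 1), F (i, j, k) := by
        intro F
        refine (Fintype.sum_prod_type (f := fun x : Ix N n × (Fin (n + 1) × Fin (N + 1)) =>
          F x)).trans ?_
        refine Finset.sum_congr rfl fun i _ => ?_
        exact Fintype.sum_prod_type _
      rw [e6]
      refine Finset.sum_congr rfl fun i _ => ?_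
      rw [Finset.sum_eq_single j, Finset.sum_eq_single k]
      · rw [if_pos ⟨rfl, rfl⟩, smul_smul]
      · intro k' _ hk'
        rw [if_neg (fun h => hk' h.2.symm), smul_zero, smul_zero]
      · intro h; exact absurd (Finset.mem_univ _) h
      · intro j' _ hj'
        refine Finset.sum_eq_zero fun k' _ => ?_
        rw [if_neg (fun h => hj' h.1.symm), smul_zero, smul_zero]
      · intro h; exact absurd (Finset.mem_univ _) h
    rw [e5] at e2
    have e7 : coord P n (0 : H P (n + 1)) j k = 0 := by
      rw [coord_apply, map_zero]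
      rfl
    rw [e7] at e2
    have e8 := ih (fun i => g (i, j, k) * (κ j k : A)) e2 i
    exact (κ j k).isUnit.mul_left_eq_zero.mp e8

/-- The full twist of the Hecke algebra is a unit multiple of `Pi`. -/
theorem twist_val (n : ℕ) :
    ∃ κ : Aˣ, ((Lprod (un P n) n ^ (N + 1) : (H P n)ˣ) : H P n) = (κ : A) • Pi P n := by
  induction n with
  | zero =>
    refine ⟨1, ?_⟩
    rw [Units.val_one, one_smul, Lprod, one_pow, Units.val_one, Pi]
  | succ n ih =>
    obtain ⟨κ, hκ⟩ := ih
    refine ⟨κ * (P.b ^ n) ^ (N + 1), ?_⟩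
    rw [(un_isBraid P (n + 1)).Lprod_pow_succ (by omega), Units.val_mul,
      ← map_Lprod (inclU P n) (fun i hi => inclU_un P hi), ← map_pow, inclU_val, hκ,
      Units.val_pow_eq_pow_val, L_val P (by omega), smul_pow, Pi, map_smul, smul_mul_assoc,
      mul_smul_comm, smul_smul, Units.val_mul, Units.val_pow_eq_pow_val (P.b ^ n)]

variable {P} in
theorem al_closure {σ : A →+* A} (hσ : IsStar P σ) (n : ℕ) {g : (H P n)ˣ}
    (hg : g ∈ Subgroup.closure {x | ∃ i, i < n ∧ x = un P n i}) :
    al hσ n (g : H P n) = ((g⁻¹ : (H P n)ˣ) : H P n) := by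
  induction hg using Subgroup.closure_induction with
  | mem x hx =>
    obtain ⟨i, hi, rfl⟩ := hx
    rw [un_val P hi, al_T hσ n hi]
  | one => rw [Units.val_one, al_one, inv_one, Units.val_one]
  | mul x y _ _ hx hy =>
    rw [Units.val_mul, al_mul, hx, hy, mul_inv_rev, Units.val_mul]
  | inv x _ hx =>
    have := congrArg (al hσ n) hx
    rw [al_al] at this
    rw [← this, inv_inv]

end Pool.Agent.Lib.H10BMM
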